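import Mathlib

/-! Rapidly divergent power series: a series is compared with `δ(h) T(ω h) + ε(h) T(-ω h)`, where
`T` is a fixed series with rapidly growing coefficients. The first coefficient `δ` is a derivation. -/

namespace Pool.Agent.H765.CS

open PowerSeries Finset

noncomputable section

/-- rapidly growing positive sequences, logarithmically convex -/
structure Rapid (t : ℕ → ℝ) : Prop where
  pos : ∀ k, 0 < t k
  conv : ∀ k, t (k + 1) * t (k + 1) ≤ t k * t (k + 2)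
  grow : ∃ c : ℝ, 0 < c ∧ ∀ k : ℕ, c * (k + 1) * t k ≤ t (k + 1)

/-- `f_(k + M) = O(t_k)` -/
def Sm (t : ℕ → ℝ) (M : ℕ) (f : ℝ⟦X⟧) : Prop := ∃ C : ℝ, ∀ k, |coeff (k + M) f| ≤ C * t k

/-- the series `∑ ω^k t_k h^k` -/
def T (t : ℕ → ℝ) (ω : ℝ) : ℝ⟦X⟧ := PowerSeries.mk fun k => ω ^ k * t k

/-- `f` is asymptotic to `δ(h) T(ω h) + ε(h) T(-ω h)` -/
def As (t : ℕ → ℝ) (ω : ℝ) (f δ ε : ℝ⟦X⟧) : Prop := ∀ M : ℕ,
  Sm t M (f - (trunc M δ : ℝ⟦X⟧) * T t ω - (trunc M ε : ℝ⟦X⟧) * T t (-ω))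

variable {t : ℕ → ℝ}

theorem Sm.add {M : ℕ} {f g : ℝ⟦X⟧} (hf : Sm t M f) (hg : Sm t M g) : Sm t M (f + g) := by
  obtain ⟨C, hC⟩ := hf
  obtain ⟨D, hD⟩ := hg
  refine ⟨C + D, fun k => ?_⟩
  rw [map_add, add_mul]
  exact (abs_add_le _ _).trans (add_le_add (hC k) (hD k))

theorem Sm.neg {M : ℕ} {f : ℝ⟦X⟧} (hf : Sm t M f) : Sm t M (-f) := by
  obtain ⟨C, hC⟩ := hf
  refine ⟨C, fun k => ?_⟩
  rw [map_neg, abs_neg]
  exact hC k

theorem Sm.sub {M : ℕ} {f g : ℝ⟦X⟧} (hf : Sm t M f) (hg : Sm t M g) : Sm t M (f - g) := by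
  rw [sub_eq_add_neg]
  exact hf.add hg.neg

theorem Sm.zero (M : ℕ) : Sm t M 0 :=
  ⟨0, fun k => by rw [map_zero, abs_zero, zero_mul]⟩

theorem Sm.C_mul {M : ℕ} {f : ℝ⟦X⟧} (hf : Sm t M f) (a : ℝ) : Sm t M (C a * f) := by
  obtain ⟨C', hC⟩ := hf
  refine ⟨|a| * C', fun k => ?_⟩
  rw [coeff_C_mul, abs_mul, mul_assoc]
  exact mul_le_mul_of_nonneg_left (hC k) (abs_nonneg _)

theorem Rapid.step (h : Rapid t) : ∃ c : ℝ, 0 < c ∧ ∀ k, t k ≤ c * t (k + 1) := by
  obtain ⟨c, hc, hg⟩ := h.grow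
  refine ⟨1 / c, by positivity, fun k => ?_⟩
  have h1 := hg k
  have h2 : c * t k ≤ c * (k + 1) * t k := by
    have h3 : (0 : ℝ) ≤ k := Nat.cast_nonneg k
    have h4 := h.pos k
    nlinarith [mul_pos hc h4]
  rw [div_mul_eq_mul_div, one_mul, le_div_iff₀ hc]
  linarith

theorem Sm.C_nonneg {M : ℕ} {f : ℝ⟦X⟧} (h : Rapid t) (hf : Sm t M f) :
    ∃ C : ℝ, 0 ≤ C ∧ ∀ k, |coeff (k + M) f| ≤ C * t k := by
  obtain ⟨C, hC⟩ := hf
  refine ⟨|C|, abs_nonneg _, fun k => (hC k).trans ?_⟩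
  exact mul_le_mul_of_nonneg_right (le_abs_self _) (h.pos k).le

theorem Sm.X_mul {M : ℕ} {f : ℝ⟦X⟧} (h : Rapid t) (hf : Sm t M f) : Sm t M (X * f) := by
  obtain ⟨C, hC0, hC⟩ := hf.C_nonneg h
  obtain ⟨c, hc, hs⟩ := h.step
  refine ⟨C * c + |coeff M (X * f)| / t 0, fun k => ?_⟩
  rcases k with _ | k
  · rw [zero_add, add_mul, div_mul_cancel₀ _ (h.pos 0).ne']
    have := h.pos 0
    have h2 : 0 ≤ C * c * t 0 := by positivity
    linarith
  · rw [show k + 1 + M = (k + M) + 1 by ring, mul_comm X f, coeff_succ_mul_X, add_mul]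
    have h0 := h.pos 0
    have hk := h.pos (k + 1)
    have h2 : 0 ≤ |coeff M (f * X)| / t 0 * t (k + 1) := by positivity
    have h3 : C * t k ≤ C * c * t (k + 1) := by
      rw [mul_assoc]
      exact mul_le_mul_of_nonneg_left (hs k) hC0
    linarith [hC k]

theorem Sm.X_pow_mul {M : ℕ} {f : ℝ⟦X⟧} (h : Rapid t) (hf : Sm t M f) (n : ℕ) :
    Sm t M (X ^ n * f) := by
  induction n with
  | zero => rwa [pow_zero, one_mul]
  | succ n ih =>
    rw [pow_succ', mul_assoc]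
    exact ih.X_mul h

theorem Sm.poly_mul {M : ℕ} {f : ℝ⟦X⟧} (h : Rapid t) (hf : Sm t M f) (p : Polynomial ℝ) :
    Sm t M ((p : ℝ⟦X⟧) * f) := by
  induction p using Polynomial.induction_on' with
  | add p q hp hq =>
    rw [Polynomial.coe_add, add_mul]
    exact hp.add hq
  | monomial n a =>
    rw [Polynomial.coe_monomial, monomial_eq_C_mul_X_pow, mul_assoc]
    exact (hf.X_pow_mul h n).C_mul a

theorem Sm.poly (h : Rapid t) (M : ℕ) (p : Polynomial ℝ) : Sm t M (p : ℝ⟦X⟧) := by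
  refine ⟨∑ i ∈ range (p.natDegree + 1), |p.coeff (i + M)| / t i, fun k => ?_⟩
  rw [Polynomial.coeff_coe]
  rcases lt_or_ge k (p.natDegree + 1) with hk | hk
  · have h1 : |p.coeff (k + M)| / t k ≤
        ∑ i ∈ range (p.natDegree + 1), |p.coeff (i + M)| / t i :=
      single_le_sum (f := fun i => |p.coeff (i + M)| / t i)
        (fun i _ => div_nonneg (abs_nonneg _) (h.pos i).le) (mem_range.mpr hk)
    calc |p.coeff (k + M)| = |p.coeff (k + M)| / t k * t k :=
          (div_mul_cancel₀ _ (h.pos k).ne').symm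
      _ ≤ _ := mul_le_mul_of_nonneg_right h1 (h.pos k).le
  · rw [Polynomial.coeff_eq_zero_of_natDegree_lt (by omega), abs_zero]
    exact mul_nonneg (sum_nonneg fun i _ => div_nonneg (abs_nonneg _) (h.pos i).le) (h.pos k).le

theorem Sm.shift {f : ℝ⟦X⟧} (hf : Sm t 0 f) (M : ℕ) : Sm t M (X ^ M * f) := by
  obtain ⟨C, hC⟩ := hf
  refine ⟨C, fun k => ?_⟩
  rw [coeff_X_pow_mul]
  exact hC k

theorem Sm.T (ω : ℝ) (hω : |ω| ≤ 1) (h : Rapid t) : Sm t 0 (T t ω) := by
  refine ⟨1, fun k => ?_⟩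
  rw [add_zero, CS.T, coeff_mk, abs_mul, abs_of_pos (h.pos k), abs_pow]
  exact mul_le_mul_of_nonneg_right (pow_le_one₀ (abs_nonneg _) hω) (h.pos k).le

/-- logarithmic convexity -/
theorem Rapid.convex (h : Rapid t) {a b : ℕ} (hab : a ≤ b) (d : ℕ) :
    t (a + d) * t b ≤ t a * t (b + d) := by
  -- the ratios increase
  have hr : ∀ i j : ℕ, i ≤ j → t (i + 1) * t j ≤ t i * t (j + 1) := by
    intro i j hij
    obtain ⟨e, rfl⟩ := Nat.exists_eq_add_of_le hij
    induction e with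
    | zero => rw [add_zero, mul_comm]
    | succ e ih =>
      have h1 := ih (by omega)
      have h2 := h.conv (i + e)
      have p1 := h.pos (i + e)
      have p2 := h.pos i
      have p3 := h.pos (i + e + 1)
      have p4 := h.pos (i + 1)
      have p5 := h.pos (i + e + 2)
      have e1 : i + (e + 1) = i + e + 1 := by ring
      have e2 : i + (e + 1) + 1 = i + e + 2 := by ring
      rw [e2, e1]
      -- t (i+1) * t (i+e) ≤ t i * t (i+e+1);  t(i+e+1)^2 ≤ t(i+e) t(i+e+2)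
      have h3 : t (i + 1) * t (i + e + 1) * (t (i + e) * t (i + e + 1)) ≤
          t i * t (i + e + 2) * (t (i + e) * t (i + e + 1)) := by
        calc t (i + 1) * t (i + e + 1) * (t (i + e) * t (i + e + 1)) =
            (t (i + 1) * t (i + e)) * (t (i + e + 1) * t (i + e + 1)) := by ring
          _ ≤ (t i * t (i + e + 1)) * (t (i + e) * t (i + e + 2)) :=
            mul_le_mul h1 h2 (mul_pos p3 p3).le (mul_pos p2 p3).le
          _ = _ := by ring
      exact le_of_mul_le_mul_right h3 (mul_pos p1 p3)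
  induction d with
  | zero => rw [add_zero, add_zero]
  | succ d ih =>
    have h1 := hr (a + d) (b + d) (by omega)
    have p1 := h.pos (a + d)
    have p2 := h.pos (b + d)
    have p3 := h.pos b
    have p4 := h.pos a
    have p5 := h.pos (b + d + 1)
    rw [← add_assoc, ← add_assoc]
    have h3 : t (a + d + 1) * t b * (t (a + d) * t (b + d)) ≤
        t a * t (b + d + 1) * (t (a + d) * t (b + d)) := by
      calc t (a + d + 1) * t b * (t (a + d) * t (b + d)) =
          (t (a + d + 1) * t (b + d)) * (t (a + d) * t b) := by ring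
        _ ≤ (t (a + d) * t (b + d + 1)) * (t a * t (b + d)) :=
          mul_le_mul h1 ih (mul_pos p1 p3).le (mul_pos p1 p5).le
        _ = _ := by ring
    exact le_of_mul_le_mul_right h3 (mul_pos p1 p2)

/-- the product of two series which begin with `h^M` -/
theorem Sm.mul_high (h : Rapid t) {M : ℕ} {f g : ℝ⟦X⟧} (hf : Sm t 0 f) (hg : Sm t 0 g)
    (hf0 : ∀ i < M, coeff i f = 0) (hg0 : ∀ i < M, coeff i g = 0) : Sm t M (f * g) := by
  obtain ⟨C, hC0, hC⟩ := hf.C_nonneg h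
  obtain ⟨D, hD0, hD⟩ := hg.C_nonneg h
  obtain ⟨c, hc, hgr⟩ := h.grow
  refine ⟨C * D * (2 * t M + (M + 2) * t (M + 1) / c), fun k => ?_⟩
  rw [coeff_mul]
  have hA : 0 ≤ C * D := mul_nonneg hC0 hD0
  have pk := h.pos k
  have pM := h.pos M
  have pM1 := h.pos (M + 1)
  -- bound of a single term
  set B : ℝ := if k = 0 then 0 else t (M + 1) * t (k - 1) with hB
  have hB0 : 0 ≤ B := by
    rw [hB]
    split_ifs
    · exact le_rfl
    · exact (mul_pos pM1 (h.pos _)).le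
  have hterm : ∀ x ∈ antidiagonal (k + M), |coeff x.1 f * coeff x.2 g| ≤
      (if x = (M, k) then C * D * (t M * t k) else 0) +
      (if x = (k, M) then C * D * (t M * t k) else 0) + C * D * B := by
    rintro ⟨i, j⟩ hx
    rw [HasAntidiagonal.mem_antidiagonal] at hx
    simp only at hx ⊢
    have n1 : 0 ≤ (if (i, j) = (M, k) then C * D * (t M * t k) else 0) := by
      split_ifs
      · positivity
      · exact le_rfl
    have n2 : 0 ≤ (if (i, j) = (k, M) then C * D * (t M * t k) else 0) := by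
      split_ifs
      · positivity
      · exact le_rfl
    have n3 : 0 ≤ C * D * B := mul_nonneg hA hB0
    by_cases h1 : i < M
    · rw [hf0 i h1, zero_mul, abs_zero]
      positivity
    by_cases h2 : j < M
    · rw [hg0 j h2, mul_zero, abs_zero]
      positivity
    push Not at h1 h2
    have h3 : |coeff i f * coeff j g| ≤ C * D * (t i * t j) := by
      rw [abs_mul]
      calc |coeff i f| * |coeff j g| ≤ (C * t i) * (D * t j) :=
            mul_le_mul (hC i) (hD j) (abs_nonneg _) (mul_nonneg hC0 (h.pos i).le)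
        _ = _ := by ring
    by_cases h4 : i = M
    · have h6 : j = k := by omega
      subst h4 h6
      rw [if_pos rfl]
      linarith
    by_cases h5 : j = M
    · have h7 : i = k := by omega
      subst h5 h7
      rw [if_pos (rfl : (i, j) = (i, j))]
      rw [mul_comm (t i)] at h3
      linarith
    · have h6 : k ≠ 0 := by omega
      have h7 : B = t (M + 1) * t (k - 1) := by rw [hB, if_neg h6]
      have h8 : t i * t j ≤ t (M + 1) * t (k - 1) := by
        have h9 := h.convex (a := M + 1) (b := j) (by omega) (i - (M + 1))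
        rw [show M + 1 + (i - (M + 1)) = i by omega, show j + (i - (M + 1)) = k - 1 by omega] at h9
        exact h9
      have h9 : C * D * (t i * t j) ≤ C * D * B := by
        rw [h7]
        exact mul_le_mul_of_nonneg_left h8 hA
      linarith
  refine (abs_sum_le_sum_abs _ _).trans ((sum_le_sum hterm).trans ?_)
  rw [sum_add_distrib, sum_add_distrib, sum_const, Nat.card_antidiagonal, nsmul_eq_mul]
  have s1 : ∑ x ∈ antidiagonal (k + M), (if x = (M, k) then C * D * (t M * t k) else 0) ≤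
      C * D * (t M * t k) := by
    rw [sum_ite_eq']
    split_ifs
    · exact le_rfl
    · positivity
  have s2 : ∑ x ∈ antidiagonal (k + M), (if x = (k, M) then C * D * (t M * t k) else 0) ≤
      C * D * (t M * t k) := by
    rw [sum_ite_eq']
    split_ifs
    · exact le_rfl
    · positivity
  have s3 : ((k + M + 1 : ℕ) : ℝ) * (C * D * B) ≤ C * D * ((M + 2) * t (M + 1) / c * t k) := by
    rcases Nat.eq_zero_or_pos k with h1 | h1
    · rw [hB, if_pos h1, mul_zero, mul_zero]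
      positivity
    · have h2 := hgr (k - 1)
      have h3 : k - 1 + 1 = k := by omega
      have h4 : ((k - 1 : ℕ) : ℝ) + 1 = k := by
        exact_mod_cast congrArg (Nat.cast : ℕ → ℝ) h3
      rw [h3, h4] at h2
      have h5 : B = t (M + 1) * t (k - 1) := by rw [hB, if_neg (by omega)]
      have h6 : ((k + M + 1 : ℕ) : ℝ) ≤ (M + 2) * k := by
        have h7 : (1 : ℝ) ≤ k := by exact_mod_cast h1
        have h8 : (0 : ℝ) ≤ M := Nat.cast_nonneg M
        push_cast
        nlinarith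
      have p1 := h.pos (k - 1)
      calc ((k + M + 1 : ℕ) : ℝ) * (C * D * B) ≤ ((M + 2) * k) * (C * D * B) :=
            mul_le_mul_of_nonneg_right h6 (mul_nonneg hA hB0)
        _ = C * D * ((M + 2) * t (M + 1) / c * (c * k * t (k - 1))) := by
            rw [h5]
            field_simp
        _ ≤ C * D * ((M + 2) * t (M + 1) / c * t k) := by
            apply mul_le_mul_of_nonneg_left _ hA
            apply mul_le_mul_of_nonneg_left h2
            positivity
  calc _ ≤ C * D * (t M * t k) + C * D * (t M * t k) +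
        C * D * ((M + 2) * t (M + 1) / c * t k) := add_le_add (add_le_add s1 s2) s3
    _ = _ := by ring

theorem trunc_sub_coeff (M : ℕ) (f : ℝ⟦X⟧) (i : ℕ) (hi : i < M) :
    coeff i (f - (trunc M f : ℝ⟦X⟧)) = 0 := by
  rw [map_sub, Polynomial.coeff_coe, coeff_trunc, if_pos hi, sub_self]

theorem Sm.of_le {f : ℝ⟦X⟧} (hf : Sm t 0 f) (h : Rapid t) (M : ℕ) :
    Sm t 0 (f - (trunc M f : ℝ⟦X⟧)) := hf.sub (Sm.poly h 0 _)

/-- the product, up to terms of size `t_(k - M)` -/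
theorem Sm.mul_mid (h : Rapid t) {f g : ℝ⟦X⟧} (hf : Sm t 0 f) (hg : Sm t 0 g) (M : ℕ) :
    Sm t M (f * g - (trunc M f : ℝ⟦X⟧) * g - (trunc M g : ℝ⟦X⟧) * f) := by
  have h1 : f * g - (trunc M f : ℝ⟦X⟧) * g - (trunc M g : ℝ⟦X⟧) * f =
      (f - (trunc M f : ℝ⟦X⟧)) * (g - (trunc M g : ℝ⟦X⟧)) -
        ((trunc M f * trunc M g : Polynomial ℝ) : ℝ⟦X⟧) := by
    rw [Polynomial.coe_mul]
    ring
  rw [h1]
  exact (Sm.mul_high h (hf.of_le h M) (hg.of_le h M) (trunc_sub_coeff M f)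
    (trunc_sub_coeff M g)).sub (Sm.poly h M _)

theorem Sm.mul_zero (h : Rapid t) {f g : ℝ⟦X⟧} (hf : Sm t 0 f) (hg : Sm t 0 g) :
    Sm t 0 (f * g) := by
  exact Sm.mul_high h hf hg (fun i hi => absurd hi (Nat.not_lt_zero i))
    (fun i hi => absurd hi (Nat.not_lt_zero i))

/-- polynomials which begin with `h^M`, times `T` -/
theorem Sm.poly_high (h : Rapid t) {f : ℝ⟦X⟧} (hf : Sm t 0 f) {M : ℕ} {p : Polynomial ℝ}
    (hp : ∀ d < M, p.coeff d = 0) : Sm t M ((p : ℝ⟦X⟧) * f) := by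
  obtain ⟨q, rfl⟩ := Polynomial.X_pow_dvd_iff.mpr hp
  rw [Polynomial.coe_mul, Polynomial.coe_pow, Polynomial.coe_X, mul_assoc]
  exact (hf.poly_mul h q).shift M

theorem As.small {ω : ℝ} {f δ ε : ℝ⟦X⟧} (hf : As t ω f δ ε) : Sm t 0 f := by
  have := hf 0
  simpa using this

theorem trunc_mul_trunc_coeff (f δ : ℝ⟦X⟧) (M d : ℕ) (hd : d < M) :
    (trunc M f * trunc M δ - trunc M (f * δ)).coeff d = 0 := by
  rw [Polynomial.coeff_sub, Polynomial.coeff_mul, coeff_trunc, if_pos hd, coeff_mul, sub_eq_zero]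
  apply sum_congr rfl
  rintro ⟨i, j⟩ hij
  rw [HasAntidiagonal.mem_antidiagonal] at hij
  simp only at hij ⊢
  rw [coeff_trunc, coeff_trunc, if_pos (by omega), if_pos (by omega)]

theorem As.add {ω : ℝ} {f δ ε f' δ' ε' : ℝ⟦X⟧} (hf : As t ω f δ ε) (hf' : As t ω f' δ' ε') :
    As t ω (f + f') (δ + δ') (ε + ε') := by
  intro M
  have h1 : f + f' - (trunc M (δ + δ') : ℝ⟦X⟧) * T t ω - (trunc M (ε + ε') : ℝ⟦X⟧) * T t (-ω) =
      (f - (trunc M δ : ℝ⟦X⟧) * T t ω - (trunc M ε : ℝ⟦X⟧) * T t (-ω)) +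
      (f' - (trunc M δ' : ℝ⟦X⟧) * T t ω - (trunc M ε' : ℝ⟦X⟧) * T t (-ω)) := by
    rw [map_add, map_add, Polynomial.coe_add, Polynomial.coe_add]
    ring
  rw [h1]
  exact (hf M).add (hf' M)

theorem As.mul (h : Rapid t) {ω : ℝ} (hω : |ω| ≤ 1) {f δ ε g δ' ε' : ℝ⟦X⟧}
    (hf : As t ω f δ ε) (hg : As t ω g δ' ε') :
    As t ω (f * g) (f * δ' + g * δ) (f * ε' + g * ε) := by
  intro M
  have hω' : |-ω| ≤ 1 := by rwa [abs_neg]
  have key : f * g - (trunc M (f * δ' + g * δ) : ℝ⟦X⟧) * T t ω -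
      (trunc M (f * ε' + g * ε) : ℝ⟦X⟧) * T t (-ω) =
      (f * g - (trunc M f : ℝ⟦X⟧) * g - (trunc M g : ℝ⟦X⟧) * f) +
      (trunc M f : ℝ⟦X⟧) * (g - (trunc M δ' : ℝ⟦X⟧) * T t ω - (trunc M ε' : ℝ⟦X⟧) * T t (-ω)) +
      (trunc M g : ℝ⟦X⟧) * (f - (trunc M δ : ℝ⟦X⟧) * T t ω - (trunc M ε : ℝ⟦X⟧) * T t (-ω)) +
      (((trunc M f * trunc M δ' - trunc M (f * δ') : Polynomial ℝ) : ℝ⟦X⟧) * T t ω +
      ((trunc M f * trunc M ε' - trunc M (f * ε') : Polynomial ℝ) : ℝ⟦X⟧) * T t (-ω) +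
      ((trunc M g * trunc M δ - trunc M (g * δ) : Polynomial ℝ) : ℝ⟦X⟧) * T t ω +
      ((trunc M g * trunc M ε - trunc M (g * ε) : Polynomial ℝ) : ℝ⟦X⟧) * T t (-ω)) := by
    simp only [map_add, Polynomial.coe_add, Polynomial.coe_sub, Polynomial.coe_mul]
    ring
  rw [key]
  refine (((Sm.mul_mid h hf.small hg.small M).add ((hg M).poly_mul h _)).add
    ((hf M).poly_mul h _)).add (Sm.add (Sm.add (Sm.add ?_ ?_) ?_) ?_)
  · exact Sm.poly_high h (Sm.T ω hω h) (trunc_mul_trunc_coeff _ _ M)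
  · exact Sm.poly_high h (Sm.T (-ω) hω' h) (trunc_mul_trunc_coeff _ _ M)
  · exact Sm.poly_high h (Sm.T ω hω h) (trunc_mul_trunc_coeff _ _ M)
  · exact Sm.poly_high h (Sm.T (-ω) hω' h) (trunc_mul_trunc_coeff _ _ M)

theorem As.of_poly (h : Rapid t) (ω : ℝ) (p : Polynomial ℝ) : As t ω (p : ℝ⟦X⟧) 0 0 := by
  intro M
  simpa using Sm.poly h M p

theorem As.C_mul {ω : ℝ} {f δ ε : ℝ⟦X⟧} (hf : As t ω f δ ε) (a : ℝ) :
    As t ω (C a * f) (C a * δ) (C a * ε) := by
  intro M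
  have e : ∀ g : ℝ⟦X⟧, (trunc M (C a * g) : ℝ⟦X⟧) = C a * (trunc M g : ℝ⟦X⟧) := by
    intro g
    ext n
    rw [Polynomial.coeff_coe, coeff_trunc, coeff_C_mul, coeff_C_mul, Polynomial.coeff_coe,
      coeff_trunc]
    split_ifs
    · rfl
    · rw [mul_zero]
  have h1 : C a * f - (trunc M (C a * δ) : ℝ⟦X⟧) * T t ω - (trunc M (C a * ε) : ℝ⟦X⟧) * T t (-ω) =
      C a * (f - (trunc M δ : ℝ⟦X⟧) * T t ω - (trunc M ε : ℝ⟦X⟧) * T t (-ω)) := by
    rw [e, e]
    ring
  rw [h1]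
  exact (hf M).C_mul a

/-- the coefficient series are unique -/
theorem As.unique (h : Rapid t) {ω : ℝ} (hω : ω = 1 ∨ ω = -1) {δ ε : ℝ⟦X⟧}
    (hf : As t ω 0 δ ε) : δ = 0 ∧ ε = 0 := by
  have hω2 : ω * ω = 1 := by rcases hω with rfl | rfl <;> norm_num
  have hkey : ∀ m : ℕ, coeff m δ = 0 ∧ coeff m ε = 0 := by
    intro m
    induction m using Nat.strong_induction_on with
    | _ m ih =>
    obtain ⟨C, hC0, hC⟩ := (hf (m + 1)).C_nonneg h
    obtain ⟨c, hc, hg⟩ := h.grow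
    have htr : ∀ g : ℝ⟦X⟧, (∀ i < m, coeff i g = 0) → (trunc (m + 1) g : ℝ⟦X⟧) =
        PowerSeries.C (coeff m g) * X ^ m := by
      intro g hg'
      ext i
      rw [Polynomial.coeff_coe, coeff_trunc, coeff_C_mul, coeff_X_pow]
      rcases lt_trichotomy i m with h1 | h1 | h1
      · rw [if_pos (by omega), if_neg (by omega), hg' i h1, MulZeroClass.mul_zero]
      · rw [if_pos (by omega), if_pos h1, mul_one, h1]
      · rw [if_neg (by omega), if_neg (by omega), MulZeroClass.mul_zero]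
    have h1 : ∀ k : ℕ, |(coeff m δ * ω ^ (k + 1) + coeff m ε * (-ω) ^ (k + 1)) * t (k + 1)| ≤
        C * t k := by
      intro k
      have h2 := hC k
      rw [htr δ (fun i hi => (ih i hi).1), htr ε (fun i hi => (ih i hi).2)] at h2
      have h3 : coeff (k + (m + 1)) (0 - PowerSeries.C (coeff m δ) * X ^ m * T t ω -
          PowerSeries.C (coeff m ε) * X ^ m * T t (-ω)) =
          -((coeff m δ * ω ^ (k + 1) + coeff m ε * (-ω) ^ (k + 1)) * t (k + 1)) := by
        rw [zero_sub, map_sub, map_neg, mul_assoc, mul_assoc, coeff_C_mul, coeff_C_mul,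
          show k + (m + 1) = (k + 1) + m by ring, coeff_X_pow_mul, coeff_X_pow_mul, T, T,
          coeff_mk, coeff_mk]
        ring
      rw [h3, abs_neg] at h2
      exact h2
    -- so the bracket tends to zero
    have h2 : ∀ k : ℕ, |coeff m δ * ω ^ (k + 1) + coeff m ε * (-ω) ^ (k + 1)| * (c * (k + 1)) ≤
        C := by
      intro k
      have h3 := h1 k
      have pk := h.pos k
      rw [abs_mul, abs_of_pos (h.pos (k + 1))] at h3
      have h4 : |coeff m δ * ω ^ (k + 1) + coeff m ε * (-ω) ^ (k + 1)| * (c * (k + 1)) * t k ≤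
          C * t k := by
        calc _ = |coeff m δ * ω ^ (k + 1) + coeff m ε * (-ω) ^ (k + 1)| *
              (c * (k + 1) * t k) := by ring
          _ ≤ |coeff m δ * ω ^ (k + 1) + coeff m ε * (-ω) ^ (k + 1)| * t (k + 1) :=
            mul_le_mul_of_nonneg_left (hg k) (abs_nonneg _)
          _ ≤ _ := h3
      exact le_of_mul_le_mul_right h4 pk
    have hz : ∀ x : ℝ, (∀ N : ℕ, ∃ k : ℕ, N ≤ k ∧
        |coeff m δ * ω ^ (k + 1) + coeff m ε * (-ω) ^ (k + 1)| = |x|) → x = 0 := by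
      intro x hx
      by_contra hne
      have hx0 : 0 < |x| := abs_pos.mpr hne
      obtain ⟨N, hN⟩ := exists_nat_gt (C / (|x| * c))
      obtain ⟨k, hk, hkx⟩ := hx N
      have h3 := h2 k
      rw [hkx] at h3
      rw [div_lt_iff₀ (by positivity)] at hN
      have h4 : (N : ℝ) ≤ k := by exact_mod_cast hk
      have h5 : (N : ℝ) * (|x| * c) ≤ k * (|x| * c) :=
        mul_le_mul_of_nonneg_right h4 (by positivity)
      nlinarith [mul_pos hx0 hc]
    have he : ∀ k : ℕ, ω ^ (2 * k) = 1 := by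
      intro k
      rw [pow_mul, pow_two, hω2, one_pow]
    have ha : coeff m δ + coeff m ε = 0 := by
      apply hz
      intro N
      refine ⟨2 * N + 1, by omega, ?_⟩
      rw [show 2 * N + 1 + 1 = 2 * (N + 1) by ring, he, (even_two_mul (N + 1)).neg_pow, he,
        mul_one, mul_one]
    have hb : coeff m δ - coeff m ε = 0 := by
      apply hz
      intro N
      refine ⟨2 * N, by omega, ?_⟩
      rw [Odd.neg_pow ⟨N, rfl⟩, pow_succ, he, one_mul, mul_neg, ← sub_eq_add_neg, ← sub_mul,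
        abs_mul]
      have : |ω| = 1 := by rcases hω with rfl | rfl <;> norm_num
      rw [this, mul_one]
    constructor <;> linarith
  constructor
  · ext m
    rw [(hkey m).1, map_zero]
  · ext m
    rw [(hkey m).2, map_zero]

end

end Pool.Agent.H765.CS
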