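import Mathlib
import Pool.Agent.H765.CS.Asym

/-! Multiplicative independence by means of the derivation `D`. -/

namespace Pool.Agent.H765.CS

open PowerSeries Finset

noncomputable section

variable {t : ℕ → ℝ}

/-- `δ` is the first asymptotic series of `f` -/
def Dv (t : ℕ → ℝ) (ω : ℝ) (f δ : ℝ⟦X⟧) : Prop := ∃ ε, As t ω f δ ε

theorem Dv.add {ω : ℝ} {f δ g δ' : ℝ⟦X⟧} (hf : Dv t ω f δ) (hg : Dv t ω g δ') :
    Dv t ω (f + g) (δ + δ') := by
  obtain ⟨ε, hf⟩ := hf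
  obtain ⟨ε', hg⟩ := hg
  exact ⟨_, hf.add hg⟩

theorem Dv.mul (h : Rapid t) {ω : ℝ} (hω : ω = 1 ∨ ω = -1) {f δ g δ' : ℝ⟦X⟧}
    (hf : Dv t ω f δ) (hg : Dv t ω g δ') : Dv t ω (f * g) (f * δ' + g * δ) := by
  obtain ⟨ε, hf⟩ := hf
  obtain ⟨ε', hg⟩ := hg
  exact ⟨_, hf.mul h (by rcases hω with rfl | rfl <;> norm_num) hg⟩

theorem Dv.C_mul {ω : ℝ} {f δ : ℝ⟦X⟧} (hf : Dv t ω f δ) (a : ℝ) :
    Dv t ω (C a * f) (C a * δ) := by
  obtain ⟨ε, hf⟩ := hf
  exact ⟨_, hf.C_mul a⟩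

theorem Dv.unique (h : Rapid t) {ω : ℝ} (hω : ω = 1 ∨ ω = -1) {δ : ℝ⟦X⟧} (hf : Dv t ω 0 δ) :
    δ = 0 := by
  obtain ⟨ε, hf⟩ := hf
  exact (hf.unique h hω).1

theorem Dv.of_poly (h : Rapid t) (ω : ℝ) (p : Polynomial ℝ) : Dv t ω (p : ℝ⟦X⟧) 0 :=
  ⟨0, As.of_poly h ω p⟩

theorem Dv.zero (h : Rapid t) (ω : ℝ) : Dv t ω 0 0 := by
  simpa using Dv.of_poly h ω 0

theorem Dv.one (h : Rapid t) (ω : ℝ) : Dv t ω 1 0 := by
  simpa using Dv.of_poly h ω 1

theorem Dv.neg {ω : ℝ} {f δ : ℝ⟦X⟧} (hf : Dv t ω f δ) : Dv t ω (-f) (-δ) := by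
  have := hf.C_mul (-1)
  simpa using this

theorem Dv.sub {ω : ℝ} {f δ g δ' : ℝ⟦X⟧} (hf : Dv t ω f δ) (hg : Dv t ω g δ') :
    Dv t ω (f - g) (δ - δ') := by
  rw [sub_eq_add_neg, sub_eq_add_neg]
  exact hf.add hg.neg

theorem Dv.prod (h : Rapid t) {ω : ℝ} (hω : ω = 1 ∨ ω = -1) {ι : Type*} (s : Finset ι)
    (f x : ι → ℝ⟦X⟧) (hf : ∀ i ∈ s, Dv t ω (f i) (f i * x i)) :
    Dv t ω (∏ i ∈ s, f i) ((∏ i ∈ s, f i) * ∑ i ∈ s, x i) := by
  classical
  induction s using Finset.induction_on with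
  | empty => simpa using Dv.one h ω
  | insert a s ha ih =>
    rw [prod_insert ha, sum_insert ha]
    have h1 := (hf a (mem_insert_self a s)).mul h hω
      (ih fun i hi => hf i (mem_insert_of_mem hi))
    convert h1 using 1
    ring

theorem Dv.pow (h : Rapid t) {ω : ℝ} (hω : ω = 1 ∨ ω = -1) {f x : ℝ⟦X⟧}
    (hf : Dv t ω f (f * x)) (n : ℕ) : Dv t ω (f ^ n) (f ^ n * (C (n : ℝ) * x)) := by
  induction n with
  | zero => simpa using Dv.one h ω
  | succ n ih =>
    rw [pow_succ]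
    have h1 := ih.mul h hω hf
    convert h1 using 1
    have e : (C ((n + 1 : ℕ) : ℝ) : ℝ⟦X⟧) = C (n : ℝ) + 1 := by
      push_cast
      rw [map_add, map_one]
    rw [e]
    ring

theorem Dv.sum (h : Rapid t) {ω : ℝ} {ι : Type*} (s : Finset ι)
    (f x : ι → ℝ⟦X⟧) (hf : ∀ i ∈ s, Dv t ω (f i) (x i)) :
    Dv t ω (∑ i ∈ s, f i) (∑ i ∈ s, x i) := by
  classical
  induction s using Finset.induction_on with
  | empty => simpa using Dv.zero h ω
  | insert a s ha ih =>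
    rw [sum_insert ha, sum_insert ha]
    exact (hf a (mem_insert_self a s)).add (ih fun i hi => hf i (mem_insert_of_mem hi))

/-- vanishing power sums -/
theorem power_sums {R ι : Type*} [CommRing R] [IsDomain R] [DecidableEq ι] (s : Finset ι)
    (c y : ι → R) (h : ∀ k : ℕ, ∑ i ∈ s, c i * y i ^ (k + 1) = 0) {i : ι} (hi : i ∈ s)
    (h0 : y i ≠ 0) (hne : ∀ j ∈ s, j ≠ i → y i ≠ y j) : c i = 0 := by
  set q : Polynomial R := ∏ j ∈ s.erase i, (Polynomial.X - Polynomial.C (y j)) with hq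
  have h1 : ∑ l ∈ s, c l * (y l * q.eval (y l)) = 0 := by
    have h2 : ∀ l ∈ s, c l * (y l * q.eval (y l)) =
        ∑ k ∈ range (q.natDegree + 1), q.coeff k * (c l * y l ^ (k + 1)) := by
      intro l _
      rw [Polynomial.eval_eq_sum_range, mul_sum, mul_sum]
      apply sum_congr rfl
      intro k _
      ring
    rw [sum_congr rfl h2, sum_comm]
    apply sum_eq_zero
    intro k _
    rw [← mul_sum, h k, MulZeroClass.mul_zero]
  rw [sum_eq_single i] at h1
  · rcases mul_eq_zero.mp h1 with h2 | h2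
    · exact h2
    · exfalso
      rcases mul_eq_zero.mp h2 with h3 | h3
      · exact h0 h3
      · rw [hq, Polynomial.eval_prod, prod_eq_zero_iff] at h3
        obtain ⟨j, hj, h4⟩ := h3
        rw [Polynomial.eval_sub, Polynomial.eval_X, Polynomial.eval_C, sub_eq_zero] at h4
        exact hne j (mem_of_mem_erase hj) (ne_of_mem_erase hj) h4
  · intro j hj hji
    have : q.eval (y j) = 0 := by
      rw [hq, Polynomial.eval_prod]
      apply prod_eq_zero (mem_erase.mpr ⟨hji, hj⟩)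
      rw [Polynomial.eval_sub, Polynomial.eval_X, Polynomial.eval_C, sub_self]
    rw [this, MulZeroClass.mul_zero, MulZeroClass.mul_zero]
  · intro h2
    exact absurd hi h2

theorem elim (h : Rapid t) {ω : ℝ} (hω : ω = 1 ∨ ω = -1) {ι : Type*} [DecidableEq ι]
    (s : Finset ι) (σ A : ι → ℝ⟦X⟧) (hσ : ∀ i ∈ s, Dv t ω (σ i) (A i))
    (hA : ∀ i ∈ s, Dv t ω (A i) 0) (hunit : ∀ i ∈ s, constantCoeff (σ i) ≠ 0)
    (m m' : ι → ℕ) {U V : ℝ⟦X⟧} (hU : Dv t ω U 0) (hV : Dv t ω V 0) (hne : U ≠ 0)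
    (rel : U * ∏ i ∈ s, σ i ^ m i = V * ∏ i ∈ s, σ i ^ m' i) {i : ι} (hi : i ∈ s)
    (hAi : A i ≠ 0) (hdist : ∀ j ∈ s, j ≠ i → A i * σ j ≠ A j * σ i) : m i = m' i := by
  set x : ι → ℝ⟦X⟧ := fun i => A i * (σ i)⁻¹ with hx
  have hxσ : ∀ i ∈ s, σ i * x i = A i := by
    intro i hi
    rw [hx]
    simp only
    rw [mul_left_comm, PowerSeries.mul_inv_cancel _ (hunit i hi), mul_one]
  have hσ' : ∀ i ∈ s, Dv t ω (σ i) (σ i * x i) := by
    intro i hi
    rw [hxσ i hi]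
    exact hσ i hi
  have hσne : ∀ i ∈ s, σ i ≠ 0 := by
    intro i hi h0
    apply hunit i hi
    rw [h0, map_zero]
  set P : ℝ⟦X⟧ := ∏ i ∈ s, σ i with hP
  have hPne : P ≠ 0 := prod_ne_zero_iff.mpr hσne
  set S : ℝ⟦X⟧ := ∑ i ∈ s, x i with hS
  set c : ι → ℝ := fun i => (m i : ℝ) - m' i with hc
  -- the first relation
  have hpw : ∀ e : ι → ℕ, Dv t ω (∏ i ∈ s, σ i ^ e i)
      ((∏ i ∈ s, σ i ^ e i) * ∑ i ∈ s, C (e i : ℝ) * x i) := fun e =>
    Dv.prod h hω s _ _ fun i hi => (hσ' i hi).pow h hω (e i)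
  have r1 : ∑ i ∈ s, C (c i) * x i = 0 := by
    have h1 := (hU.mul h hω (hpw m)).sub (hV.mul h hω (hpw m'))
    rw [rel, sub_self] at h1
    have h2 := h1.unique h hω
    rw [MulZeroClass.mul_zero, MulZeroClass.mul_zero, add_zero, add_zero, ← mul_assoc,
      ← mul_assoc, rel, ← mul_sub] at h2
    rcases mul_eq_zero.mp h2 with h3 | h3
    · exfalso
      rw [← rel] at h3
      rcases mul_eq_zero.mp h3 with h4 | h4
      · exact hne h4
      · obtain ⟨j, hj, h5⟩ := prod_eq_zero_iff.mp h4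
        exact pow_ne_zero _ (hσne j hj) h5
    · rw [← sum_sub_distrib] at h3
      rw [← h3]
      apply sum_congr rfl
      intro j _
      rw [hc]
      simp only
      rw [map_sub]
      ring
  set y : ι → ℝ⟦X⟧ := fun i => x i * P with hy
  have hyD : ∀ i ∈ s, Dv t ω (y i) (y i * (S - x i)) := by
    intro i hi
    have h1 : y i = A i * ∏ j ∈ s.erase i, σ j := by
      rw [hy]
      simp only
      rw [hP, ← mul_prod_erase s σ hi, ← mul_assoc, mul_comm (x i), hxσ i hi]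
    have h2 := (hA i hi).mul h hω
      (Dv.prod h hω (s.erase i) σ x fun j hj => hσ' j (mem_of_mem_erase hj))
    rw [h1]
    convert h2 using 1
    rw [hS, ← add_sum_erase s x hi]
    ring
  have hr : ∀ k : ℕ, ∑ i ∈ s, C (c i) * y i ^ (k + 1) = 0 := by
    intro k
    induction k with
    | zero =>
      have h1 : ∑ i ∈ s, C (c i) * y i ^ (0 + 1) = (∑ i ∈ s, C (c i) * x i) * P := by
        rw [sum_mul]
        apply sum_congr rfl
        intro i _
        rw [hy]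
        ring
      rw [h1, r1, zero_mul]
    | succ k ih =>
      have h1 : Dv t ω (∑ i ∈ s, C (c i) * y i ^ (k + 1))
          (∑ i ∈ s, C (c i) * (y i ^ (k + 1) * (C ((k + 1 : ℕ) : ℝ) * (S - x i)))) :=
        Dv.sum h s _ _ fun i hi => ((hyD i hi).pow h hω (k + 1)).C_mul (c i)
      rw [ih] at h1
      have h2 := h1.unique h hω
      have h3 : ∑ i ∈ s, C (c i) * (y i ^ (k + 1) * (C ((k + 1 : ℕ) : ℝ) * (S - x i))) =
          C ((k + 1 : ℕ) : ℝ) * (S * (∑ i ∈ s, C (c i) * y i ^ (k + 1)) -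
            ∑ i ∈ s, C (c i) * (y i ^ (k + 1) * x i)) := by
        rw [mul_sum, ← sum_sub_distrib, mul_sum]
        apply sum_congr rfl
        intro i _
        ring
      rw [h3, ih, MulZeroClass.mul_zero, zero_sub] at h2
      have h4 : ∑ i ∈ s, C (c i) * (y i ^ (k + 1) * x i) = 0 := by
        rcases mul_eq_zero.mp h2 with h5 | h5
        · exfalso
          have h6 := congrArg constantCoeff h5
          rw [constantCoeff_C, map_zero] at h6
          exact (Nat.cast_ne_zero.mpr (Nat.succ_ne_zero k)) h6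
        · exact neg_eq_zero.mp h5
      have h5 : ∑ i ∈ s, C (c i) * y i ^ (k + 1 + 1) =
          (∑ i ∈ s, C (c i) * (y i ^ (k + 1) * x i)) * P := by
        rw [sum_mul]
        apply sum_congr rfl
        intro i _
        rw [pow_succ (y i) (k + 1), mul_assoc (C (c i)), mul_assoc (y i ^ (k + 1))]
      rw [h5, h4, zero_mul]
  have hci := power_sums s (fun i => (C (c i) : ℝ⟦X⟧)) y hr hi ?_ ?_
  · have h1 := congrArg constantCoeff hci
    rw [constantCoeff_C, map_zero, hc] at h1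
    simp only at h1
    have h2 : (m i : ℝ) = m' i := by linarith
    exact_mod_cast h2
  · rw [hy]
    simp only
    refine mul_ne_zero ?_ hPne
    intro h0
    apply hAi
    rw [← hxσ i hi, h0, MulZeroClass.mul_zero]
  · intro j hj hji h1
    have h2 : x i = x j := mul_right_cancel₀ hPne h1
    apply hdist j hj hji
    rw [← hxσ i hi, ← hxσ j hj, h2]
    ring

end

end Pool.Agent.H765.CS
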