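import Mathlib

/-! Convergent power series. -/

namespace Pool.Agent.H765.CS

open PowerSeries Finset

noncomputable section

/-- absolute convergence at `ρ` -/
def W (ρ : ℝ) (f : ℝ⟦X⟧) : Prop := Summable fun n => |coeff n f| * ρ ^ n

/-- the value at `μ` -/
def ev (μ : ℝ) (f : ℝ⟦X⟧) : ℝ := ∑' n, coeff n f * μ ^ n

/-- the operator `w d/dw` -/
def th (f : ℝ⟦X⟧) : ℝ⟦X⟧ := PowerSeries.mk fun n => (n : ℝ) * coeff n f

theorem W.summable {ρ : ℝ} {f : ℝ⟦X⟧} (h : W ρ f) {μ : ℝ} (hμ : |μ| ≤ ρ) :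
    Summable fun n => ‖coeff n f * μ ^ n‖ := by
  refine Summable.of_nonneg_of_le (fun n => norm_nonneg _) (fun n => ?_) h
  rw [Real.norm_eq_abs, abs_mul, abs_pow]
  exact mul_le_mul_of_nonneg_left (pow_le_pow_left₀ (abs_nonneg _) hμ n) (abs_nonneg _)

theorem W.mono {ρ ρ' : ℝ} {f : ℝ⟦X⟧} (h : W ρ f) (h0 : 0 ≤ ρ') (hρ : ρ' ≤ ρ) : W ρ' f := by
  refine Summable.of_nonneg_of_le (fun n => by positivity) (fun n => ?_) h
  exact mul_le_mul_of_nonneg_left (pow_le_pow_left₀ h0 hρ n) (abs_nonneg _)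

theorem W.add {ρ : ℝ} (hρ : 0 ≤ ρ) {f g : ℝ⟦X⟧} (hf : W ρ f) (hg : W ρ g) : W ρ (f + g) := by
  refine Summable.of_nonneg_of_le (fun n => by positivity) (fun n => ?_) (Summable.add hf hg)
  rw [map_add, ← add_mul]
  exact mul_le_mul_of_nonneg_right (abs_add_le _ _) (by positivity)

theorem W.neg {ρ : ℝ} {f : ℝ⟦X⟧} (hf : W ρ f) : W ρ (-f) := by
  refine hf.congr ?_
  intro n
  rw [map_neg, abs_neg]

theorem W.sub {ρ : ℝ} (hρ : 0 ≤ ρ) {f g : ℝ⟦X⟧} (hf : W ρ f) (hg : W ρ g) : W ρ (f - g) := by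
  rw [sub_eq_add_neg]
  exact hf.add hρ hg.neg

theorem W.C_mul {ρ : ℝ} {f : ℝ⟦X⟧} (hf : W ρ f) (a : ℝ) : W ρ (C a * f) := by
  refine (hf.mul_left |a|).congr ?_
  intro n
  rw [coeff_C_mul, abs_mul, mul_assoc]

theorem W.poly (ρ : ℝ) (p : Polynomial ℝ) : W ρ (p : ℝ⟦X⟧) := by
  apply summable_of_ne_finset_zero (s := range (p.natDegree + 1))
  intro n hn
  rw [Finset.mem_range, not_lt] at hn
  rw [Polynomial.coeff_coe, Polynomial.coeff_eq_zero_of_natDegree_lt (by omega), abs_zero,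
    zero_mul]

theorem W.one (ρ : ℝ) : W ρ 1 := by simpa using W.poly ρ 1

theorem W.C (ρ a : ℝ) : W ρ (PowerSeries.C a) := by simpa using W.poly ρ (Polynomial.C a)

theorem W.X (ρ : ℝ) : W ρ PowerSeries.X := by simpa using W.poly ρ Polynomial.X

theorem coeff_mul_pow (f g : ℝ⟦X⟧) (μ : ℝ) (n : ℕ) : coeff n (f * g) * μ ^ n =
    ∑ x ∈ antidiagonal n, (coeff x.1 f * μ ^ x.1) * (coeff x.2 g * μ ^ x.2) := by
  rw [coeff_mul, sum_mul]
  apply sum_congr rfl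
  rintro ⟨i, j⟩ hx
  rw [HasAntidiagonal.mem_antidiagonal] at hx
  simp only at hx ⊢
  rw [← hx, pow_add]
  ring

theorem W.mul {ρ : ℝ} (hρ : 0 ≤ ρ) {f g : ℝ⟦X⟧} (hf : W ρ f) (hg : W ρ g) : W ρ (f * g) := by
  have h := summable_norm_sum_mul_antidiagonal_of_summable_norm
    (hf.summable (μ := ρ) (abs_of_nonneg hρ).le) (hg.summable (μ := ρ) (abs_of_nonneg hρ).le)
  refine h.congr ?_
  intro n
  rw [← coeff_mul_pow, Real.norm_eq_abs, abs_mul, abs_of_nonneg (pow_nonneg hρ n)]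

theorem W.pow {ρ : ℝ} (hρ : 0 ≤ ρ) {f : ℝ⟦X⟧} (hf : W ρ f) (n : ℕ) : W ρ (f ^ n) := by
  induction n with
  | zero => rw [pow_zero]; exact W.one ρ
  | succ n ih => rw [pow_succ]; exact ih.mul hρ hf

theorem W.prod {ρ : ℝ} (hρ : 0 ≤ ρ) {ι : Type*} (s : Finset ι) (f : ι → ℝ⟦X⟧)
    (hf : ∀ i ∈ s, W ρ (f i)) : W ρ (∏ i ∈ s, f i) := by
  classical
  induction s using Finset.induction_on with
  | empty => rw [prod_empty]; exact W.one ρ
  | insert a s ha ih =>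
    rw [prod_insert ha]
    exact (hf a (mem_insert_self a s)).mul hρ (ih fun i hi => hf i (mem_insert_of_mem hi))

theorem ev_add {ρ μ : ℝ} (hμ : |μ| ≤ ρ) {f g : ℝ⟦X⟧} (hf : W ρ f) (hg : W ρ g) :
    ev μ (f + g) = ev μ f + ev μ g := by
  unfold ev
  rw [← Summable.tsum_add (hf.summable hμ).of_norm (hg.summable hμ).of_norm]
  congr 1
  ext n
  rw [map_add, add_mul]

theorem ev_C_mul (μ a : ℝ) (f : ℝ⟦X⟧) : ev μ (C a * f) = a * ev μ f := by
  unfold ev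
  rw [← tsum_mul_left]
  congr 1
  ext n
  rw [coeff_C_mul, mul_assoc]

theorem ev_neg (μ : ℝ) (f : ℝ⟦X⟧) : ev μ (-f) = -ev μ f := by
  have := ev_C_mul μ (-1) f
  simpa using this

theorem ev_sub {ρ μ : ℝ} (hμ : |μ| ≤ ρ) {f g : ℝ⟦X⟧} (hf : W ρ f) (hg : W ρ g) :
    ev μ (f - g) = ev μ f - ev μ g := by
  rw [sub_eq_add_neg, ev_add hμ hf hg.neg, ev_neg, sub_eq_add_neg]

theorem ev_mul {ρ μ : ℝ} (hμ : |μ| ≤ ρ) {f g : ℝ⟦X⟧} (hf : W ρ f) (hg : W ρ g) :
    ev μ (f * g) = ev μ f * ev μ g := by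
  unfold ev
  rw [tsum_mul_tsum_eq_tsum_sum_antidiagonal_of_summable_norm (hf.summable hμ) (hg.summable hμ)]
  congr 1
  ext n
  rw [coeff_mul_pow]

theorem ev_C (μ a : ℝ) : ev μ (C a) = a := by
  unfold ev
  rw [tsum_eq_single 0]
  · simp
  · intro n hn
    rw [coeff_C, if_neg hn, zero_mul]

theorem ev_one (μ : ℝ) : ev μ 1 = 1 := by
  have := ev_C μ 1
  simpa using this

theorem ev_zero (μ : ℝ) : ev μ 0 = 0 := by
  have := ev_C μ 0
  simpa using this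

theorem ev_X (μ : ℝ) : ev μ X = μ := by
  unfold ev
  rw [tsum_eq_single 1]
  · simp
  · intro n hn
    rw [coeff_X, if_neg hn, zero_mul]

theorem ev_pow {ρ μ : ℝ} (hμ : |μ| ≤ ρ) {f : ℝ⟦X⟧} (hf : W ρ f) (n : ℕ) :
    ev μ (f ^ n) = ev μ f ^ n := by
  have hρ : 0 ≤ ρ := (abs_nonneg _).trans hμ
  induction n with
  | zero => rw [pow_zero, pow_zero, ev_one]
  | succ n ih => rw [pow_succ, ev_mul hμ (hf.pow hρ n) hf, ih, pow_succ]

theorem ev_prod {ρ μ : ℝ} (hμ : |μ| ≤ ρ) {ι : Type*} (s : Finset ι) (f : ι → ℝ⟦X⟧)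
    (hf : ∀ i ∈ s, W ρ (f i)) : ev μ (∏ i ∈ s, f i) = ∏ i ∈ s, ev μ (f i) := by
  classical
  have hρ : 0 ≤ ρ := (abs_nonneg _).trans hμ
  induction s using Finset.induction_on with
  | empty => rw [prod_empty, prod_empty, ev_one]
  | insert a s ha ih =>
    rw [prod_insert ha, prod_insert ha, ev_mul hμ (hf a (mem_insert_self a s))
      (W.prod hρ s f fun i hi => hf i (mem_insert_of_mem hi)),
      ih fun i hi => hf i (mem_insert_of_mem hi)]

theorem W.bdd {ρ : ℝ} (hρ : 0 ≤ ρ) {f : ℝ⟦X⟧} (h : W ρ f) :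
    ∃ C : ℝ, 0 ≤ C ∧ ∀ n, |coeff n f| * ρ ^ n ≤ C :=
  ⟨∑' n, |coeff n f| * ρ ^ n, tsum_nonneg fun n => by positivity, fun n =>
    h.le_tsum n fun m _ => by positivity⟩

theorem W.of_bdd {ρ ρ' : ℝ} (h0 : 0 ≤ ρ') (hρ : ρ' < ρ) {f : ℝ⟦X⟧} {C : ℝ}
    (h : ∀ n, |coeff n f| * ρ ^ n ≤ C) : W ρ' f := by
  have hρ0 : 0 < ρ := lt_of_le_of_lt h0 hρ
  have hC : 0 ≤ C := by
    have := h 0
    have h2 : 0 ≤ |coeff 0 f| * ρ ^ 0 := by positivity
    linarith
  have hs : Summable fun n : ℕ => C * (ρ' / ρ) ^ n :=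
    (summable_geometric_of_lt_one (by positivity) ((div_lt_one hρ0).mpr hρ)).mul_left C
  refine Summable.of_nonneg_of_le (fun n => by positivity) (fun n => ?_) hs
  have h1 : |coeff n f| * ρ' ^ n = |coeff n f| * ρ ^ n * (ρ' / ρ) ^ n := by
    rw [div_pow, mul_assoc, mul_div_cancel₀]
    exact pow_ne_zero _ hρ0.ne'
  rw [h1]
  exact mul_le_mul_of_nonneg_right (h n) (by positivity)

theorem th_mul (f g : ℝ⟦X⟧) : th (f * g) = th f * g + f * th g := by
  ext n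
  rw [th, coeff_mk, map_add, coeff_mul, coeff_mul, coeff_mul, mul_sum, ← sum_add_distrib]
  apply sum_congr rfl
  rintro ⟨i, j⟩ hx
  rw [HasAntidiagonal.mem_antidiagonal] at hx
  simp only at hx ⊢
  rw [th, th, coeff_mk, coeff_mk, ← hx]
  push_cast
  ring

theorem th_add (f g : ℝ⟦X⟧) : th (f + g) = th f + th g := by
  ext n
  simp only [th, coeff_mk, map_add, mul_add]

theorem th_C_mul (a : ℝ) (f : ℝ⟦X⟧) : th (C a * f) = C a * th f := by
  ext n
  simp only [th, coeff_mk, coeff_C_mul]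
  ring

theorem th_one : th 1 = 0 := by
  ext n
  rw [th, coeff_mk, coeff_one]
  split_ifs with h
  · rw [h]; simp
  · simp

theorem th_X : th X = X := by
  ext n
  rw [th, coeff_mk, coeff_X]
  split_ifs with h
  · rw [h]; simp
  · simp

theorem th_pow (f : ℝ⟦X⟧) (n : ℕ) : th (f ^ (n + 1)) = C ((n : ℝ) + 1) * f ^ n * th f := by
  induction n with
  | zero => simp
  | succ n ih =>
    rw [pow_succ f (n + 1), th_mul, ih]
    push_cast
    rw [map_add, map_add, map_add, map_one]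
    ring

theorem W.th {ρ ρ' : ℝ} (h0 : 0 ≤ ρ') (hρ : ρ' < ρ) {f : ℝ⟦X⟧} (h : W ρ f) : W ρ' (th f) := by
  have hρ0 : 0 < ρ := lt_of_le_of_lt h0 hρ
  obtain ⟨C, hC0, hC⟩ := h.bdd hρ0.le
  have hr : |ρ' / ρ| < 1 := by
    rw [abs_of_nonneg (by positivity)]
    exact (div_lt_one hρ0).mpr hρ
  have hs : Summable fun n : ℕ => C * ((n : ℝ) ^ 1 * (ρ' / ρ) ^ n) :=
    (summable_pow_mul_geometric_of_norm_lt_one 1 (r := ρ' / ρ) hr).mul_left C
  refine Summable.of_nonneg_of_le (fun n => by positivity) (fun n => ?_) hs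
  rw [CS.th, coeff_mk, abs_mul, abs_of_nonneg (Nat.cast_nonneg n : (0 : ℝ) ≤ n), pow_one]
  have h1 : (n : ℝ) * |coeff n f| * ρ' ^ n = (|coeff n f| * ρ ^ n) * (n * (ρ' / ρ) ^ n) := by
    rw [div_pow]
    field_simp
  rw [h1]
  exact mul_le_mul_of_nonneg_right (hC n) (by positivity)

/-- division by `1 + w/μ` of a series which vanishes at `-μ` -/
theorem W.div {ρ μ : ℝ} (hμ : 0 < μ) (hμρ : μ < ρ) {f g : ℝ⟦X⟧} (hf : W ρ f)
    (h0 : ev (-μ) f = 0) (hg : g * (1 + PowerSeries.C (1 / μ) * PowerSeries.X) = f) :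
    ∃ C : ℝ, ∀ n, |coeff n g| * ρ ^ n ≤ C := by
  have hρ0 : 0 < ρ := hμ.trans hμρ
  -- partial sums
  have hrec : ∀ n, coeff n g * (-μ) ^ n = ∑ i ∈ range (n + 1), coeff i f * (-μ) ^ i := by
    intro n
    induction n with
    | zero =>
      have h1 := congrArg constantCoeff hg
      rw [map_mul, map_add, map_mul, constantCoeff_X, MulZeroClass.mul_zero, map_one, add_zero,
        mul_one] at h1
      rw [zero_add, sum_range_one, pow_zero, coeff_zero_eq_constantCoeff_apply,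
        coeff_zero_eq_constantCoeff_apply, h1]
    | succ n ih =>
      rw [sum_range_succ, ← ih, ← hg]
      have h2 : coeff (n + 1) (g * (1 + PowerSeries.C (1 / μ) * PowerSeries.X)) =
          coeff (n + 1) g + coeff n g * (1 / μ) := by
        rw [mul_add, mul_one, map_add, mul_left_comm, coeff_C_mul, coeff_succ_mul_X]
        ring
      rw [h2, pow_succ]
      field_simp
      ring
  have hS : Summable fun n => coeff n f * (-μ) ^ n :=
    (hf.summable (μ := -μ) (by rw [abs_neg, abs_of_pos hμ]; exact hμρ.le)).of_norm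
  obtain ⟨D, hD0, hD⟩ := hf.bdd hρ0.le
  set r : ℝ := μ / ρ with hr
  have hr0 : 0 < r := by positivity
  have hr1 : r < 1 := (div_lt_one hρ0).mpr hμρ
  refine ⟨D / (1 - r), fun n => ?_⟩
  have h1 : coeff n g * (-μ) ^ n = -∑' i, coeff (i + (n + 1)) f * (-μ) ^ (i + (n + 1)) := by
    have h2 := hS.sum_add_tsum_nat_add (n + 1)
    have h3 : ∑' i, coeff i f * (-μ) ^ i = 0 := h0
    rw [h3] at h2
    rw [hrec n]
    linarith
  have hs2 : Summable fun i : ℕ => D * r ^ (n + 1) * r ^ i :=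
    (summable_geometric_of_lt_one hr0.le hr1).mul_left _
  have h4 : |∑' i, coeff (i + (n + 1)) f * (-μ) ^ (i + (n + 1))| ≤ D * r ^ (n + 1) * (1 - r)⁻¹ := by
    rw [← tsum_geometric_of_lt_one hr0.le hr1, ← tsum_mul_left]
    rw [← Real.norm_eq_abs]
    apply tsum_of_norm_bounded hs2.hasSum
    intro i
    rw [Real.norm_eq_abs, abs_mul, abs_pow, abs_neg, abs_of_pos hμ]
    calc |coeff (i + (n + 1)) f| * μ ^ (i + (n + 1)) =
        (|coeff (i + (n + 1)) f| * ρ ^ (i + (n + 1))) * r ^ (i + (n + 1)) := by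
          rw [hr, div_pow, mul_assoc, mul_div_cancel₀]
          exact pow_ne_zero _ hρ0.ne'
      _ ≤ D * r ^ (i + (n + 1)) := mul_le_mul_of_nonneg_right (hD _) (by positivity)
      _ = D * r ^ (n + 1) * r ^ i := by rw [pow_add]; ring
  have h5 : |coeff n g| * μ ^ n ≤ D * r ^ (n + 1) * (1 - r)⁻¹ := by
    have h6 : |coeff n g| * μ ^ n = |coeff n g * (-μ) ^ n| := by
      rw [abs_mul, abs_pow, abs_neg, abs_of_pos hμ]
    rw [h6, h1, abs_neg]
    exact h4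
  have h7 : |coeff n g| * ρ ^ n = (|coeff n g| * μ ^ n) * (1 / r) ^ n := by
    rw [hr, one_div_div, div_pow, mul_assoc, mul_div_cancel₀]
    exact pow_ne_zero _ hμ.ne'
  rw [h7]
  have hr1' : 0 < 1 - r := by linarith
  calc (|coeff n g| * μ ^ n) * (1 / r) ^ n ≤ (D * r ^ (n + 1) * (1 - r)⁻¹) * (1 / r) ^ n :=
        mul_le_mul_of_nonneg_right h5 (by positivity)
    _ = D * r * (1 - r)⁻¹ := by
        rw [pow_succ, one_div, inv_pow]
        field_simp
    _ ≤ D / (1 - r) := by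
        rw [div_eq_mul_inv]
        have : D * r ≤ D * 1 := mul_le_mul_of_nonneg_left hr1.le hD0
        rw [mul_one] at this
        exact mul_le_mul_of_nonneg_right this (by positivity)

end

end Pool.Agent.H765.CS
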