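import Mathlib
import Pool.Agent.H765.CS.Wt

/-! The entire function `sh(w) = sinh(√w)/√w` and its inverse. -/

namespace Pool.Agent.H765.CS

open PowerSeries Finset Nat Real

noncomputable section

/-- `sinh(√w)/√w` -/
def shR : ℝ⟦X⟧ := PowerSeries.mk fun k => 1 / ((2 * k + 1)! : ℝ)

/-- `cosh(√w)` -/
def chR : ℝ⟦X⟧ := PowerSeries.mk fun k => 1 / ((2 * k)! : ℝ)

/-- the coefficients of `1/sh` -/
def zc (k : ℕ) : ℝ := (2 - 4 ^ k) * (bernoulli (2 * k) : ℝ) / ((2 * k)! : ℝ)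

theorem W.shR (ρ : ℝ) (hρ : 0 ≤ ρ) : W ρ shR := by
  refine Summable.of_nonneg_of_le (fun n => by positivity) (fun n => ?_)
    (Real.summable_pow_div_factorial ρ)
  rw [CS.shR, coeff_mk, abs_of_nonneg (by positivity), one_div, mul_comm, ← div_eq_mul_inv]
  apply div_le_div_of_nonneg_left (by positivity) (by positivity)
  exact_mod_cast Nat.factorial_le (by omega)

theorem W.chR (ρ : ℝ) (hρ : 0 ≤ ρ) : W ρ chR := by
  refine Summable.of_nonneg_of_le (fun n => by positivity) (fun n => ?_)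
    (Real.summable_pow_div_factorial ρ)
  rw [CS.chR, coeff_mk, abs_of_nonneg (by positivity), one_div, mul_comm, ← div_eq_mul_inv]
  apply div_le_div_of_nonneg_left (by positivity) (by positivity)
  exact_mod_cast Nat.factorial_le (by omega)

theorem ev_shR (x : ℝ) : x * ev (-x ^ 2) shR = Real.sin x := by
  rw [ev, ← tsum_mul_left, ← (Real.hasSum_sin x).tsum_eq]
  congr 1
  ext n
  rw [shR, coeff_mk, neg_pow, ← pow_mul]
  ring

theorem ev_chR (x : ℝ) : ev (-x ^ 2) chR = Real.cos x := by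
  rw [ev, ← (Real.hasSum_cos x).tsum_eq]
  congr 1
  ext n
  rw [chR, coeff_mk, neg_pow, ← pow_mul]
  ring

theorem th_shR : C 2 * th shR + shR = chR := by
  ext n
  rw [map_add, coeff_C_mul, th, coeff_mk, shR, coeff_mk, chR, coeff_mk, Nat.factorial_succ]
  push_cast
  have h : ((2 * n)! : ℝ) ≠ 0 := by positivity
  have h2 : (2 * (n : ℝ) + 1) ≠ 0 := by positivity
  field_simp

theorem ev_shR_zero (m : ℕ) (hm : 1 ≤ m) : ev (-(m * π) ^ 2) shR = 0 := by
  have h := ev_shR (m * π)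
  rw [Real.sin_nat_mul_pi] at h
  have h2 : (m * π : ℝ) ≠ 0 := by
    have : (m : ℝ) ≠ 0 := by
      exact_mod_cast (by omega : m ≠ 0)
    positivity
  exact (mul_eq_zero.mp h).resolve_left h2

theorem ev_th_shR (m : ℕ) (hm : 1 ≤ m) : 2 * ev (-(m * π) ^ 2) (th shR) = (-1) ^ m := by
  have h := ev_chR (m * π)
  have h0 : |-(m * π) ^ 2| ≤ (m * π) ^ 2 := by
    rw [abs_neg, abs_of_nonneg (by positivity)]
  rw [Real.cos_nat_mul_pi, ← th_shR, ev_add h0 (((W.shR ((m * π) ^ 2 + 1) (by positivity)).th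
    (by positivity) (by linarith)).C_mul 2) (W.shR _ (by positivity)), ev_shR_zero m hm,
    ev_C_mul, add_zero] at h
  exact h

/-- the product of `sh` and the Bernoulli series -/
theorem zc_mul : PowerSeries.mk zc * shR = 1 := by
  set b : ℝ⟦X⟧ := bernoulliPowerSeries ℝ with hb
  set e : ℝ⟦X⟧ := PowerSeries.exp ℝ with he
  set n : ℝ⟦X⟧ := evalNegHom e with hn
  have h1 : b * (e - 1) = X := bernoulliPowerSeries_mul_exp_sub_one ℝ
  have h2 : e * n = 1 := exp_mul_exp_neg_eq_one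
  have h3 : e ^ 2 = rescale ((2 : ℕ) : ℝ) e := exp_pow_eq_rescale_exp 2
  have h4 : rescale (2 : ℝ) b * (e ^ 2 - 1) = C 2 * X := by
    have h5 := congrArg (rescale (2 : ℝ)) h1
    rw [map_mul, map_sub, map_one, rescale_X] at h5
    rw [h3]
    exact_mod_cast h5
  set Z : ℝ⟦X⟧ := C 2 * b - rescale (2 : ℝ) b with hZ
  have hC2 : (C (2 : ℝ) : ℝ⟦X⟧) = 2 := by rw [map_ofNat]
  have h5 : Z * (e - n) = 2 * X := by
    rw [hC2] at h4
    rw [hZ, hC2]
    have e1 : (2 * b - rescale (2 : ℝ) b) * (e - n) * e = 2 * X * e := by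
      linear_combination (2 * (e + 1)) * h1 - h4 - (2 * b - rescale (2 : ℝ) b) * h2
    have hne : e ≠ 0 := by
      intro h0
      rw [h0, zero_mul] at h2
      exact zero_ne_one h2
    exact mul_right_cancel₀ hne e1
  have h6 : e - n = 2 * (X * expand 2 two_ne_zero shR) := by
    ext k
    rw [map_sub, hn, he, evalNegHom, coeff_rescale, PowerSeries.coeff_exp]
    have e2 : (2 : ℝ⟦X⟧) * (X * expand 2 two_ne_zero shR) =
        C 2 * (expand 2 two_ne_zero shR * X) := by
      rw [hC2]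
      ring
    rw [e2, coeff_C_mul]
    rcases k with _ | k
    · simp
    · rw [coeff_succ_mul_X, coeff_expand]
      rcases Nat.even_or_odd k with h7 | h7
      · obtain ⟨j, hj⟩ := h7
        have h8 : k = 2 * j := by omega
        subst h8
        rw [if_pos (Dvd.intro _ rfl), Nat.mul_div_cancel_left _ (by norm_num), shR, coeff_mk,
          pow_succ, pow_mul]
        simp only [eq_ratCast, one_div, Rat.cast_inv, Rat.cast_natCast]
        norm_num
        ring
      · have h8 : ¬ 2 ∣ k := fun h9 => (Nat.not_even_iff_odd.mpr h7) (even_iff_two_dvd.mpr h9)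
        rw [if_neg h8, MulZeroClass.mul_zero, pow_succ, h7.neg_one_pow]
        ring
  have h7 : Z = expand 2 two_ne_zero (PowerSeries.mk zc) := by
    ext k
    rw [hZ, map_sub, coeff_C_mul, coeff_rescale, coeff_expand, hb, bernoulliPowerSeries, coeff_mk]
    rcases Nat.even_or_odd k with h7 | h7
    · obtain ⟨j, hj⟩ := h7
      have h8 : k = 2 * j := by omega
      subst h8
      rw [if_pos (Dvd.intro _ rfl), Nat.mul_div_cancel_left _ (by norm_num), coeff_mk, zc]
      simp only [eq_ratCast, Rat.cast_div, Rat.cast_natCast]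
      rw [pow_mul]
      norm_num
      ring
    · have h8 : ¬ 2 ∣ k := fun h9 => (Nat.not_even_iff_odd.mpr h7) (even_iff_two_dvd.mpr h9)
      rw [if_neg h8]
      rcases Nat.lt_or_ge 1 k with h9 | h9
      · rw [bernoulli_eq_zero_of_odd h7 h9]
        simp
      · have h10 : k = 1 := by
          have := h7.pos
          omega
        subst h10
        ring
  rw [h6, h7] at h5
  have h8 : expand 2 two_ne_zero (PowerSeries.mk zc * shR) = 1 := by
    rw [map_mul]
    have hX : (2 * X : ℝ⟦X⟧) ≠ 0 := by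
      apply mul_ne_zero _ PowerSeries.X_ne_zero
      rw [← hC2]
      intro h0
      have := congrArg constantCoeff h0
      rw [constantCoeff_C, map_zero] at this
      norm_num at this
    apply mul_left_cancel₀ hX
    linear_combination h5
  ext k
  have h9 := congrArg (coeff (2 * k)) h8
  rw [coeff_expand_mul, coeff_one] at h9
  rw [h9, coeff_one]
  simp

theorem shR_inv : shR⁻¹ = PowerSeries.mk zc := by
  have h0 : constantCoeff shR ≠ 0 := by
    rw [← coeff_zero_eq_constantCoeff_apply, shR, coeff_mk]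
    norm_num
  have h1 := zc_mul
  have h2 := PowerSeries.mul_inv_cancel shR h0
  calc shR⁻¹ = (PowerSeries.mk zc * shR) * shR⁻¹ := by rw [h1, one_mul]
    _ = _ := by rw [mul_assoc, h2, mul_one]

/-- the coefficients of `1/sh` are close to `2 (-1/π²)^k` -/
theorem zc_bound : ∃ C : ℝ, ∀ k, |zc k * (-π ^ 2) ^ k - 2| ≤ C * (1 / 4) ^ k := by
  have hpi : (0 : ℝ) < π := Real.pi_pos
  set Z : ℝ := ∑' n : ℕ, 1 / ((n + 2 : ℕ) : ℝ) ^ 2 with hZ
  have hZ0 : 0 ≤ Z := tsum_nonneg fun n => by positivity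
  refine ⟨16 * Z + 16, fun k => ?_⟩
  rcases Nat.eq_zero_or_pos k with rfl | hk
  · rw [zc]
    norm_num
    linarith
  · have hk0 : k ≠ 0 := by omega
    have hs := hasSum_zeta_nat hk0
    set z : ℝ := (-1 : ℝ) ^ (k + 1) * (2 : ℝ) ^ (2 * k - 1) * π ^ (2 * k) *
        bernoulli (2 * k) / (2 * k)! with hz
    -- `z = 1 + (tail)`
    have h1 := hs.summable.sum_add_tsum_nat_add 2
    rw [hs.tsum_eq, sum_range_succ, sum_range_one] at h1
    have h2 : (1 : ℝ) / ((0 : ℕ) : ℝ) ^ (2 * k) = 0 := by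
      rw [Nat.cast_zero, zero_pow (by omega), div_zero]
    have h3 : (1 : ℝ) / ((1 : ℕ) : ℝ) ^ (2 * k) = 1 := by
      rw [Nat.cast_one, one_pow, div_one]
    rw [h2, h3, zero_add] at h1
    set T : ℝ := ∑' i : ℕ, 1 / ((i + 2 : ℕ) : ℝ) ^ (2 * k) with hT
    have hT0 : 0 ≤ T := tsum_nonneg fun n => by positivity
    have hsum2 : Summable fun n : ℕ => 1 / ((n + 2 : ℕ) : ℝ) ^ 2 :=
      (summable_nat_add_iff 2).mpr (Real.summable_one_div_nat_pow.mpr (by norm_num))
    have hT1 : T ≤ 4 * (1 / 4) ^ k * Z := by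
      rw [hT, hZ, ← tsum_mul_left]
      apply Summable.tsum_le_tsum _ ((summable_nat_add_iff 2).mpr hs.summable)
        (hsum2.mul_left _)
      intro n
      have hn : (4 : ℝ) ≤ ((n + 2 : ℕ) : ℝ) ^ 2 := by
        push_cast
        nlinarith [(Nat.cast_nonneg n : (0 : ℝ) ≤ n)]
      obtain ⟨j, rfl⟩ : ∃ j, k = j + 1 := ⟨k - 1, by omega⟩
      have hx : (0 : ℝ) < ((n + 2 : ℕ) : ℝ) ^ 2 := by positivity
      rw [mul_add, mul_one, pow_add, pow_mul, pow_succ (1 / 4 : ℝ)]
      have h5 : (4 : ℝ) ^ j ≤ (((n + 2 : ℕ) : ℝ) ^ 2) ^ j := pow_le_pow_left₀ (by norm_num) hn j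
      have h6 : 4 * ((1 / 4 : ℝ) ^ j * (1 / 4)) * (1 / ((n + 2 : ℕ) : ℝ) ^ 2) =
          1 / (4 ^ j * ((n + 2 : ℕ) : ℝ) ^ 2) := by
        rw [one_div_pow]
        field_simp
      rw [h6]
      apply one_div_le_one_div_of_le (by positivity)
      exact mul_le_mul_of_nonneg_right h5 hx.le
    have hzT : z = 1 + T := h1.symm
    -- relation with zc
    have h4 : zc k * (-π ^ 2) ^ k = 2 * z - 4 * (1 / 4) ^ k * z := by
      have e1 : (-π ^ 2) ^ k = (-1) ^ k * π ^ (2 * k) := by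
        rw [neg_pow, ← pow_mul]
      have e2 : (2 : ℝ) ^ (2 * k - 1) = 4 ^ k / 2 := by
        rw [eq_div_iff (two_ne_zero' ℝ), ← pow_succ, Nat.sub_add_cancel (by omega), pow_mul]
        norm_num
      rw [hz, e1, e2, zc, pow_succ, one_div_pow]
      field_simp
      ring
    rw [h4, hzT]
    have h5 : 2 * (1 + T) - 4 * (1 / 4) ^ k * (1 + T) - 2 = 2 * T - 4 * (1 / 4) ^ k * (1 + T) := by
      ring
    rw [h5]
    have hq0 : (0 : ℝ) < (1 / 4) ^ k := by positivity
    have hq1 : ((1 : ℝ) / 4) ^ k ≤ 1 := pow_le_one₀ (by norm_num) (by norm_num)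
    have hT2 : T ≤ 4 * Z := by
      calc T ≤ 4 * (1 / 4) ^ k * Z := hT1
        _ = (1 / 4) ^ k * (4 * Z) := by ring
        _ ≤ 1 * (4 * Z) := mul_le_mul_of_nonneg_right hq1 (by positivity)
        _ = 4 * Z := one_mul _
    rw [abs_le]
    constructor
    · nlinarith [mul_nonneg hq0.le hZ0, mul_le_mul_of_nonneg_left hT2 hq0.le]
    · nlinarith [mul_nonneg hq0.le hZ0, mul_nonneg hq0.le hT0]

/-- `(1 + w/π²)/sh(w)` converges for `|w| < 4 π²` -/
theorem W.shR_inv {ρ : ℝ} (hρ : 0 ≤ ρ) (h : ρ < 4 * π ^ 2) :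
    W ρ ((1 + PowerSeries.C (1 / π ^ 2) * PowerSeries.X) * CS.shR⁻¹) := by
  obtain ⟨C, hC⟩ := zc_bound
  have hpi : (0 : ℝ) < π := Real.pi_pos
  have hC0 : 0 ≤ C := by
    have := (abs_nonneg _).trans (hC 0)
    simpa using this
  rw [CS.shR_inv]
  apply W.of_bdd hρ h (C := 5 * C + 1)
  intro n
  rcases n with _ | n
  · rw [pow_zero, mul_one, add_mul, one_mul, map_add, coeff_mk, mul_assoc, coeff_C_mul,
      coeff_zero_X_mul, MulZeroClass.mul_zero, add_zero, zc]
    norm_num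
    linarith
  · have h1 : coeff (n + 1) ((1 + PowerSeries.C (1 / π ^ 2) * PowerSeries.X) * PowerSeries.mk zc) =
        zc (n + 1) + zc n / π ^ 2 := by
      rw [add_mul, one_mul, map_add, coeff_mk, mul_assoc, coeff_C_mul,
        mul_comm (PowerSeries.X : ℝ⟦X⟧), coeff_succ_mul_X, coeff_mk]
      ring
    have h2 : (zc (n + 1) + zc n / π ^ 2) * (-π ^ 2) ^ (n + 1) =
        (zc (n + 1) * (-π ^ 2) ^ (n + 1) - 2) - (zc n * (-π ^ 2) ^ n - 2) := by
      rw [pow_succ]
      field_simp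
      ring
    have h3 : |(zc (n + 1) + zc n / π ^ 2)| * (4 * π ^ 2) ^ (n + 1) =
        |(zc (n + 1) + zc n / π ^ 2) * (-π ^ 2) ^ (n + 1)| * 4 ^ (n + 1) := by
      rw [abs_mul, abs_pow, abs_neg, abs_of_pos (by positivity : (0 : ℝ) < π ^ 2), mul_pow]
      ring
    rw [h1, h3, h2]
    have h4 := hC n
    have h5 := hC (n + 1)
    have h6 : |(zc (n + 1) * (-π ^ 2) ^ (n + 1) - 2) - (zc n * (-π ^ 2) ^ n - 2)| ≤
        C * (1 / 4) ^ (n + 1) + C * (1 / 4) ^ n := (abs_sub _ _).trans (add_le_add h5 h4)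
    calc _ ≤ (C * (1 / 4) ^ (n + 1) + C * (1 / 4) ^ n) * 4 ^ (n + 1) :=
          mul_le_mul_of_nonneg_right h6 (by positivity)
      _ = 5 * C := by
          rw [one_div_pow, one_div_pow, pow_succ (4 : ℝ) n]
          field_simp
          ring
      _ ≤ 5 * C + 1 := by linarith

end

end Pool.Agent.H765.CS
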