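import Mathlib
import Pool.Agent.H765.CS.Sh

/-! The singular part of a series at its first pole. -/

namespace Pool.Agent.H765.CS

open PowerSeries Finset Nat Real

noncomputable section

/-- entire functions -/
def Ent (f : ℝ⟦X⟧) : Prop := ∀ ρ : ℝ, 0 ≤ ρ → W ρ f

theorem Ent.add {f g : ℝ⟦X⟧} (hf : Ent f) (hg : Ent g) : Ent (f + g) :=
  fun ρ h => (hf ρ h).add h (hg ρ h)

theorem Ent.sub {f g : ℝ⟦X⟧} (hf : Ent f) (hg : Ent g) : Ent (f - g) :=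
  fun ρ h => (hf ρ h).sub h (hg ρ h)

theorem Ent.mul {f g : ℝ⟦X⟧} (hf : Ent f) (hg : Ent g) : Ent (f * g) :=
  fun ρ h => (hf ρ h).mul h (hg ρ h)

theorem Ent.C_mul {f : ℝ⟦X⟧} (hf : Ent f) (a : ℝ) : Ent (C a * f) := fun ρ h => (hf ρ h).C_mul a

theorem Ent.pow {f : ℝ⟦X⟧} (hf : Ent f) (n : ℕ) : Ent (f ^ n) := fun ρ h => (hf ρ h).pow h n

theorem Ent.prod {ι : Type*} (s : Finset ι) (f : ι → ℝ⟦X⟧) (hf : ∀ i ∈ s, Ent (f i)) :
    Ent (∏ i ∈ s, f i) := fun ρ h => W.prod h s f fun i hi => hf i hi ρ h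

theorem Ent.th {f : ℝ⟦X⟧} (hf : Ent f) : Ent (th f) := fun ρ h =>
  (hf (ρ + 1) (by linarith)).th h (by linarith)

theorem Ent.X : Ent X := fun ρ _ => W.X ρ

theorem Ent.one : Ent 1 := fun ρ _ => W.one ρ

theorem Ent.C (a : ℝ) : Ent (PowerSeries.C a) := fun ρ _ => W.C ρ a

theorem Ent.shR : Ent shR := fun ρ h => W.shR ρ h

theorem Ent.W {f : ℝ⟦X⟧} (hf : Ent f) (μ : ℝ) : W |μ| f := hf _ (abs_nonneg _)

theorem Ent.ev_add {f g : ℝ⟦X⟧} (hf : Ent f) (hg : Ent g) (μ : ℝ) :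
    ev μ (f + g) = ev μ f + ev μ g := CS.ev_add le_rfl (hf.W μ) (hg.W μ)

theorem Ent.ev_sub {f g : ℝ⟦X⟧} (hf : Ent f) (hg : Ent g) (μ : ℝ) :
    ev μ (f - g) = ev μ f - ev μ g := CS.ev_sub le_rfl (hf.W μ) (hg.W μ)

theorem Ent.ev_mul {f g : ℝ⟦X⟧} (hf : Ent f) (hg : Ent g) (μ : ℝ) :
    ev μ (f * g) = ev μ f * ev μ g := CS.ev_mul le_rfl (hf.W μ) (hg.W μ)

/-- `∏_{i < j} (2 k + 2 i + 3)` -/
def Q (j k : ℕ) : ℝ := ∏ i ∈ range j, (2 * (k : ℝ) + 2 * i + 3)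

/-- multiplication of the coefficients by `Q j` -/
def Mj (j : ℕ) (f : ℝ⟦X⟧) : ℝ⟦X⟧ := PowerSeries.mk fun k => Q j k * coeff k f

theorem Mj_zero (f : ℝ⟦X⟧) : Mj 0 f = f := by
  ext k
  rw [Mj, coeff_mk, Q, range_zero, prod_empty, one_mul]

theorem Mj_succ (j : ℕ) (f : ℝ⟦X⟧) :
    Mj (j + 1) f = C 2 * th (Mj j f) + C (2 * (j : ℝ) + 3) * Mj j f := by
  ext k
  rw [map_add, coeff_C_mul, coeff_C_mul, th, coeff_mk, Mj, Mj, coeff_mk, coeff_mk, Q,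
    prod_range_succ, ← Q]
  ring

/-- the geometric series `1/(1 + w/μ)` -/
def geo (μ : ℝ) : ℝ⟦X⟧ := PowerSeries.mk fun k => (-μ)⁻¹ ^ k

/-- `1 + w/μ` -/
def Ln (μ : ℝ) : ℝ⟦X⟧ := 1 + C (1 / μ) * X

theorem geo_mul {μ : ℝ} (hμ : 0 < μ) : geo μ * Ln μ = 1 := by
  ext k
  rcases k with _ | k
  · have h1 : constantCoeff (geo μ) = 1 := by
      rw [← coeff_zero_eq_constantCoeff_apply, geo, coeff_mk, pow_zero]
    rw [coeff_zero_eq_constantCoeff_apply, map_mul, h1, Ln]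
    simp
  · rw [Ln, mul_add, mul_one, map_add, mul_left_comm, coeff_C_mul, coeff_succ_mul_X, geo,
      coeff_mk, coeff_mk, coeff_one, if_neg (Nat.succ_ne_zero k), pow_succ]
    field_simp
    ring

theorem Ent.Ln (μ : ℝ) : Ent (Ln μ) := Ent.one.add (Ent.X.C_mul _)

theorem ev_Ln {μ : ℝ} (hμ : 0 < μ) : ev (-μ) (Ln μ) = 0 := by
  rw [Ln, Ent.one.ev_add (Ent.X.C_mul _), ev_one, ev_C_mul, ev_X]
  field_simp
  ring

theorem th_Ln (μ : ℝ) : th (Ln μ) = C (1 / μ) * X := by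
  rw [Ln, th_add, th_one, th_C_mul, th_X, zero_add]

/-- the numerator of the singular part -/
def Nm (μ : ℝ) (j : ℕ) : ℝ⟦X⟧ := Mj j (geo μ) * Ln μ ^ (j + 1)

theorem Nm_succ (μ : ℝ) (j : ℕ) : Nm μ (j + 1) = C 2 * (th (Nm μ j) * Ln μ) -
    C (2 * ((j : ℝ) + 1)) * (C (1 / μ) * X * Nm μ j) + C (2 * (j : ℝ) + 3) * (Nm μ j * Ln μ) := by
  have h1 : th (Nm μ j) = th (Mj j (geo μ)) * Ln μ ^ (j + 1) +
      Mj j (geo μ) * (C ((j : ℝ) + 1) * Ln μ ^ j * (C (1 / μ) * X)) := by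
    rw [Nm, th_mul, th_pow, th_Ln]
  rw [h1, Nm, Nm, Mj_succ, map_mul C 2 ((j : ℝ) + 1)]
  ring

theorem Nm_ent {μ : ℝ} (hμ : 0 < μ) (j : ℕ) : Ent (Nm μ j) ∧ ev (-μ) (Nm μ j) ≠ 0 := by
  induction j with
  | zero =>
    have h : Nm μ 0 = 1 := by rw [Nm, Mj_zero, zero_add, pow_one, geo_mul hμ]
    rw [h, ev_one]
    exact ⟨Ent.one, one_ne_zero⟩
  | succ j ih =>
    obtain ⟨h1, h2⟩ := ih
    have e1 : Ent (C 2 * (th (Nm μ j) * Ln μ)) := (h1.th.mul (Ent.Ln μ)).C_mul 2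
    have e2 : Ent (C (1 / μ) * X * Nm μ j) := (Ent.X.C_mul _).mul h1
    have e3 : Ent (C (2 * (j : ℝ) + 3) * (Nm μ j * Ln μ)) := (h1.mul (Ent.Ln μ)).C_mul _
    rw [Nm_succ]
    refine ⟨(e1.sub (e2.C_mul _)).add e3, ?_⟩
    rw [(e1.sub (e2.C_mul _)).ev_add e3, e1.ev_sub (e2.C_mul _), ev_C_mul, ev_C_mul, ev_C_mul,
      h1.th.ev_mul (Ent.Ln μ), h1.ev_mul (Ent.Ln μ), (Ent.X.C_mul _).ev_mul h1, ev_C_mul,
      ev_Ln hμ, ev_X]
    have e4 : 2 * (ev (-μ) (th (Nm μ j)) * 0) - 2 * ((j : ℝ) + 1) * (1 / μ * -μ *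
        ev (-μ) (Nm μ j)) + (2 * (j : ℝ) + 3) * (ev (-μ) (Nm μ j) * 0) =
        2 * ((j : ℝ) + 1) * ev (-μ) (Nm μ j) := by
      field_simp
      ring
    rw [e4]
    have : (2 : ℝ) * ((j : ℝ) + 1) ≠ 0 := by positivity
    exact mul_ne_zero this h2

/-- The singular part at `-μ` of a function with a pole of order at most `n`. -/
theorem single_pole {μ R : ℝ} (hμ : 0 < μ) (n : ℕ) : ∀ f : ℝ⟦X⟧,
    (∀ ρ, μ < ρ → ρ < R → W ρ (f * Ln μ ^ n)) → μ < R →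
    ∃ c : ℕ → ℝ, (∀ j, n ≤ j → c j = 0) ∧
      (∀ ρ, μ < ρ → ρ < R → W ρ (f - ∑ j ∈ range n, C (c j) * Mj j (geo μ))) ∧
      (∀ k, n = k + 1 → c k * ev (-μ) (Nm μ k) = ev (-μ) (f * Ln μ ^ n)) := by
  induction n with
  | zero =>
    intro f hf _
    refine ⟨fun _ => 0, fun _ _ => rfl, ?_, fun k hk => by omega⟩
    intro ρ h1 h2
    have := hf ρ h1 h2
    simpa using this
  | succ n ih =>
    intro f hf hR
    obtain ⟨hE, hN⟩ := Nm_ent hμ n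
    set v : ℝ := ev (-μ) (f * Ln μ ^ (n + 1)) with hv
    set a : ℝ := v / ev (-μ) (Nm μ n) with ha
    set f' : ℝ⟦X⟧ := f - C a * Mj n (geo μ) with hf'
    have h1 : (f' * Ln μ ^ n) * Ln μ = f * Ln μ ^ (n + 1) - C a * Nm μ n := by
      rw [hf', Nm]
      ring
    have h2 : ∀ ρ, μ < ρ → ρ < R → W ρ (f' * Ln μ ^ n) := by
      intro ρ hρ1 hρ2
      obtain ⟨ρ', h3, h4⟩ := exists_between hρ2
      have h5 : μ < ρ' := hρ1.trans h3
      have h0' : 0 ≤ ρ' := (hμ.trans h5).le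
      obtain ⟨D, hD⟩ := W.div hμ h5 ((hf ρ' h5 h4).sub h0' ((hE ρ' h0').C_mul a)) (g := f' * Ln μ ^ n)
        (by
          rw [ev_sub (ρ := ρ') (by rw [abs_neg, abs_of_pos hμ]; exact h5.le) (hf ρ' h5 h4)
            ((hE ρ' h0').C_mul a), ev_C_mul, ← hv, ha, div_mul_cancel₀ _ hN, sub_self]) h1
      exact W.of_bdd (hμ.trans hρ1).le h3 hD
    obtain ⟨c, hc1, hc2, _⟩ := ih f' h2 hR
    refine ⟨fun j => if j = n then a else c j, ?_, ?_, ?_⟩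
    · intro j hj
      simp only
      rw [if_neg (by omega), hc1 j (by omega)]
    · intro ρ hρ1 hρ2
      have h3 := hc2 ρ hρ1 hρ2
      have h4 : f - ∑ j ∈ range (n + 1), C (if j = n then a else c j) * Mj j (geo μ) =
          f' - ∑ j ∈ range n, C (c j) * Mj j (geo μ) := by
        rw [sum_range_succ, if_pos rfl, hf']
        have h5 : ∑ j ∈ range n, C (if j = n then a else c j) * Mj j (geo μ) =
            ∑ j ∈ range n, C (c j) * Mj j (geo μ) := by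
          apply sum_congr rfl
          intro j hj
          rw [if_neg (by rw [Finset.mem_range] at hj; omega)]
        rw [h5]
        ring
      simp only
      rw [h4]
      exact h3
    · intro k hk
      have h3 : k = n := by omega
      subst h3
      simp only [if_true]
      rw [ha, div_mul_cancel₀ _ hN]

end

end Pool.Agent.H765.CS
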