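import Mathlib
import Pool.Agent.H765.CS.Sing

/-! Leading coefficients at the poles `-(m π)²`. -/

namespace Pool.Agent.H765.CS

open PowerSeries Finset Nat Real

noncomputable section

/-- `f sh^n` is entire, with value `v` at `-(m π)²` -/
def Pl (m n : ℕ) (f : ℝ⟦X⟧) (v : ℝ) : Prop :=
  Ent (f * shR ^ n) ∧ ev (-(m * π) ^ 2) (f * shR ^ n) = v

theorem Pl.add {m n : ℕ} {f g : ℝ⟦X⟧} {v v' : ℝ} (hf : Pl m n f v) (hg : Pl m n g v') :
    Pl m n (f + g) (v + v') := by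
  refine ⟨?_, ?_⟩
  · rw [add_mul]
    exact hf.1.add hg.1
  · rw [add_mul, hf.1.ev_add hg.1, hf.2, hg.2]

theorem Pl.C_mul {m n : ℕ} {f : ℝ⟦X⟧} {v : ℝ} (hf : Pl m n f v) (a : ℝ) :
    Pl m n (C a * f) (a * v) := by
  refine ⟨?_, ?_⟩
  · rw [mul_assoc]
    exact hf.1.C_mul a
  · rw [mul_assoc, ev_C_mul, hf.2]

theorem Pl.zero (m n : ℕ) : Pl m n 0 0 := by
  refine ⟨?_, ?_⟩
  · rw [zero_mul]
    simpa using Ent.C 0
  · rw [zero_mul, ev_zero]

theorem Pl.up {m n n' : ℕ} (hm : 1 ≤ m) (hn : n < n') {f : ℝ⟦X⟧} {v : ℝ} (hf : Pl m n f v) :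
    Pl m n' f 0 := by
  obtain ⟨d, rfl⟩ := Nat.exists_eq_add_of_lt hn
  have h1 : f * shR ^ (n + d + 1) = (f * shR ^ n) * (shR ^ d * shR) := by ring
  have h2 : Ent (shR ^ d * shR) := (Ent.shR.pow d).mul Ent.shR
  rw [Pl, h1]
  refine ⟨hf.1.mul h2, ?_⟩
  rw [hf.1.ev_mul h2, (Ent.shR.pow d).ev_mul Ent.shR, ev_shR_zero m hm, MulZeroClass.mul_zero,
    MulZeroClass.mul_zero]

theorem Pl.th {m n : ℕ} (hm : 1 ≤ m) {f : ℝ⟦X⟧} {v : ℝ} (hf : Pl m (n + 1) f v) :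
    Pl m (n + 2) (th f) (-((n : ℝ) + 1) * v * ev (-(m * π) ^ 2) (CS.th shR)) := by
  have h1 : CS.th f * shR ^ (n + 2) = CS.th (f * shR ^ (n + 1)) * shR -
      PowerSeries.C ((n : ℝ) + 1) * ((f * shR ^ (n + 1)) * CS.th shR) := by
    rw [th_mul, th_pow]
    ring
  have e1 := hf.1.th.mul Ent.shR
  have e2 := (hf.1.mul Ent.shR.th).C_mul ((n : ℝ) + 1)
  rw [Pl, h1]
  refine ⟨e1.sub e2, ?_⟩
  rw [e1.ev_sub e2, ev_C_mul, hf.1.th.ev_mul Ent.shR, hf.1.ev_mul Ent.shR.th, hf.2,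
    ev_shR_zero m hm]
  ring

/-- the shifted series -/
def Sj (j : ℕ) (f : ℝ⟦X⟧) : ℝ⟦X⟧ := PowerSeries.mk fun k => coeff (k + j) f

theorem Sj_succ (j : ℕ) (f : ℝ⟦X⟧) : X * Sj (j + 1) f = Sj j f - C (coeff j f) := by
  ext k
  rcases k with _ | k
  · rw [coeff_zero_X_mul, map_sub, coeff_zero_C, Sj, coeff_mk, zero_add, sub_self]
  · rw [mul_comm, coeff_succ_mul_X, map_sub, coeff_C, if_neg (Nat.succ_ne_zero k), sub_zero,
      Sj, Sj, coeff_mk, coeff_mk]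
    congr 1
    ring

theorem Ent.of_X_mul {g : ℝ⟦X⟧} (h : Ent (PowerSeries.X * g)) : Ent g := by
  intro ρ hρ
  have h1 := h (ρ + 1) (by linarith)
  have h2 : Summable fun n => |coeff (n + 1) (PowerSeries.X * g)| * (ρ + 1) ^ (n + 1) :=
    (summable_nat_add_iff 1).mpr h1
  refine Summable.of_nonneg_of_le (fun n => by positivity) (fun n => ?_) h2
  rw [mul_comm PowerSeries.X g, coeff_succ_mul_X]
  apply mul_le_mul_of_nonneg_left _ (abs_nonneg _)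
  calc ρ ^ n ≤ (ρ + 1) ^ n := pow_le_pow_left₀ hρ (by linarith) n
    _ ≤ (ρ + 1) ^ (n + 1) := pow_le_pow_right₀ (by linarith) (by omega)

theorem Pl.Sj {m n : ℕ} (hm : 1 ≤ m) (j : ℕ) {f : ℝ⟦X⟧} {v : ℝ} (hf : Pl m (n + 1) f v) :
    Pl m (n + 1) (Sj j f) (v * ((-(m * π) ^ 2)⁻¹) ^ j) := by
  induction j with
  | zero =>
    have : CS.Sj 0 f = f := by
      ext k
      rw [CS.Sj, coeff_mk, add_zero]
    rw [this, pow_zero, mul_one]
    exact hf
  | succ j ih =>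
    have h1 : PowerSeries.X * (CS.Sj (j + 1) f * shR ^ (n + 1)) = CS.Sj j f * shR ^ (n + 1) -
        PowerSeries.C (coeff j f) * (shR ^ n * shR) := by
      rw [← mul_assoc, Sj_succ]
      ring
    have e1 : Ent (shR ^ n * shR) := (Ent.shR.pow n).mul Ent.shR
    have e2 : Ent (CS.Sj (j + 1) f * shR ^ (n + 1)) := by
      apply Ent.of_X_mul
      rw [h1]
      exact ih.1.sub (e1.C_mul _)
    refine ⟨e2, ?_⟩
    have h2 := congrArg (ev (-(m * π) ^ 2)) h1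
    rw [Ent.X.ev_mul e2, ev_X, ih.1.ev_sub (e1.C_mul _), ev_C_mul,
      (Ent.shR.pow n).ev_mul Ent.shR, ev_shR_zero m hm, MulZeroClass.mul_zero,
      MulZeroClass.mul_zero, sub_zero, ih.2] at h2
    have h3 : (-(m * π) ^ 2 : ℝ) ≠ 0 := by
      have : (m : ℝ) ≠ 0 := by
        exact_mod_cast (by omega : m ≠ 0)
      have hp := Real.pi_pos
      apply neg_ne_zero.mpr
      positivity
    have h4 : ev (-(m * π) ^ 2) (CS.Sj (j + 1) f * shR ^ (n + 1)) =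
        (-(m * π) ^ 2)⁻¹ * (v * ((-(m * π) ^ 2)⁻¹) ^ j) := by
      rw [← h2, ← mul_assoc, inv_mul_cancel₀ h3, one_mul]
    rw [h4, pow_succ]
    ring

theorem ev_th_ne (m : ℕ) (hm : 1 ≤ m) : ev (-(m * π) ^ 2) (CS.th shR) ≠ 0 := by
  intro h0
  have h := ev_th_shR m hm
  rw [h0, MulZeroClass.mul_zero] at h
  exact pow_ne_zero m (by norm_num : (-1 : ℝ) ≠ 0) h.symm

theorem Pl.Mj {m n : ℕ} (hm : 1 ≤ m) (j : ℕ) : ∃ κ : ℝ, κ ≠ 0 ∧ ∀ (f : ℝ⟦X⟧) (v : ℝ),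
    Pl m (n + 1) f v → Pl m (n + 1 + j) (Mj j f) (κ * v) := by
  induction j with
  | zero =>
    refine ⟨1, one_ne_zero, fun f v hf => ?_⟩
    rw [Mj_zero, one_mul, add_zero]
    exact hf
  | succ j ih =>
    obtain ⟨κ, hκ, ih⟩ := ih
    refine ⟨2 * (-((n + j : ℕ) + 1) * κ * ev (-(m * π) ^ 2) (CS.th shR)), ?_, ?_⟩
    · have h1 : (-(((n + j : ℕ) : ℝ) + 1)) ≠ 0 := by
        apply neg_ne_zero.mpr
        positivity
      exact mul_ne_zero two_ne_zero (mul_ne_zero (mul_ne_zero h1 hκ) (ev_th_ne m hm))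
    · intro f v hf
      have h1 := ih f v hf
      have h2 : Pl m (n + j + 1) (CS.Mj j f) (κ * v) := by
        have e : n + 1 + j = n + j + 1 := by ring
        rwa [e] at h1
      have h3 := h2.th hm
      have h4 := (h3.C_mul 2).add (((h2.up (n' := n + j + 2) hm (by omega))).C_mul
        (2 * (j : ℝ) + 3))
      rw [← Mj_succ] at h4
      have e : n + 1 + (j + 1) = n + j + 2 := by ring
      rw [e]
      convert h4 using 1
      push_cast
      ring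

/-- the value at the pole of a combination of derivatives -/
theorem Pl.comb {m na nb : ℕ} (hm : 1 ≤ m) (c : ℕ → ℝ) (hc : c na ≠ 0) : ∃ κ : ℝ, κ ≠ 0 ∧
    ∀ (f : ℝ⟦X⟧) (v : ℝ), Pl m (nb + 1) f v →
      Pl m (nb + na + 1) (∑ j ∈ range (na + 1), C (c j) * CS.Mj j (CS.Sj j f)) (κ * v) := by
  obtain ⟨κ, hκ, h1⟩ := Pl.Mj (m := m) (n := nb) hm na
  have hpi := Real.pi_pos
  have hm0 : (m : ℝ) ≠ 0 := by
    exact_mod_cast (by omega : m ≠ 0)
  have h3 : (-(m * π) ^ 2 : ℝ) ≠ 0 := by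
    apply neg_ne_zero.mpr
    positivity
  refine ⟨c na * κ * ((-(m * π) ^ 2)⁻¹) ^ na,
    mul_ne_zero (mul_ne_zero hc hκ) (pow_ne_zero _ (inv_ne_zero h3)), fun f v hf => ?_⟩
  rw [sum_range_succ]
  have h4 : Pl m (nb + na + 1) (∑ j ∈ range na, C (c j) * CS.Mj j (CS.Sj j f)) 0 := by
    have h5 : ∀ j ∈ range na, Pl m (nb + na + 1) (C (c j) * CS.Mj j (CS.Sj j f)) 0 := by
      intro j hj
      rw [Finset.mem_range] at hj
      obtain ⟨κ', _, h6⟩ := Pl.Mj (m := m) (n := nb) hm j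
      have h7 := ((h6 _ _ (hf.Sj hm j)).C_mul (c j)).up (n' := nb + na + 1) hm (by omega)
      exact h7
    clear h1
    induction na with
    | zero => simpa using Pl.zero m _
    | succ k ih =>
      have : ∀ s : Finset ℕ, (∀ j ∈ s, Pl m (nb + (k + 1) + 1)
          (C (c j) * CS.Mj j (CS.Sj j f)) 0) →
          Pl m (nb + (k + 1) + 1) (∑ j ∈ s, C (c j) * CS.Mj j (CS.Sj j f)) 0 := by
        intro s
        induction s using Finset.induction_on with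
        | empty => intro _; simpa using Pl.zero m _
        | insert a s ha ih2 =>
          intro h8
          rw [sum_insert ha]
          have h9 := (h8 a (mem_insert_self a s)).add
            (ih2 fun j hj => h8 j (mem_insert_of_mem hj))
          simpa using h9
      exact this _ h5
  have h5 := (h1 _ _ (hf.Sj hm na)).C_mul (c na)
  have e : nb + 1 + na = nb + na + 1 := by ring
  rw [e] at h5
  have h6 := h4.add h5
  convert h6 using 1
  ring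

/-- `∏_{l ∈ a} sh(w / l²)` -/
def Ea (a : Finset ℕ) : ℝ⟦X⟧ := ∏ l ∈ a, rescale (1 / (l : ℝ) ^ 2) shR

/-- `∏_{l ∈ a} sh(w / l²) / sh(w)^(|a| - 2)` -/
def GR (a : Finset ℕ) : ℝ⟦X⟧ := Ea a * (shR⁻¹) ^ (a.card - 2)

theorem Ent.rescale {f : ℝ⟦X⟧} (hf : Ent f) (x : ℝ) : Ent (rescale x f) := by
  intro ρ hρ
  have h1 := hf (|x| * ρ) (by positivity)
  refine h1.congr ?_
  intro n
  rw [coeff_rescale, abs_mul, abs_pow, mul_pow]
  ring

theorem ev_rescale (x μ : ℝ) (f : ℝ⟦X⟧) : ev μ (PowerSeries.rescale x f) = ev (x * μ) f := by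
  unfold ev
  congr 1
  ext n
  rw [coeff_rescale, mul_pow]
  ring

theorem Ent.Ea (a : Finset ℕ) : Ent (Ea a) := Ent.prod a _ fun _ _ => Ent.shR.rescale _

theorem ev_Ea (a : Finset ℕ) (μ : ℝ) :
    ev μ (Ea a) = ∏ l ∈ a, ev (1 / (l : ℝ) ^ 2 * μ) shR := by
  rw [Ea, ev_prod (ρ := |μ|) le_rfl a _ fun l _ => (Ent.shR.rescale _) _ (abs_nonneg μ)]
  apply prod_congr rfl
  intro l _
  rw [ev_rescale]

theorem ev_Ea_eq_zero {a : Finset ℕ} (ha : ∀ l ∈ a, 2 ≤ l) {m : ℕ} (hm : 1 ≤ m) :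
    ev (-(m * π) ^ 2) (Ea a) = 0 ↔ ∃ l ∈ a, l ∣ m := by
  rw [ev_Ea, prod_eq_zero_iff]
  have hpi := Real.pi_pos
  have hm0 : (0 : ℝ) < m := by exact_mod_cast hm
  have key : ∀ l ∈ a, (ev (1 / (l : ℝ) ^ 2 * -(m * π) ^ 2) shR = 0 ↔ l ∣ m) := by
    intro l hl
    have hl0 : (0 : ℝ) < l := by
      have := ha l hl
      exact_mod_cast (by omega : 0 < l)
    have e : 1 / (l : ℝ) ^ 2 * -(m * π) ^ 2 = -(m * π / l) ^ 2 := by
      field_simp
    have hx : (m * π / l : ℝ) ≠ 0 := by positivity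
    rw [e, ← mul_right_inj' hx, ev_shR, MulZeroClass.mul_zero, Real.sin_eq_zero_iff]
    constructor
    · rintro ⟨n, hn⟩
      rw [eq_div_iff hl0.ne'] at hn
      have h1 : (n : ℝ) * l = m := by
        have h2 : π * ((n : ℝ) * l) = π * m := by linarith
        exact mul_left_cancel₀ hpi.ne' h2
      have h2 : (n : ℤ) * l = m := by exact_mod_cast h1
      have h3 : (l : ℤ) ∣ m := ⟨n, by rw [← h2]; ring⟩
      exact_mod_cast h3
    · rintro ⟨n, hn⟩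
      refine ⟨n, ?_⟩
      rw [hn]
      push_cast
      field_simp
  constructor
  · rintro ⟨l, hl, h⟩
    exact ⟨l, hl, (key l hl).mp h⟩
  · rintro ⟨l, hl, h⟩
    exact ⟨l, hl, (key l hl).mpr h⟩

theorem shR_const : constantCoeff shR ≠ 0 := by
  rw [← coeff_zero_eq_constantCoeff_apply, shR, coeff_mk]
  norm_num

theorem GR_pole (a : Finset ℕ) (m : ℕ) :
    Pl m (a.card - 2) (GR a) (ev (-(m * π) ^ 2) (Ea a)) := by
  have h1 : GR a * shR ^ (a.card - 2) = Ea a := by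
    rw [GR, mul_assoc, ← mul_pow, PowerSeries.inv_mul_cancel _ shR_const, one_pow, mul_one]
  rw [Pl, h1]
  exact ⟨Ent.Ea a, rfl⟩

end

end Pool.Agent.H765.CS
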