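import Mathlib
import Pool.Agent.H765.CS.Pole
import Pool.Agent.H765.CS.Elim

/-! The asymptotic behaviour of the coefficients of the Gaussian integrals. -/

namespace Pool.Agent.H765.CS

open PowerSeries Finset Nat Real

noncomputable section

/-- the comparison sequence -/
def tt (J : ℕ) (β : ℝ) (k : ℕ) : ℝ := ((2 * (k + J) + 1)‼ : ℕ) * β ^ k

theorem odd_succ (k : ℕ) : (2 * (k + 1) + 1)‼ = (2 * k + 3) * (2 * k + 1)‼ := by
  rw [show 2 * (k + 1) + 1 = (2 * k + 1) + 2 by ring, Nat.doubleFactorial_add_two]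

theorem tt_rapid (J : ℕ) {β : ℝ} (hβ : 0 < β) : Rapid (tt J β) := by
  have hs : ∀ k, tt J β (k + 1) = (2 * ((k : ℝ) + J) + 3) * β * tt J β k := by
    intro k
    rw [tt, tt, show k + 1 + J = (k + J) + 1 by ring, odd_succ]
    push_cast
    ring
  have hp : ∀ k, 0 < tt J β k := by
    intro k
    have : (0 : ℝ) < ((2 * (k + J) + 1)‼ : ℕ) := by exact_mod_cast Nat.doubleFactorial_pos _
    unfold tt
    positivity
  refine ⟨hp, fun k => ?_, β, hβ, fun k => ?_⟩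
  · rw [show k + 2 = (k + 1) + 1 by ring, hs (k + 1), hs k]
    push_cast
    have h1 := hp k
    have h2 : (0 : ℝ) ≤ (2 * ((k : ℝ) + J) + 3) * β * tt J β k * (β * tt J β k) := by positivity
    nlinarith
  · rw [hs]
    have h1 := hp k
    have h2 : (0 : ℝ) ≤ ((k : ℝ) + 2 * J + 2) * β * tt J β k := by positivity
    nlinarith

theorem odd_add_le (k M : ℕ) : (2 * (k + M) + 1)‼ ≤ (2 * k + 1)‼ * (2 * k + 2 * M + 1) ^ M := by
  induction M with
  | zero => simp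
  | succ M ih =>
    rw [← add_assoc, odd_succ]
    calc (2 * (k + M) + 3) * (2 * (k + M) + 1)‼ ≤
        (2 * (k + M) + 3) * ((2 * k + 1)‼ * (2 * k + 2 * M + 1) ^ M) := Nat.mul_le_mul_left _ ih
      _ = (2 * k + 1)‼ * ((2 * k + 2 * (M + 1) + 1) * (2 * k + 2 * M + 1) ^ M) := by ring
      _ ≤ (2 * k + 1)‼ * ((2 * k + 2 * (M + 1) + 1) * (2 * k + 2 * (M + 1) + 1) ^ M) := by
          apply Nat.mul_le_mul_left
          apply Nat.mul_le_mul_left
          exact Nat.pow_le_pow_left (by omega) M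
      _ = _ := by ring

theorem odd_mono (k J : ℕ) : (2 * k + 1)‼ ≤ (2 * (k + J) + 1)‼ := by
  induction J with
  | zero => simp
  | succ J ih =>
    rw [← add_assoc, odd_succ]
    calc (2 * k + 1)‼ ≤ (2 * (k + J) + 1)‼ := ih
      _ = 1 * (2 * (k + J) + 1)‼ := (one_mul _).symm
      _ ≤ _ := Nat.mul_le_mul_right _ (by omega)

/-- a bound for a polynomial times a geometric sequence -/
theorem poly_geo (M : ℕ) {r : ℝ} (h0 : 0 ≤ r) (h1 : r < 1) :
    ∃ C : ℝ, ∀ k : ℕ, ((2 * k + 2 * M + 1 : ℕ) : ℝ) ^ M * r ^ k ≤ C := by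
  have hs : Summable fun n : ℕ => (n : ℝ) ^ M * r ^ n :=
    summable_pow_mul_geometric_of_norm_lt_one M (r := r) (by
      rw [Real.norm_eq_abs, abs_of_nonneg h0]; exact h1)
  refine ⟨(2 * M + 3) ^ M * (1 + ∑' n : ℕ, (n : ℝ) ^ M * r ^ n), fun k => ?_⟩
  have hk : (k : ℝ) ^ M * r ^ k ≤ ∑' n : ℕ, (n : ℝ) ^ M * r ^ n :=
    hs.le_tsum k fun m _ => by positivity
  have hS : 0 ≤ ∑' n : ℕ, (n : ℝ) ^ M * r ^ n := tsum_nonneg fun n => by positivity
  have hrk : r ^ k ≤ 1 := pow_le_one₀ h0 h1.le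
  rcases Nat.eq_zero_or_pos k with hk0 | hk0
  · subst hk0
    rw [pow_zero, mul_one]
    calc ((2 * 0 + 2 * M + 1 : ℕ) : ℝ) ^ M ≤ (2 * M + 3) ^ M :=
          pow_le_pow_left₀ (by positivity) (by push_cast; linarith) M
      _ = (2 * M + 3) ^ M * (1 + 0) := by ring
      _ ≤ _ := by
          apply mul_le_mul_of_nonneg_left _ (by positivity)
          linarith
  · have h2 : ((2 * k + 2 * M + 1 : ℕ) : ℝ) ≤ (2 * M + 3) * k := by
      have : (1 : ℝ) ≤ k := by exact_mod_cast hk0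
      push_cast
      nlinarith [(Nat.cast_nonneg M : (0 : ℝ) ≤ M)]
    calc ((2 * k + 2 * M + 1 : ℕ) : ℝ) ^ M * r ^ k ≤ ((2 * M + 3) * k) ^ M * r ^ k :=
          mul_le_mul_of_nonneg_right (pow_le_pow_left₀ (by positivity) h2 M) (by positivity)
      _ = (2 * M + 3) ^ M * ((k : ℝ) ^ M * r ^ k) := by rw [mul_pow]; ring
      _ ≤ _ := by
          apply mul_le_mul_of_nonneg_left _ (by positivity)
          linarith

/-- negligible series -/
theorem Sm.negligible (J : ℕ) {β r : ℝ} (hβ : 0 < β) (h0 : 0 ≤ r) (h1 : r < 1) {f : ℝ⟦X⟧} {C : ℝ}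
    (hf : ∀ k : ℕ, |coeff k f| ≤ C * (((2 * k + 1)‼ : ℕ) * (β * r) ^ k)) (M : ℕ) :
    Sm (tt J β) M f := by
  obtain ⟨D, hD⟩ := poly_geo M h0 h1
  have hC0 : 0 ≤ C := by
    have h2 := (abs_nonneg _).trans (hf 0)
    simpa using h2
  refine ⟨C * (D * β ^ M), fun k => (hf (k + M)).trans ?_⟩
  rw [mul_assoc C]
  apply mul_le_mul_of_nonneg_left _ hC0
  have h3 : (((2 * (k + M) + 1)‼ : ℕ) : ℝ) ≤
      ((2 * k + 1)‼ : ℕ) * ((2 * k + 2 * M + 1 : ℕ) : ℝ) ^ M := by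
    exact_mod_cast odd_add_le k M
  have h4 : (((2 * k + 1)‼ : ℕ) : ℝ) ≤ ((2 * (k + J) + 1)‼ : ℕ) := by
    exact_mod_cast odd_mono k J
  have h5 : r ^ (k + M) ≤ r ^ k := pow_le_pow_of_le_one h0 h1.le (by omega)
  have h6 := hD k
  calc (((2 * (k + M) + 1)‼ : ℕ) : ℝ) * (β * r) ^ (k + M) =
      ((2 * (k + M) + 1)‼ : ℕ) * r ^ (k + M) * β ^ (k + M) := by
        rw [mul_pow]; ring
    _ ≤ (((2 * k + 1)‼ : ℕ) * ((2 * k + 2 * M + 1 : ℕ) : ℝ) ^ M) * r ^ k * β ^ (k + M) := by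
        apply mul_le_mul_of_nonneg_right _ (by positivity)
        exact mul_le_mul h3 h5 (by positivity) (by positivity)
    _ = (((2 * k + 1)‼ : ℕ) * (((2 * k + 2 * M + 1 : ℕ) : ℝ) ^ M * r ^ k)) * β ^ (k + M) := by
        ring
    _ ≤ (((2 * (k + J) + 1)‼ : ℕ) * D) * β ^ (k + M) := by
        apply mul_le_mul_of_nonneg_right _ (by positivity)
        exact mul_le_mul h4 h6 (by positivity) (by positivity)
    _ = D * β ^ M * tt J β k := by
        rw [tt, pow_add]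
        ring

theorem As.of_small {t : ℕ → ℝ} {ω : ℝ} {f : ℝ⟦X⟧} (h : ∀ M, Sm t M f) : As t ω f 0 0 := by
  intro M
  simpa using h M

theorem As.symm {t : ℕ → ℝ} {ω : ℝ} {f δ ε : ℝ⟦X⟧} (h : As t ω f δ ε) : As t (-ω) f ε δ := by
  intro M
  have h1 := h M
  rw [neg_neg]
  rwa [sub_sub, add_comm, ← sub_sub] at h1

theorem As.of_lead {t : ℕ → ℝ} (ht : Rapid t) {ω : ℝ} (hω : |ω| ≤ 1) {f : ℝ⟦X⟧}
    (A : Polynomial ℝ) (h : ∀ M, Sm t M (f - (A : ℝ⟦X⟧) * T t ω)) : As t ω f A 0 := by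
  intro M
  have h1 : f - (trunc M (A : ℝ⟦X⟧) : ℝ⟦X⟧) * T t ω - (trunc M (0 : ℝ⟦X⟧) : ℝ⟦X⟧) * T t (-ω) =
      (f - (A : ℝ⟦X⟧) * T t ω) +
        (((A - trunc M (A : ℝ⟦X⟧) : Polynomial ℝ)) : ℝ⟦X⟧) * T t ω := by
    rw [Polynomial.coe_sub, map_zero, Polynomial.coe_zero]
    ring
  rw [h1]
  apply (h M).add
  apply Sm.poly_high ht (Sm.T ω hω ht)
  intro d hd
  rw [Polynomial.coeff_sub, coeff_trunc, if_pos hd, Polynomial.coeff_coe, sub_self]

/-- series of small factorial growth have trivial asymptotics -/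
theorem As.gevrey (J : ℕ) {β ρ : ℝ} (hβ : 0 < β) (hρ0 : 0 ≤ ρ) (hρ : ρ < β) (ω : ℝ) {f : ℝ⟦X⟧}
    {C : ℝ} (hf : ∀ k : ℕ, |coeff k f| ≤ C * (((2 * k + 1)‼ : ℕ) * ρ ^ k)) :
    As (tt J β) ω f 0 0 := by
  apply As.of_small
  refine Sm.negligible J hβ (r := ρ / β) (by positivity) ((div_lt_one hβ).mpr hρ) (C := C) ?_
  intro k
  rw [mul_div_cancel₀ _ hβ.ne']
  exact hf k

theorem factorial_le_odd (k : ℕ) : k ! ≤ (2 * k + 1)‼ := by
  induction k with
  | zero => simp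
  | succ k ih =>
    rw [odd_succ, Nat.factorial_succ]
    exact Nat.mul_le_mul (by omega) ih

/-- `j! (2i+1)!! ≤ (2(i+j)+1)!!` -/
theorem factorial_mul_odd (i j : ℕ) : j ! * (2 * i + 1)‼ ≤ (2 * (i + j) + 1)‼ := by
  induction j with
  | zero => simp
  | succ j ih =>
    rw [← add_assoc, odd_succ, Nat.factorial_succ, mul_assoc]
    exact Nat.mul_le_mul (by omega) ih

/-- the Gaussian integral `∑ g_k (2k+1)!! P^k h^k` -/
def sg (a : Finset ℕ) (P : ℝ) : ℝ⟦X⟧ :=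
  PowerSeries.mk fun k => coeff k (GR a) * ((2 * k + 1)‼ : ℕ) * P ^ k

theorem W.shR_inv' {ρ : ℝ} (hρ : 0 ≤ ρ) (h : ρ < π ^ 2) : W ρ (CS.shR⁻¹) := by
  obtain ⟨C, hC⟩ := zc_bound
  have hC0 : 0 ≤ C := by
    have := (abs_nonneg _).trans (hC 0)
    simpa using this
  rw [CS.shR_inv]
  apply W.of_bdd hρ h (C := C + 2)
  intro n
  rw [coeff_mk]
  have h1 : |zc n| * (π ^ 2) ^ n = |zc n * (-π ^ 2) ^ n| := by
    rw [abs_mul, abs_pow, abs_neg, abs_of_nonneg (by positivity : (0 : ℝ) ≤ π ^ 2)]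
  rw [h1]
  have h2 := hC n
  have h3 : ((1 : ℝ) / 4) ^ n ≤ 1 := pow_le_one₀ (by norm_num) (by norm_num)
  have h4 : |zc n * (-π ^ 2) ^ n| ≤ |zc n * (-π ^ 2) ^ n - 2| + 2 := by
    have h5 := abs_add_le (zc n * (-π ^ 2) ^ n - 2) 2
    rw [sub_add_cancel] at h5
    have h6 : |(2 : ℝ)| = 2 := abs_of_pos (by norm_num)
    rwa [h6] at h5
  have h5 : C * (1 / 4) ^ n ≤ C * 1 := mul_le_mul_of_nonneg_left h3 hC0
  linarith

/-- the smaller parameters are negligible -/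
theorem sg_small (J : ℕ) (a : Finset ℕ) {P Ps : ℝ} (hP : |P| < Ps) (ω : ℝ) :
    As (tt J (Ps / π ^ 2)) ω (sg a P) 0 0 := by
  have hpi := Real.pi_pos
  have hPs : 0 < Ps := lt_of_le_of_lt (abs_nonneg _) hP
  apply As.of_small
  -- choose the radius
  have h1 : π ^ 2 * (|P| / Ps) < π ^ 2 := by
    have : |P| / Ps < 1 := (div_lt_one hPs).mpr hP
    nlinarith [sq_pos_of_pos hpi]
  obtain ⟨ρ, hρ1, hρ2⟩ := exists_between h1
  have hρ0 : 0 < ρ := lt_of_le_of_lt (by positivity) hρ1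
  have hW : W ρ (GR a) :=
    ((Ent.Ea a) ρ hρ0.le).mul hρ0.le ((W.shR_inv' hρ0.le hρ2).pow hρ0.le _)
  obtain ⟨C, hC0, hC⟩ := hW.bdd hρ0.le
  refine Sm.negligible J (by positivity) (r := π ^ 2 * (|P| / Ps) / ρ) (by positivity)
    ((div_lt_one hρ0).mpr hρ1) (C := C) ?_
  intro k
  have h2 := hC k
  have h3 : Ps / π ^ 2 * (π ^ 2 * (|P| / Ps) / ρ) = |P| / ρ := by
    field_simp
  rw [h3, sg, coeff_mk, abs_mul, abs_mul, abs_pow, Nat.abs_cast, div_pow]
  have h4 : |coeff k (GR a)| ≤ C / ρ ^ k := by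
    rw [le_div_iff₀ (by positivity)]
    exact h2
  calc |coeff k (GR a)| * ((2 * k + 1)‼ : ℕ) * |P| ^ k ≤
      C / ρ ^ k * ((2 * k + 1)‼ : ℕ) * |P| ^ k := by
        apply mul_le_mul_of_nonneg_right _ (by positivity)
        exact mul_le_mul_of_nonneg_right h4 (by positivity)
    _ = _ := by ring

theorem odd_Q (j k : ℕ) : (((2 * (k + j) + 1)‼ : ℕ) : ℝ) = ((2 * k + 1)‼ : ℕ) * Q j k := by
  induction j with
  | zero => simp [Q]
  | succ j ih =>
    rw [← add_assoc, odd_succ, Q, prod_range_succ, ← Q]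
    push_cast
    rw [ih]
    ring

/-- the leading asymptotic polynomial -/
def lead (J n : ℕ) (c : ℕ → ℝ) (x : ℝ) : Polynomial ℝ :=
  ∑ j ∈ range n, Polynomial.C (c j * x ^ (J - j)) * Polynomial.X ^ (J - j)

theorem sg_lead (J : ℕ) (a : Finset ℕ) (n : ℕ) (hJ : n ≤ J + 1) {Ps ω : ℝ}
    (hPs : 0 < Ps) (hω : ω = 1 ∨ ω = -1) (c : ℕ → ℝ)
    (hc : ∀ ρ, π ^ 2 < ρ → ρ < 4 * π ^ 2 →
      W ρ (GR a - ∑ j ∈ range n, C (c j) * Mj j (geo (π ^ 2)))) :
    As (tt J (Ps / π ^ 2)) ω (sg a (-ω * Ps)) (lead J n c (Ps / π ^ 2 * ω)) 0 := by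
  have hpi := Real.pi_pos
  have hp2 : (0 : ℝ) < π ^ 2 := by positivity
  have hβ : 0 < Ps / π ^ 2 := by positivity
  have ht := tt_rapid J hβ
  have hω1 : |ω| ≤ 1 := by rcases hω with rfl | rfl <;> norm_num
  have hω2 : ω * ω = 1 := by rcases hω with rfl | rfl <;> norm_num
  set x : ℝ := Ps / π ^ 2 * ω with hx
  apply As.of_lead ht hω1
  -- the remainder
  set e : ℝ⟦X⟧ := GR a - ∑ j ∈ range n, C (c j) * Mj j (geo (π ^ 2)) with he
  set r1 : ℝ⟦X⟧ := PowerSeries.mk fun k => coeff k e * ((2 * k + 1)‼ : ℕ) * (-ω * Ps) ^ k with hr1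
  set r2 : Polynomial ℝ := ∑ j ∈ range n, ∑ k ∈ range (J - j),
    Polynomial.C (c j * ((2 * (k + j) + 1)‼ : ℕ) * x ^ k) * Polynomial.X ^ k with hr2
  have key : sg a (-ω * Ps) - (lead J n c x : ℝ⟦X⟧) * T (tt J (Ps / π ^ 2)) ω =
      r1 + (r2 : ℝ⟦X⟧) := by
    ext k
    have h1 : coeff k (sg a (-ω * Ps)) = coeff k r1 +
        ∑ j ∈ range n, c j * ((2 * (k + j) + 1)‼ : ℕ) * x ^ k := by
      have h2 : coeff k (GR a) = coeff k e + ∑ j ∈ range n, c j * (Q j k * (-π ^ 2)⁻¹ ^ k) := by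
        rw [he, map_sub, map_sum, sub_add_eq_add_sub, eq_comm, sub_eq_iff_eq_add]
        congr 1
        apply sum_congr rfl
        intro j _
        rw [coeff_C_mul, Mj, coeff_mk, geo, coeff_mk]
      rw [sg, coeff_mk, hr1, coeff_mk, h2, add_mul, add_mul, sum_mul, sum_mul]
      congr 1
      apply sum_congr rfl
      intro j _
      rw [odd_Q]
      have h3 : (-π ^ 2)⁻¹ ^ k * (-ω * Ps) ^ k = x ^ k := by
        rw [← mul_pow, hx]
        congr 1
        field_simp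
      linear_combination (c j * Q j k * ((2 * k + 1)‼ : ℕ)) * h3
    have h4 : coeff k ((lead J n c x : ℝ⟦X⟧) * T (tt J (Ps / π ^ 2)) ω) =
        ∑ j ∈ range n, if J - j ≤ k then c j * ((2 * (k + j) + 1)‼ : ℕ) * x ^ k else 0 := by
      rw [lead, ← Polynomial.coeToPowerSeries.ringHom_apply, map_sum, sum_mul, map_sum]
      apply sum_congr rfl
      intro j hj
      rw [Finset.mem_range] at hj
      rw [Polynomial.coeToPowerSeries.ringHom_apply, Polynomial.coe_mul, Polynomial.coe_C, Polynomial.coe_pow, Polynomial.coe_X, mul_assoc,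
        coeff_C_mul, coeff_X_pow_mul']
      split_ifs with h5
      · rw [T, coeff_mk, tt, show k - (J - j) + J = k + j by omega]
        obtain ⟨d, rfl⟩ := Nat.exists_eq_add_of_le h5
        rw [Nat.add_sub_cancel_left, pow_add x]
        have h6 : x ^ d = ω ^ d * (Ps / π ^ 2) ^ d := by rw [hx, mul_pow]; ring
        rw [h6]
        ring
      · rw [MulZeroClass.mul_zero]
    have h5 : coeff k (r2 : ℝ⟦X⟧) =
        ∑ j ∈ range n, if k < J - j then c j * ((2 * (k + j) + 1)‼ : ℕ) * x ^ k else 0 := by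
      rw [Polynomial.coeff_coe, hr2, Polynomial.finsetSum_coeff]
      apply sum_congr rfl
      intro j _
      rw [Polynomial.finsetSum_coeff]
      simp only [Polynomial.coeff_C_mul, Polynomial.coeff_X_pow, mul_ite, mul_one,
        MulZeroClass.mul_zero]
      rw [sum_ite_eq]
      simp only [Finset.mem_range]
    rw [map_sub, map_add, h1, h4, h5, add_sub_assoc, ← sum_sub_distrib]
    congr 1
    apply sum_congr rfl
    intro j _
    rcases lt_or_ge k (J - j) with h6 | h6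
    · rw [if_neg (by omega), if_pos h6, sub_zero]
    · rw [if_pos h6, if_neg (by omega), sub_self]
  intro M
  rw [key]
  apply Sm.add _ (Sm.poly ht M r2)
  -- the remainder is negligible
  have hlt : π ^ 2 < 2 * π ^ 2 := by linarith
  have hW := hc (2 * π ^ 2) hlt (by linarith)
  obtain ⟨D, hD0, hD⟩ := hW.bdd (by positivity)
  refine Sm.negligible J hβ (r := 1 / 2) (by norm_num) (by norm_num) (C := D) ?_ M
  intro k
  have h1 := hD k
  rw [hr1, coeff_mk, abs_mul, abs_mul, abs_pow, Nat.abs_cast]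
  have h2 : |(-ω * Ps)| = Ps := by
    rw [abs_mul, abs_neg, abs_of_pos hPs]
    rcases hω with rfl | rfl <;> norm_num
  rw [h2]
  have h3 : |coeff k e| ≤ D / (2 * π ^ 2) ^ k := by
    rw [le_div_iff₀ (by positivity)]
    exact h1
  calc |coeff k e| * ((2 * k + 1)‼ : ℕ) * Ps ^ k ≤
      D / (2 * π ^ 2) ^ k * ((2 * k + 1)‼ : ℕ) * Ps ^ k := by
        apply mul_le_mul_of_nonneg_right _ (by positivity)
        exact mul_le_mul_of_nonneg_right h3 (by positivity)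
    _ = D * (((2 * k + 1)‼ : ℕ) * (Ps / π ^ 2 * (1 / 2)) ^ k) := by
        rw [mul_pow (Ps / π ^ 2), div_pow, mul_pow, one_div_pow]
        field_simp

end

end Pool.Agent.H765.CS
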