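import Mathlib
import Pool.Agent.H765.CS.Sig

/-! Multiplicative independence of the Gaussian integrals. -/

namespace Pool.Agent.H765.CS

open PowerSeries Finset Nat Real

noncomputable section

/-- at least three pairwise coprime integers `≥ 2` -/
structure IsFib (a : Finset ℕ) : Prop where
  card : 3 ≤ a.card
  two : ∀ l ∈ a, 2 ≤ l
  cop : ∀ l ∈ a, ∀ l' ∈ a, l ≠ l' → Nat.Coprime l l'

theorem neg_pi_sq : -(((1 : ℕ) : ℝ) * π) ^ 2 = -π ^ 2 := by
  rw [Nat.cast_one, one_mul]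

theorem ev_U_ne : ev (-π ^ 2) (Ln (π ^ 2) * shR⁻¹) ≠ 0 := by
  have hpi := Real.pi_pos
  have hp2 : (0 : ℝ) < π ^ 2 := by positivity
  have hμ : |-π ^ 2| ≤ π ^ 2 := by rw [abs_neg, abs_of_pos hp2]
  set U : ℝ⟦X⟧ := Ln (π ^ 2) * shR⁻¹ with hU
  have hW : ∀ ρ, 0 ≤ ρ → ρ < 4 * π ^ 2 → W ρ U := fun ρ h0 h1 => W.shR_inv h0 h1
  have h1 : U * shR = Ln (π ^ 2) := by
    rw [hU, mul_assoc, PowerSeries.inv_mul_cancel _ shR_const, mul_one]
  have h2 := congrArg (ev (-π ^ 2)) (congrArg th h1)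
  have w1 : W (π ^ 2) (th U) := (hW (2 * π ^ 2) (by positivity) (by linarith)).th hp2.le
    (by linarith)
  have w2 : W (π ^ 2) U := hW _ hp2.le (by linarith)
  have w3 : W (π ^ 2) shR := Ent.shR _ hp2.le
  have w4 : W (π ^ 2) (th shR) := Ent.shR.th _ hp2.le
  have hz : ev (-π ^ 2) shR = 0 := by
    have := ev_shR_zero 1 le_rfl
    rwa [neg_pi_sq] at this
  rw [th_mul, ev_add hμ (w1.mul hp2.le w3) (w2.mul hp2.le w4), ev_mul hμ w1 w3,
    ev_mul hμ w2 w4, hz, MulZeroClass.mul_zero, zero_add, th_Ln, ev_C_mul, ev_X] at h2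
  intro h0
  rw [h0, zero_mul] at h2
  have h3 : 1 / π ^ 2 * -π ^ 2 = -1 := by field_simp
  rw [h3] at h2
  norm_num at h2

theorem lead_data {a : Finset ℕ} (ha : IsFib a) : ∃ c : ℕ → ℝ, c (a.card - 3) ≠ 0 ∧
    ∀ ρ, π ^ 2 < ρ → ρ < 4 * π ^ 2 →
      W ρ (GR a - ∑ j ∈ range (a.card - 2), C (c j) * Mj j (geo (π ^ 2))) := by
  have hpi := Real.pi_pos
  have hp2 : (0 : ℝ) < π ^ 2 := by positivity
  have hf : ∀ ρ, π ^ 2 < ρ → ρ < 4 * π ^ 2 → W ρ (GR a * Ln (π ^ 2) ^ (a.card - 2)) := by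
    intro ρ h1 h2
    have h0 : 0 ≤ ρ := (hp2.trans h1).le
    have h3 : GR a * Ln (π ^ 2) ^ (a.card - 2) =
        Ea a * (Ln (π ^ 2) * shR⁻¹) ^ (a.card - 2) := by
      rw [GR, mul_pow]
      ring
    rw [h3]
    exact (Ent.Ea a ρ h0).mul h0 ((W.shR_inv h0 h2).pow h0 _)
  obtain ⟨c, _, h2, h3⟩ := single_pole (R := 4 * π ^ 2) hp2 (a.card - 2) (GR a) hf (by linarith)
  refine ⟨c, ?_, h2⟩
  have hcard := ha.card
  have h4 := h3 (a.card - 3) (by omega)
  intro h0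
  rw [h0, zero_mul] at h4
  have h5 : GR a * Ln (π ^ 2) ^ (a.card - 2) = Ea a * (Ln (π ^ 2) * shR⁻¹) ^ (a.card - 2) := by
    rw [GR, mul_pow]
    ring
  have hμ : |-π ^ 2| ≤ π ^ 2 := by rw [abs_neg, abs_of_pos hp2]
  have w2 : W (π ^ 2) (Ln (π ^ 2) * shR⁻¹) := W.shR_inv hp2.le (by linarith)
  rw [h5, ev_mul hμ (Ent.Ea a _ hp2.le) (w2.pow hp2.le _), ev_pow hμ w2] at h4
  rcases mul_eq_zero.mp h4.symm with h6 | h6
  · have h7 := (ev_Ea_eq_zero ha.two (m := 1) le_rfl).mp (by rw [neg_pi_sq]; exact h6)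
    obtain ⟨l, hl, hl2⟩ := h7
    have h8 := ha.two l hl
    have h9 := Nat.le_of_dvd one_pos hl2
    omega
  · exact pow_ne_zero _ ev_U_ne h6

theorem fib_eq {a b : Finset ℕ} (ha : IsFib a) (hb : IsFib b)
    (h : ∀ m : ℕ, 1 ≤ m → ((∃ l ∈ a, l ∣ m) ↔ (∃ l ∈ b, l ∣ m))) : a = b := by
  have key : ∀ a b : Finset ℕ, IsFib a → IsFib b →
      (∀ m : ℕ, 1 ≤ m → ((∃ l ∈ a, l ∣ m) ↔ (∃ l ∈ b, l ∣ m))) → ∀ l ∈ a, l ∈ b := by
    intro a b ha hb h l hl
    have h2 := ha.two l hl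
    obtain ⟨l', hl', h3⟩ := (h l (by omega)).mp ⟨l, hl, dvd_rfl⟩
    have h2' := hb.two l' hl'
    obtain ⟨l'', hl'', h4⟩ := (h l' (by omega)).mpr ⟨l', hl', dvd_rfl⟩
    have h5 : l'' = l := by
      by_contra hne
      have h6 := ha.cop l'' hl'' l hl hne
      have h7 : l'' ∣ 1 := by
        rw [← h6]
        exact Nat.dvd_gcd dvd_rfl (h4.trans h3)
      have h8 := Nat.le_of_dvd one_pos h7
      have h9 := ha.two l'' hl''
      omega
    subst h5
    have h6 : l' = l'' := Nat.dvd_antisymm h3 h4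
    rwa [h6] at hl'
  ext l
  exact ⟨key a b ha hb h l, key b a hb ha (fun m hm => (h m hm).symm) l⟩

theorem coeff_lead_mul (J n : ℕ) (hJ : n ≤ J + 1) (c : ℕ → ℝ) (x : ℝ) (b : Finset ℕ) (k : ℕ) :
    coeff (k + J) ((lead J n c x : ℝ⟦X⟧) * sg b (-π ^ 2 * x)) =
      x ^ J * ((2 * k + 1)‼ : ℕ) * (-π ^ 2 * x) ^ k *
        coeff k (∑ j ∈ range n, C (c j * (-π ^ 2) ^ j) * Mj j (Sj j (GR b))) := by
  rw [lead, ← Polynomial.coeToPowerSeries.ringHom_apply, map_sum, sum_mul, map_sum, map_sum,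
    mul_sum]
  apply sum_congr rfl
  intro j hj
  rw [Finset.mem_range] at hj
  rw [Polynomial.coeToPowerSeries.ringHom_apply, Polynomial.coe_mul, Polynomial.coe_C,
    Polynomial.coe_pow, Polynomial.coe_X, mul_assoc, coeff_C_mul, coeff_X_pow_mul',
    if_pos (by omega), show k + J - (J - j) = k + j by omega, sg, coeff_mk, odd_Q, coeff_C_mul,
    Mj, coeff_mk, Sj, coeff_mk]
  have h1 : x ^ J = x ^ (J - j) * x ^ j := by
    rw [← pow_add]
    congr 1
    omega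
  rw [h1, pow_add, mul_pow (-π ^ 2) x j]
  ring

theorem lead_ne (J n : ℕ) (hJ : n ≤ J) (c : ℕ → ℝ) (hc : c n ≠ 0) {x : ℝ} (hx : x ≠ 0) :
    (lead J (n + 1) c x : ℝ⟦X⟧) ≠ 0 := by
  intro h0
  have h1 := congrArg (coeff (J - n)) h0
  rw [Polynomial.coeff_coe, lead, Polynomial.finsetSum_coeff, sum_eq_single n] at h1
  · rw [Polynomial.coeff_C_mul, Polynomial.coeff_X_pow, if_pos rfl, mul_one, map_zero] at h1
    exact mul_ne_zero hc (pow_ne_zero _ hx) h1
  · intro j hj hjn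
    rw [Finset.mem_range] at hj
    rw [Polynomial.coeff_C_mul, Polynomial.coeff_X_pow, if_neg (by omega), MulZeroClass.mul_zero]
  · intro h2
    exact absurd (Finset.mem_range.mpr (by omega)) h2

/-- equality of the quotients implies equality of the fibres -/
theorem lead_inj {a b : Finset ℕ} (ha : IsFib a) (hb : IsFib b) (J : ℕ) {x : ℝ} (hx : x ≠ 0)
    (ca cb : ℕ → ℝ) (hca : ca (a.card - 3) ≠ 0) (hcb : cb (b.card - 3) ≠ 0)
    (hJa : a.card - 2 ≤ J + 1) (hJb : b.card - 2 ≤ J + 1)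
    (h : (lead J (a.card - 2) ca x : ℝ⟦X⟧) * sg b (-π ^ 2 * x) =
      (lead J (b.card - 2) cb x : ℝ⟦X⟧) * sg a (-π ^ 2 * x)) : a = b := by
  have hpi := Real.pi_pos
  have hp2 : (-π ^ 2 : ℝ) ≠ 0 := by
    apply neg_ne_zero.mpr
    positivity
  have hca3 := ha.card
  have hcb3 := hb.card
  obtain ⟨na, hna⟩ : ∃ na, a.card = na + 3 := ⟨a.card - 3, by omega⟩
  obtain ⟨nb, hnb⟩ : ∃ nb, b.card = nb + 3 := ⟨b.card - 3, by omega⟩
  rw [hna, show na + 3 - 3 = na by omega] at hca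
  rw [hnb, show nb + 3 - 3 = nb by omega] at hcb
  rw [hna, show na + 3 - 2 = na + 1 by omega] at hJa
  rw [hnb, show nb + 3 - 2 = nb + 1 by omega] at hJb
  rw [hna, hnb, show na + 3 - 2 = na + 1 by omega, show nb + 3 - 2 = nb + 1 by omega] at h
  have hser : ∑ j ∈ range (na + 1), C (ca j * (-π ^ 2) ^ j) * Mj j (Sj j (GR b)) =
      ∑ j ∈ range (nb + 1), C (cb j * (-π ^ 2) ^ j) * Mj j (Sj j (GR a)) := by
    ext k
    have h1 := congrArg (coeff (k + J)) h
    rw [coeff_lead_mul J _ hJa, coeff_lead_mul J _ hJb] at h1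
    have h2 : x ^ J * ((2 * k + 1)‼ : ℕ) * (-π ^ 2 * x) ^ k ≠ 0 := by
      apply mul_ne_zero (mul_ne_zero (pow_ne_zero _ hx) _) (pow_ne_zero _ (mul_ne_zero hp2 hx))
      exact_mod_cast (Nat.doubleFactorial_pos _).ne'
    exact mul_left_cancel₀ h2 h1
  apply fib_eq ha hb
  intro m hm
  rw [← ev_Ea_eq_zero ha.two hm, ← ev_Ea_eq_zero hb.two hm]
  obtain ⟨κ, hκ, h1⟩ := Pl.comb (m := m) (na := na) (nb := nb) hm
    (fun j => ca j * (-π ^ 2) ^ j) (mul_ne_zero hca (pow_ne_zero _ hp2))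
  obtain ⟨κ', hκ', h2⟩ := Pl.comb (m := m) (na := nb) (nb := na) hm
    (fun j => cb j * (-π ^ 2) ^ j) (mul_ne_zero hcb (pow_ne_zero _ hp2))
  have pa := GR_pole a m
  have pb := GR_pole b m
  rw [hna, show na + 3 - 2 = na + 1 by omega] at pa
  rw [hnb, show nb + 3 - 2 = nb + 1 by omega] at pb
  have h3 := (h1 _ _ pb).2
  have h4 := (h2 _ _ pa).2
  rw [hser, show nb + na + 1 = na + nb + 1 by ring, h4] at h3
  constructor
  · intro h5
    rw [h5, MulZeroClass.mul_zero] at h3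
    exact (mul_eq_zero.mp h3.symm).resolve_left hκ
  · intro h5
    rw [h5, MulZeroClass.mul_zero] at h3
    exact (mul_eq_zero.mp h3).resolve_left hκ'

/-- convergent series -/
def Cv (U : ℝ⟦X⟧) : Prop := ∃ C R : ℝ, 0 ≤ R ∧ ∀ k, |coeff k U| ≤ C * R ^ k

/-- series of factorial growth -/
def Gv (ρ : ℝ) (U : ℝ⟦X⟧) : Prop := ∃ C : ℝ, ∀ k : ℕ, |coeff k U| ≤ C * (((2 * k + 1)‼ : ℕ) * ρ ^ k)

theorem Gv.mul_cv {ρ : ℝ} (hρ : 0 < ρ) {U V : ℝ⟦X⟧} (hU : Gv ρ U) (hV : Cv V) : Gv ρ (U * V) := by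
  obtain ⟨C, hC⟩ := hU
  obtain ⟨D, R, hR, hD⟩ := hV
  have hC0 : 0 ≤ C := by
    have h2 := (abs_nonneg _).trans (hC 0)
    simpa using h2
  have hD0 : 0 ≤ D := by
    have h2 := (abs_nonneg _).trans (hD 0)
    simpa using h2
  refine ⟨C * D * Real.exp (R / ρ), fun k => ?_⟩
  rw [coeff_mul, Finset.Nat.sum_antidiagonal_eq_sum_range_succ
    (fun i j => coeff i U * coeff j V), ← Finset.sum_range_reflect]
  refine (abs_sum_le_sum_abs _ _).trans ?_
  have hterm : ∀ j ∈ range (k + 1), |coeff (k + 1 - 1 - j) U * coeff (k - (k + 1 - 1 - j)) V| ≤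
      (C * D * (((2 * k + 1)‼ : ℕ) * ρ ^ k)) * ((R / ρ) ^ j / (j ! : ℝ)) := by
    intro j hj
    rw [Finset.mem_range] at hj
    obtain ⟨i, rfl⟩ : ∃ i, k = i + j := ⟨k - j, by omega⟩
    rw [show i + j + 1 - 1 - j = i by omega, show i + j - i = j by omega, abs_mul]
    have hj0 : (0 : ℝ) < (j ! : ℝ) := by exact_mod_cast Nat.factorial_pos j
    have h3 : (j ! : ℝ) * ((2 * i + 1)‼ : ℕ) ≤ ((2 * (i + j) + 1)‼ : ℕ) := by
      exact_mod_cast factorial_mul_odd i j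
    calc |coeff i U| * |coeff j V| ≤ (C * (((2 * i + 1)‼ : ℕ) * ρ ^ i)) * (D * R ^ j) :=
          mul_le_mul (hC i) (hD j) (abs_nonneg _) (by positivity)
      _ = (C * D * ρ ^ (i + j)) * (((j ! : ℝ) * ((2 * i + 1)‼ : ℕ)) *
            ((R / ρ) ^ j / (j ! : ℝ))) := by
          rw [div_pow, pow_add]
          field_simp
      _ ≤ (C * D * ρ ^ (i + j)) * (((2 * (i + j) + 1)‼ : ℕ) * ((R / ρ) ^ j / (j ! : ℝ))) := by
          apply mul_le_mul_of_nonneg_left _ (by positivity)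
          exact mul_le_mul_of_nonneg_right h3 (by positivity)
      _ = _ := by ring
  refine (sum_le_sum hterm).trans ?_
  rw [← mul_sum]
  have hs : ∑ j ∈ range (k + 1), (R / ρ) ^ j / (j ! : ℝ) ≤ Real.exp (R / ρ) :=
    Real.sum_le_exp_of_nonneg (by positivity) _
  calc _ ≤ (C * D * (((2 * k + 1)‼ : ℕ) * ρ ^ k)) * Real.exp (R / ρ) :=
        mul_le_mul_of_nonneg_left hs (by positivity)
    _ = _ := by ring

theorem Gv.one {ρ : ℝ} (hρ : 0 < ρ) : Gv ρ 1 := by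
  refine ⟨1, fun k => ?_⟩
  rw [coeff_one]
  split_ifs with h
  · rw [h]
    simp
  · rw [abs_zero]
    positivity

theorem Cv.gv {ρ : ℝ} (hρ : 0 < ρ) {U : ℝ⟦X⟧} (hU : Cv U) : Gv ρ U := by
  have := (Gv.one hρ).mul_cv hρ hU
  rwa [one_mul] at this

/-- the sign -/
def sgn (b : Bool) : ℝ := if b then 1 else -1

/-- the series of a Seifert homology sphere -/
def ser (x : Finset ℕ × Bool) : ℝ⟦X⟧ := sg x.1 (sgn x.2 * ((∏ l ∈ x.1, l : ℕ) : ℝ))

theorem ser_const (x : Finset ℕ × Bool) : constantCoeff (ser x) = 1 := by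
  have h1 : constantCoeff shR = 1 := by
    rw [← coeff_zero_eq_constantCoeff_apply, shR, coeff_mk]
    norm_num
  rw [← coeff_zero_eq_constantCoeff_apply, ser, sg, coeff_mk, coeff_zero_eq_constantCoeff_apply,
    GR, Ea, map_mul, map_prod, map_pow, constantCoeff_inv, h1]
  have h2 : ∏ l ∈ x.1, constantCoeff (rescale (1 / (l : ℝ) ^ 2) shR) = 1 := by
    apply prod_eq_one
    intro l _
    rw [← coeff_zero_eq_constantCoeff_apply, coeff_rescale, pow_zero, one_mul,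
      coeff_zero_eq_constantCoeff_apply, h1]
  rw [h2]
  norm_num

theorem prod_pos_fib {a : Finset ℕ} (ha : IsFib a) : 0 < ∏ l ∈ a, l :=
  prod_pos fun l hl => by
    have := ha.two l hl
    omega

theorem indep {ρ : ℝ} (hρ : 0 < ρ) (n : ℕ) :
    ∀ (s : Finset (Finset ℕ × Bool)), s.card = n → (∀ x ∈ s, IsFib x.1) →
    (∀ x ∈ s, ρ < ((∏ l ∈ x.1, l : ℕ) : ℝ) / π ^ 2) →
    ∀ (m m' : Finset ℕ × Bool → ℕ) (U V : ℝ⟦X⟧), Gv ρ U → Gv ρ V → U ≠ 0 →
    U * ∏ x ∈ s, ser x ^ m x = V * ∏ x ∈ s, ser x ^ m' x → ∀ x ∈ s, m x = m' x := by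
  induction n with
  | zero =>
    intro s hs _ _ m m' U V _ _ _ _ x hx
    rw [Finset.card_eq_zero] at hs
    rw [hs] at hx
    exact absurd hx (Finset.notMem_empty x)
  | succ n ih =>
    intro s hcard hs hsρ m m' U V hU hV hU0 rel
    have hne : s.Nonempty := by
      rw [← Finset.card_pos]
      omega
    obtain ⟨x, hx, hmax⟩ := s.exists_max_image (fun y => ∏ l ∈ y.1, l) hne
    have hpi := Real.pi_pos
    have hp2 : (0 : ℝ) < π ^ 2 := by positivity
    set Ps : ℝ := ((∏ l ∈ x.1, l : ℕ) : ℝ) with hPs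
    have hPs0 : 0 < Ps := by
      rw [hPs]
      exact_mod_cast prod_pos_fib (hs x hx)
    set ω : ℝ := -sgn x.2 with hω
    have hω1 : ω = 1 ∨ ω = -1 := by
      rw [hω, sgn]
      split_ifs
      · right; rfl
      · left; norm_num
    have hω0 : ω ≠ 0 := by rcases hω1 with h | h <;> rw [h] <;> norm_num
    have hβ : 0 < Ps / π ^ 2 := by positivity
    set J : ℕ := s.sup (fun y => y.1.card) with hJ
    have hJle : ∀ y ∈ s, y.1.card - 2 ≤ J + 1 := by
      intro y hy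
      have h1 : y.1.card ≤ J := Finset.le_sup (f := fun y : Finset ℕ × Bool => y.1.card) hy
      omega
    set t : ℕ → ℝ := tt J (Ps / π ^ 2) with ht
    have hrap : Rapid t := tt_rapid J hβ
    have hdata : ∀ y : Finset ℕ × Bool, ∃ c : ℕ → ℝ, y ∈ s → (c (y.1.card - 3) ≠ 0 ∧
        ∀ ρ, π ^ 2 < ρ → ρ < 4 * π ^ 2 →
        W ρ (GR y.1 - ∑ j ∈ range (y.1.card - 2), C (c j) * Mj j (geo (π ^ 2)))) := by
      intro y
      by_cases hy : y ∈ s
      · obtain ⟨c, hc⟩ := lead_data (hs y hy)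
        exact ⟨c, fun _ => hc⟩
      · exact ⟨0, fun h => absurd h hy⟩
    choose c hc using hdata
    set xx : ℝ := Ps / π ^ 2 * ω with hxx
    have hxx0 : xx ≠ 0 := mul_ne_zero hβ.ne' hω0
    set A : Finset ℕ × Bool → ℝ⟦X⟧ := fun y =>
      if ((∏ l ∈ y.1, l : ℕ) : ℝ) = Ps ∧ y.2 = x.2 then
        (lead J (y.1.card - 2) (c y) xx : ℝ⟦X⟧) else 0 with hA
    have hlead : ∀ y ∈ s, ((∏ l ∈ y.1, l : ℕ) : ℝ) = Ps → ∀ ω' : ℝ, ω' = 1 ∨ ω' = -1 →
        sgn y.2 = -ω' → As t ω' (ser y) (lead J (y.1.card - 2) (c y) (Ps / π ^ 2 * ω')) 0 := by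
      intro y hy h1 ω' hω' h2
      have h3 := sg_lead J y.1 (y.1.card - 2) (hJle y hy) hPs0 hω' (c y) (hc y hy).2
      rw [ser, h1, h2]
      exact h3
    have hσ : ∀ y ∈ s, Dv t ω (ser y) (A y) := by
      intro y hy
      rcases lt_or_eq_of_le (hmax y hy) with h1 | h1
      · have h2 : ((∏ l ∈ y.1, l : ℕ) : ℝ) < Ps := by
          rw [hPs]
          exact_mod_cast h1
        rw [hA]
        simp only
        rw [if_neg (fun h => h2.ne h.1)]
        refine ⟨0, sg_small J y.1 ?_ ω⟩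
        have h3 : |sgn y.2| = 1 := by
          rw [sgn]
          split_ifs <;> norm_num
        rw [abs_mul, h3, one_mul, Nat.abs_cast]
        exact h2
      · have h2 : ((∏ l ∈ y.1, l : ℕ) : ℝ) = Ps := by
          rw [hPs, h1]
        by_cases h3 : y.2 = x.2
        · rw [hA]
          simp only
          rw [if_pos ⟨h2, h3⟩]
          refine ⟨0, hlead y hy h2 ω hω1 ?_⟩
          rw [hω, neg_neg, h3]
        · rw [hA]
          simp only
          rw [if_neg (fun h => h3 h.2)]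
          have h4 : sgn y.2 = -(-ω) := by
            rw [hω, neg_neg, sgn, sgn]
            rcases Bool.eq_false_or_eq_true y.2 with h5 | h5 <;>
              rcases Bool.eq_false_or_eq_true x.2 with h6 | h6 <;>
              simp [h5, h6] at h3 ⊢
          have h5 := (hlead y hy h2 (-ω) (by
            rcases hω1 with h | h
            · right; rw [h]
            · left; rw [h, neg_neg]) h4).symm
          rw [neg_neg] at h5
          exact ⟨_, h5⟩
    have hA0 : ∀ y ∈ s, Dv t ω (A y) 0 := by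
      intro y _
      rw [hA]
      simp only
      split_ifs
      · exact Dv.of_poly hrap ω _
      · exact Dv.zero hrap ω
    have hunit : ∀ y ∈ s, constantCoeff (ser y) ≠ 0 := by
      intro y _
      rw [ser_const]
      exact one_ne_zero
    have hser : ∀ y, ser y ≠ 0 := by
      intro y h0
      have h1 := ser_const y
      rw [h0, map_zero] at h1
      exact zero_ne_one h1
    have hAx : A x = (lead J (x.1.card - 2) (c x) xx : ℝ⟦X⟧) := by
      rw [hA]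
      simp only
      rw [if_pos ⟨hPs.symm, trivial⟩]
    have hAx0 : A x ≠ 0 := by
      rw [hAx]
      have h1 := (hs x hx).card
      have h2 := hJle x hx
      rw [show x.1.card - 2 = (x.1.card - 3) + 1 by omega]
      exact lead_ne J _ (by omega) _ (hc x hx).1 hxx0
    obtain ⟨CU, hbU⟩ := hU
    obtain ⟨CV, hbV⟩ := hV
    have hρx : ρ < Ps / π ^ 2 := hsρ x hx
    have hUV : ser x ≠ 0 := hser x
    have hmx : m x = m' x := by
      apply elim hrap hω1 s ser A hσ hA0 hunit m m'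
        ⟨0, As.gevrey J hβ hρ.le hρx ω hbU⟩ ⟨0, As.gevrey J hβ hρ.le hρx ω hbV⟩ hU0 rel hx hAx0
      intro y hy hyx h1
      by_cases h2 : ((∏ l ∈ y.1, l : ℕ) : ℝ) = Ps ∧ y.2 = x.2
      · have hAy : A y = (lead J (y.1.card - 2) (c y) xx : ℝ⟦X⟧) := by
          rw [hA]
          simp only
          rw [if_pos h2]
        have e1 : ser y = sg y.1 (-π ^ 2 * xx) := by
          rw [ser, h2.1, h2.2, hxx, hω]
          congr 1
          field_simp
        have e2 : ser x = sg x.1 (-π ^ 2 * xx) := by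
          rw [ser, hxx, hω]
          congr 1
          rw [← hPs]
          field_simp
        rw [hAx, hAy, e1, e2] at h1
        have h3 := lead_inj (hs x hx) (hs y hy) J hxx0 (c x) (c y) (hc x hx).1 (hc y hy).1
          (hJle x hx) (hJle y hy) h1
        exact hyx (Prod.ext h3.symm h2.2)
      · have hAy : A y = 0 := by
          rw [hA]
          simp only
          rw [if_neg h2]
        rw [hAy, zero_mul] at h1
        exact mul_ne_zero hAx0 (hser y) h1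
    -- cancel
    have rel2 : U * ∏ y ∈ s.erase x, ser y ^ m y = V * ∏ y ∈ s.erase x, ser y ^ m' y := by
      rw [← mul_prod_erase s _ hx, ← mul_prod_erase s (fun y => ser y ^ m' y) hx, hmx] at rel
      have h1 : ser x ^ m' x ≠ 0 := pow_ne_zero _ (hser x)
      apply mul_left_cancel₀ h1
      linear_combination rel
    have h3 := ih (s.erase x) (by rw [card_erase_of_mem hx, hcard]; rfl)
      (fun y hy => hs y (mem_of_mem_erase hy)) (fun y hy => hsρ y (mem_of_mem_erase hy))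
      m m' U V ⟨CU, hbU⟩ ⟨CV, hbV⟩ hU0 rel2
    intro y hy
    by_cases h4 : y = x
    · rw [h4]
      exact hmx
    · exact h3 y (mem_erase.mpr ⟨h4, hy⟩)

end

end Pool.Agent.H765.CS
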