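import Mathlib
import Pool.Agent.H765.MM.Gauss

/-! Formal Gaussian integrals: identities are checked on exponentials. -/

namespace Pool.Agent.H765.CS

open PowerSeries GK MM Nat

noncomputable section

/-- linear maps of which every coefficient depends on finitely many coefficients -/
structure Um (T : ℚ⟦X⟧ → ℚ⟦X⟧) : Prop where
  add : ∀ f g, T (f + g) = T f + T g
  smul : ∀ (a : ℚ) f, T (C a * f) = C a * T f
  fin : ∀ m, ∃ K, ∀ g : ℚ⟦X⟧, (∀ k ≤ K, coeff k g = 0) → coeff m (T g) = 0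

theorem Um.sum {T : ℚ⟦X⟧ → ℚ⟦X⟧} (hT : Um T) {ι : Type*} (s : Finset ι) (a : ι → ℚ)
    (f : ι → ℚ⟦X⟧) : T (∑ i ∈ s, C (a i) * f i) = ∑ i ∈ s, C (a i) * T (f i) := by
  classical
  have h0 : T 0 = 0 := by
    have := hT.smul 0 0
    simpa using this
  induction s using Finset.induction_on with
  | empty => simpa using h0
  | insert a s ha ih => rw [Finset.sum_insert ha, Finset.sum_insert ha, hT.add, hT.smul, ih]

theorem Um.sub {T T' : ℚ⟦X⟧ → ℚ⟦X⟧} (h : Um T) (h' : Um T') : Um (fun g => T g - T' g) := by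
  refine ⟨fun f g => ?_, fun a f => ?_, fun m => ?_⟩
  · rw [h.add, h'.add]; ring
  · rw [h.smul, h'.smul]; ring
  · obtain ⟨K, hK⟩ := h.fin m
    obtain ⟨K', hK'⟩ := h'.fin m
    refine ⟨max K K', fun g hg => ?_⟩
    rw [map_sub, hK g fun k hk => hg k (hk.trans (le_max_left _ _)),
      hK' g fun k hk => hg k (hk.trans (le_max_right _ _)), sub_zero]

theorem Um.sub_apply {T : ℚ⟦X⟧ → ℚ⟦X⟧} (h : Um T) (f g : ℚ⟦X⟧) : T (f - g) = T f - T g := by
  have h1 := h.smul (-1) g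
  have h2 : (C (-1 : ℚ) : ℚ⟦X⟧) = -1 := by rw [map_neg, map_one]
  rw [h2] at h1
  rw [show f - g = f + -1 * g by ring, h.add, h1]
  ring

theorem Um.zero {T : ℚ⟦X⟧ → ℚ⟦X⟧} (hT : Um T) (h : ∀ c : ℕ, T (hexp c) = 0) (g : ℚ⟦X⟧) :
    T g = 0 := by
  ext m
  obtain ⟨K, hK⟩ := hT.fin m
  have key : ∀ g : ℚ⟦X⟧, coeff m (T g) =
      ∑ k ∈ Finset.range (K + 1), coeff k g * coeff m (T (X ^ k)) := by
    intro g
    have h1 : g = (∑ k ∈ Finset.range (K + 1), C (coeff k g) * X ^ k) +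
        (g - ∑ k ∈ Finset.range (K + 1), C (coeff k g) * X ^ k) := by ring
    have h2 : coeff m (T (g - ∑ k ∈ Finset.range (K + 1), C (coeff k g) * X ^ k)) = 0 := by
      apply hK
      intro k hk
      rw [map_sub, map_sum, Finset.sum_eq_single k]
      · rw [coeff_C_mul, coeff_X_pow, if_pos rfl, mul_one, sub_self]
      · intro j _ hj
        rw [coeff_C_mul, coeff_X_pow, if_neg hj.symm, mul_zero]
      · intro h3
        exact absurd (Finset.mem_range.mpr (by omega)) h3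
    conv_lhs => rw [h1]
    rw [hT.add, map_add, h2, add_zero, hT.sum, map_sum]
    apply Finset.sum_congr rfl
    intro k _
    rw [coeff_C_mul]
  set P : Polynomial ℚ := ∑ k ∈ Finset.range (K + 1),
    Polynomial.C (coeff m (T (X ^ k)) * (1 / (k ! : ℚ))) * Polynomial.X ^ k with hP
  have hP0 : P = 0 := by
    apply Polynomial.eq_zero_of_infinite_isRoot
    apply Set.infinite_of_injective_forall_mem (f := fun c : ℕ => (c : ℚ)) Nat.cast_injective
    intro c
    rw [Set.mem_ofPred_eq, Polynomial.IsRoot, hP, Polynomial.eval_finsetSum]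
    have h1 := key (hexp c)
    rw [h c, map_zero] at h1
    rw [eq_comm, h1]
    apply Finset.sum_congr rfl
    intro k _
    rw [Polynomial.eval_mul, Polynomial.eval_C, Polynomial.eval_pow, Polynomial.eval_X,
      coeff_hexp]
    ring
  rw [key, map_zero]
  apply Finset.sum_eq_zero
  intro k hk
  have h1 := congrArg (Polynomial.coeff · k) hP0
  simp only [hP, Polynomial.finsetSum_coeff, Polynomial.coeff_C_mul, Polynomial.coeff_X_pow,
    mul_ite, mul_one, mul_zero, Polynomial.coeff_zero] at h1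
  rw [Finset.sum_ite_eq, if_pos hk] at h1
  have h2 : (1 / (k ! : ℚ)) ≠ 0 := by positivity
  rw [(mul_eq_zero.mp h1).resolve_right h2, mul_zero]

/-- identities can be checked on the exponentials -/
theorem Um.eq {T T' : ℚ⟦X⟧ → ℚ⟦X⟧} (h : Um T) (h' : Um T')
    (he : ∀ c : ℕ, T (hexp c) = T' (hexp c)) (g : ℚ⟦X⟧) : T g = T' g := by
  have h1 := (h.sub h').zero (fun c => by rw [he c, sub_self]) g
  exact sub_eq_zero.mp h1

theorem Um.mul_left {T : ℚ⟦X⟧ → ℚ⟦X⟧} (h : Um T) (a : ℚ⟦X⟧) : Um (fun g => a * T g) := by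
  refine ⟨fun f g => ?_, fun b f => ?_, fun m => ?_⟩
  · rw [h.add, mul_add]
  · rw [h.smul]; ring
  · choose K hK using h.fin
    refine ⟨(Finset.range (m + 1)).sup K, fun g hg => ?_⟩
    rw [coeff_mul]
    apply Finset.sum_eq_zero
    rintro ⟨i, j⟩ hij
    rw [Finset.HasAntidiagonal.mem_antidiagonal] at hij
    simp only at hij ⊢
    rw [hK j g, mul_zero]
    intro k hk
    apply hg
    exact hk.trans (Finset.le_sup (f := K) (Finset.mem_range.mpr (by omega)))

theorem Um.comp_mul {T : ℚ⟦X⟧ → ℚ⟦X⟧} (h : Um T) (a : ℚ⟦X⟧) : Um (fun g => T (a * g)) := by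
  refine ⟨fun f g => ?_, fun b f => ?_, fun m => ?_⟩
  · rw [mul_add, h.add]
  · rw [mul_left_comm, h.smul]
  · obtain ⟨K, hK⟩ := h.fin m
    refine ⟨K, fun g hg => hK _ fun k hk => ?_⟩
    rw [coeff_mul]
    apply Finset.sum_eq_zero
    rintro ⟨i, j⟩ hij
    rw [Finset.HasAntidiagonal.mem_antidiagonal] at hij
    simp only at hij ⊢
    rw [hg j (by omega), mul_zero]

/-- the Gaussian integral `z^(2i) ↦ (2i-1)!! v^i h^i` -/
def Ev (v : ℚ) (g : ℚ⟦X⟧) : ℚ⟦X⟧ :=
  PowerSeries.mk fun i => ((2 * i - 1)‼ : ℚ) * v ^ i * coeff (2 * i) g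

theorem Um.Ev (v : ℚ) : Um (Ev v) := by
  refine ⟨fun f g => ?_, fun a f => ?_, fun m => ⟨2 * m, fun g hg => ?_⟩⟩
  · ext i
    rw [map_add, CS.Ev, CS.Ev, CS.Ev, coeff_mk, coeff_mk, coeff_mk, map_add]
    ring
  · ext i
    rw [coeff_C_mul, CS.Ev, CS.Ev, coeff_mk, coeff_mk, coeff_C_mul]
    ring
  · rw [CS.Ev, coeff_mk, hg (2 * m) le_rfl, mul_zero]

theorem two_mul_factorial (i : ℕ) : ((2 * i)! : ℚ) = ((2 * i - 1)‼ : ℚ) * 2 ^ i * (i ! : ℚ) := by
  rcases i with _ | i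
  · simp
  · have h1 := Nat.factorial_eq_mul_doubleFactorial (2 * i + 1)
    rw [show 2 * i + 1 + 1 = 2 * (i + 1) by ring, Nat.doubleFactorial_two_mul] at h1
    rw [h1, show 2 * (i + 1) - 1 = 2 * i + 1 by omega]
    push_cast
    ring

theorem Ev_hexp (v b : ℚ) : Ev v (hexp b) = hexp (b ^ 2 * v / 2) := by
  ext i
  rw [Ev, coeff_mk, coeff_hexp, coeff_hexp, two_mul_factorial]
  have h1 : ((2 * i - 1)‼ : ℚ) ≠ 0 := by
    exact_mod_cast (Nat.doubleFactorial_pos _).ne'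
  have h2 : (i ! : ℚ) ≠ 0 := by positivity
  rw [div_pow, mul_pow, ← pow_mul]
  field_simp

/-- the coefficient of `y^l` in `e^{A h} E^x_v[g(x + w y)]` -/
def Fl (A v w : ℚ) (l : ℕ) (g : ℚ⟦X⟧) : ℚ⟦X⟧ := hexp A * PowerSeries.mk fun i =>
  w ^ l * (((l + 2 * i)! : ℚ) / ((l ! : ℚ) * 2 ^ i * (i ! : ℚ))) * v ^ i * coeff (l + 2 * i) g

theorem Fl_add (A v w : ℚ) (l : ℕ) (f g : ℚ⟦X⟧) :
    Fl A v w l (f + g) = Fl A v w l f + Fl A v w l g := by
  rw [Fl, Fl, Fl, ← mul_add]
  congr 1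
  ext i
  rw [map_add, coeff_mk, coeff_mk, coeff_mk, map_add]
  ring

theorem Fl_smul (A v w : ℚ) (l : ℕ) (a : ℚ) (g : ℚ⟦X⟧) :
    Fl A v w l (C a * g) = C a * Fl A v w l g := by
  rw [Fl, Fl, mul_left_comm]
  congr 1
  ext i
  rw [coeff_C_mul, coeff_mk, coeff_mk, coeff_C_mul]
  ring

theorem Fl_fin (A v w : ℚ) (l m : ℕ) (g : ℚ⟦X⟧) (hg : ∀ k ≤ l + 2 * m, coeff k g = 0) :
    ∀ j ≤ m, coeff j (Fl A v w l g) = 0 := by
  intro j hj
  rw [Fl, coeff_mul]
  apply Finset.sum_eq_zero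
  rintro ⟨a, b⟩ hab
  rw [Finset.HasAntidiagonal.mem_antidiagonal] at hab
  simp only at hab ⊢
  rw [coeff_mk, hg _ (by omega), mul_zero, mul_zero]

theorem Fl_hexp (A v w : ℚ) (l : ℕ) (c : ℚ) : Fl A v w l (hexp c) =
    C ((w * c) ^ l * (1 / (l ! : ℚ))) * hexp (A + c ^ 2 * v / 2) := by
  rw [Fl, hexp_add, mul_left_comm]
  congr 1
  ext i
  rw [coeff_mk, coeff_C_mul, coeff_hexp, coeff_hexp, mul_pow, pow_add, pow_mul, div_pow, mul_pow]
  have h1 : ((l + 2 * i)! : ℚ) ≠ 0 := by positivity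
  have h2 : (i ! : ℚ) ≠ 0 := by positivity
  have h3 : (l ! : ℚ) ≠ 0 := by positivity
  field_simp

/-- `e^{A h} E^x_v[g(x + v N h)] = e^{A h - N² v h/2} E_v[e^{N x} g(x)]` -/
theorem shift_eq (A v N : ℚ) (g : ℚ⟦X⟧) :
    PowerSeries.mk (fun m => ∑ l ∈ Finset.range (m + 1), coeff (m - l) (Fl A v v l g) * N ^ l) =
      hexp (A - N ^ 2 * v / 2) * Ev v (hexp N * g) := by
  have h1 : Um (fun g => PowerSeries.mk (fun m => ∑ l ∈ Finset.range (m + 1),
      coeff (m - l) (Fl A v v l g) * N ^ l)) := by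
    refine ⟨fun f g => ?_, fun a f => ?_, fun m => ⟨3 * m, fun g hg => ?_⟩⟩
    · ext m
      rw [map_add, coeff_mk, coeff_mk, coeff_mk, ← Finset.sum_add_distrib]
      apply Finset.sum_congr rfl
      intro l _
      rw [Fl_add, map_add, add_mul]
    · ext m
      rw [coeff_C_mul, coeff_mk, coeff_mk, Finset.mul_sum]
      apply Finset.sum_congr rfl
      intro l _
      rw [Fl_smul, coeff_C_mul, mul_assoc]
    · rw [coeff_mk]
      apply Finset.sum_eq_zero
      intro l hl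
      rw [Finset.mem_range] at hl
      rw [Fl_fin A v v l m g (fun k hk => hg k (by omega)) (m - l) (by omega), zero_mul]
  have h2 : Um (fun g => hexp (A - N ^ 2 * v / 2) * Ev v (hexp N * g)) :=
    ((Um.Ev v).comp_mul _).mul_left _
  refine Um.eq h1 h2 (fun c => ?_) g
  rw [← hexp_add, Ev_hexp, ← hexp_add,
    show A - N ^ 2 * v / 2 + (N + (c : ℚ)) ^ 2 * v / 2 = v * c * N + (A + (c : ℚ) ^ 2 * v / 2) by
      ring, hexp_add]
  ext m
  rw [coeff_mk, coeff_mul, Finset.Nat.sum_antidiagonal_eq_sum_range_succ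
    (fun i j => coeff i (hexp (v * c * N)) * coeff j (hexp (A + (c : ℚ) ^ 2 * v / 2)))]
  apply Finset.sum_congr rfl
  intro l _
  rw [Fl_hexp, coeff_C_mul, coeff_hexp (v * c * N)]
  rw [mul_pow (v * (c : ℚ)) N]
  ring

/-- the Gaussian integral over `y` -/
theorem gauss_eq (A v w n c0 : ℚ) (n' : ℤ) (hn : (n' : ℚ) = n) (hn0 : n ≠ 0) (hc0 : c0 ≠ 0)
    (hV : v - n * w ^ 2 = w * c0) (g : ℚ⟦X⟧) :
    gauss n' (fun l b => coeff b (Fl A v w l g)) =
      hexp (A - 1 / (2 * n) - w / (2 * c0)) *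
        Ev (w * c0) ((hexp (-1 / c0) - hexp (1 / c0)) * g) := by
  have h1 : Um (fun g => gauss n' (fun l b => coeff b (Fl A v w l g))) := by
    refine ⟨fun f g => ?_, fun a f => ?_, fun m => ⟨4 * m, fun g hg => ?_⟩⟩
    · ext m
      rw [map_add, gauss, gauss, gauss, coeff_mk, coeff_mk, coeff_mk, ← Finset.sum_add_distrib]
      apply Finset.sum_congr rfl
      intro k _
      rw [← mul_add, ← Finset.sum_add_distrib]
      congr 1
      apply Finset.sum_congr rfl
      intro s _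
      rw [Fl_add, map_add, mul_add]
    · ext m
      rw [coeff_C_mul, gauss, gauss, coeff_mk, coeff_mk, Finset.mul_sum]
      apply Finset.sum_congr rfl
      intro k _
      rw [mul_left_comm]
      congr 1
      rw [Finset.mul_sum]
      apply Finset.sum_congr rfl
      intro s _
      rw [Fl_smul, coeff_C_mul]
      ring
    · rw [gauss, coeff_mk]
      apply Finset.sum_eq_zero
      intro k hk
      rw [Finset.mem_range] at hk
      rw [Finset.sum_eq_zero, mul_zero]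
      intro s _
      rw [Fl_fin A v w (2 * k - s) m g (fun j hj => hg j (by omega)) (m - k) (by omega), mul_zero]
  have h2 : Um (fun g => hexp (A - 1 / (2 * n) - w / (2 * c0)) *
      Ev (w * c0) ((hexp (-1 / c0) - hexp (1 / c0)) * g)) :=
    ((Um.Ev _).comp_mul _).mul_left _
  refine Um.eq h1 h2 (fun c => ?_) g
  -- both sides on the exponential
  have hL : gauss n' (fun l b => coeff b (Fl A v w l (hexp c))) =
      Ev (-n) (hexp (w * c + 1 / n) - hexp (w * c - 1 / n)) * hexp (A + (c : ℚ) ^ 2 * v / 2) := by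
    ext m
    rw [gauss, coeff_mk, coeff_mul, Finset.Nat.sum_antidiagonal_eq_sum_range_succ
      (fun i j => coeff i (Ev (-n) (hexp (w * c + 1 / n) - hexp (w * c - 1 / n))) *
        coeff j (hexp (A + (c : ℚ) ^ 2 * v / 2)))]
    apply Finset.sum_congr rfl
    intro k _
    rw [Ev, coeff_mk, hn, mul_assoc (((2 * k - 1)‼ : ℚ) * (-n) ^ k)]
    congr 1
    have h3 : hexp (w * c + 1 / n) - hexp (w * c - 1 / n) =
        (hexp (1 / n) - hexp (-(1 / n))) * hexp (w * c) := by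
      rw [sub_mul, ← hexp_add, ← hexp_add]
      congr 2
      · ring
      · ring
    rw [h3, coeff_mul, Finset.Nat.sum_antidiagonal_eq_sum_range_succ
      (fun i j => coeff i (hexp (1 / n) - hexp (-(1 / n))) * coeff j (hexp (w * c))),
      Finset.sum_mul]
    apply Finset.sum_congr rfl
    intro s _
    rw [Fl_hexp, coeff_C_mul, map_sub, coeff_hexp (1 / n), coeff_hexp (-(1 / n)),
      coeff_hexp (w * c), neg_pow (1 / n), one_div_pow]
    have h4 : (s ! : ℚ) ≠ 0 := by positivity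
    field_simp
  rw [hL, (Um.Ev (-n)).sub_apply, Ev_hexp, Ev_hexp, sub_mul, ← hexp_add, ← hexp_add, sub_mul,
    ← hexp_add, ← hexp_add, (Um.Ev (w * c0)).sub_apply, Ev_hexp, Ev_hexp, mul_sub, ← hexp_add,
    ← hexp_add]
  congr 2
  · have : v = w * c0 + n * w ^ 2 := by linarith
    rw [this]
    field_simp
    ring
  · have : v = w * c0 + n * w ^ 2 := by linarith
    rw [this]
    field_simp
    ring

end

end Pool.Agent.H765.CS
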