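import Mathlib
import Pool.Agent.H765.CS.Umb
import Pool.Agent.H765.MM.Cable

/-! The Ohtsuki series of the `1/n`-surgeries on torus knots. -/

namespace Pool.Agent.H765.CS

open PowerSeries GK MM Nat

noncomputable section

/-- `sinh(√w)/√w` -/
def sh : ℚ⟦X⟧ := PowerSeries.mk fun k => 1 / ((2 * k + 1)! : ℚ)

/-- `∏_{l ∈ a} sh(w/l²) / sh(w)^(|a| - 2)` -/
def quot (a : Finset ℕ) : ℚ⟦X⟧ := (∏ l ∈ a, rescale (1 / (l : ℚ) ^ 2) sh) * (sh⁻¹) ^ (a.card - 2)

/-- `∑ g_k (2k+1)!! P^k h^k`, where `g = quot a` -/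
def gaussSer (a : Finset ℕ) (P : ℤ) : ℚ⟦X⟧ :=
  PowerSeries.mk fun k => coeff k (quot a) * ((2 * k + 1)‼ : ℚ) * (P : ℚ) ^ k

/-- `e^(r h) (2 h / (e^h - e^(-h))) gaussSer a P` -/
def seifertTau (a : Finset ℕ) (P : ℤ) (r : ℚ) : ℚ⟦X⟧ :=
  hexp r * (C 2 * (shift (hexp 1 - hexp (-1)))⁻¹) * gaussSer a P

theorem sh_const : constantCoeff sh = 1 := by
  rw [← coeff_zero_eq_constantCoeff_apply, sh, coeff_mk]
  norm_num

theorem sh_inv_mul : sh⁻¹ * sh = 1 := PowerSeries.inv_mul_cancel _ (by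
  rw [sh_const]; exact one_ne_zero)

/-- the difference of exponentials in terms of `sh` -/
theorem hexp_sub_neg (b : ℚ) : hexp b - hexp (-b) =
    C (2 * b) * (X * expand 2 two_ne_zero (rescale (b ^ 2) sh)) := by
  ext k
  rw [map_sub, coeff_hexp, coeff_hexp, coeff_C_mul]
  rcases k with _ | k
  · simp
  · rw [mul_comm X, coeff_succ_mul_X, coeff_expand]
    rcases Nat.even_or_odd k with h7 | h7
    · obtain ⟨j, hj⟩ := h7
      have h8 : k = 2 * j := by omega
      subst h8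
      rw [if_pos (Dvd.intro _ rfl), Nat.mul_div_cancel_left _ (by norm_num), coeff_rescale, sh,
        coeff_mk, neg_pow, pow_succ (-1 : ℚ), pow_mul (-1 : ℚ), pow_succ b, ← pow_mul b]
      norm_num
      ring
    · have h8 : ¬ 2 ∣ k := fun h9 => (Nat.not_even_iff_odd.mpr h7) (even_iff_two_dvd.mpr h9)
      rw [if_neg h8, mul_zero, neg_pow, pow_succ (-1 : ℚ), h7.neg_one_pow]
      ring

/-- `(e^(x/p) - e^(-x/p)) (e^(x/q) - e^(-x/q)) / (e^x - e^(-x))` -/
def gT (p q : ℚ) : ℚ⟦X⟧ := C (2 / (p * q)) * (X * expand 2 two_ne_zero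
  (rescale ((1 / p) ^ 2) sh * rescale ((1 / q) ^ 2) sh * sh⁻¹))

theorem gT_mul (p q : ℚ) : gT p q * (hexp 1 - hexp (-1)) =
    (hexp (1 / p) - hexp (-(1 / p))) * (hexp (1 / q) - hexp (-(1 / q))) := by
  rw [hexp_sub_neg 1, hexp_sub_neg (1 / p), hexp_sub_neg (1 / q), gT]
  have h1 : rescale ((1 : ℚ) ^ 2) sh = sh := by
    rw [one_pow, rescale_one]; rfl
  rw [h1, map_mul (expand 2 two_ne_zero), map_mul (expand 2 two_ne_zero)]
  have h2 : expand 2 two_ne_zero sh⁻¹ * expand 2 two_ne_zero sh = 1 := by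
    rw [← map_mul, sh_inv_mul, map_one]
  have h3 : (C (2 / (p * q)) * C (2 * 1) : ℚ⟦X⟧) = C (2 * (1 / p)) * C (2 * (1 / q)) := by
    rw [← map_mul, ← map_mul]
    congr 1
    ring
  linear_combination (X ^ 2 * expand 2 two_ne_zero (rescale ((1 / p) ^ 2) sh) *
    expand 2 two_ne_zero (rescale ((1 / q) ^ 2) sh)) * h3 +
    (C (2 / (p * q)) * C (2 * 1) * X ^ 2 * expand 2 two_ne_zero (rescale ((1 / p) ^ 2) sh) *
    expand 2 two_ne_zero (rescale ((1 / q) ^ 2) sh)) * h2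

theorem rescale_neg_expand (f : ℚ⟦X⟧) :
    rescale (-1 : ℚ) (expand 2 two_ne_zero f) = expand 2 two_ne_zero f := by
  ext n
  rw [coeff_rescale, coeff_expand]
  split_ifs with h
  · obtain ⟨j, rfl⟩ := h
    rw [pow_mul]
    norm_num
  · rw [mul_zero]

theorem gT_odd (p q : ℚ) : rescale (-1 : ℚ) (gT p q) = -gT p q := by
  rw [gT, map_mul, map_mul, rescale_neg_expand, rescale_X]
  have h : rescale (-1 : ℚ) (C (2 / (p * q)) : ℚ⟦X⟧) = C (2 / (p * q)) := by
    ext n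
    rw [coeff_rescale, coeff_C]
    split_ifs with h
    · rw [h]; simp
    · simp
  rw [h, map_neg, map_one]
  ring

theorem Ev_rescale_neg (v : ℚ) (f : ℚ⟦X⟧) : Ev v (rescale (-1 : ℚ) f) = Ev v f := by
  ext i
  rw [Ev, Ev, coeff_mk, coeff_mk, coeff_rescale, pow_mul]
  norm_num

theorem rescale_neg_hexp (b : ℚ) : rescale (-1 : ℚ) (hexp b) = hexp (-b) := by
  ext n
  rw [coeff_rescale, coeff_hexp, coeff_hexp, neg_pow b]
  ring

theorem symSum_neg {M : Type*} [AddCommMonoid M] (f : ℤ → M) (n : ℕ) :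
    symSum (fun j => f (-j)) n = symSum f n := by
  unfold symSum
  rw [← Finset.sum_range_reflect]
  apply Finset.sum_congr rfl
  intro i hi
  rw [Finset.mem_range] at hi
  have h1 : (2 * ((n - 1 - i : ℕ) : ℤ) - ((n : ℤ) - 1)) = -(2 * (i : ℤ) - ((n : ℤ) - 1)) := by
    rw [Nat.cast_sub (show i ≤ n - 1 by omega), Nat.cast_sub (show 1 ≤ n by omega)]
    push_cast
    ring
  rw [h1]
  beta_reduce
  rw [neg_neg]

theorem Um.symSum {T : ℚ⟦X⟧ → ℚ⟦X⟧} (hT : Um T) (f : ℤ → ℚ⟦X⟧) (n : ℕ) :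
    T (GK.symSum f n) = GK.symSum (fun j => T (f j)) n := by
  have h := hT.sum (Finset.range n) (fun _ => (1 : ℚ)) (fun i => f (2 * i - (n - 1)))
  simpa [GK.symSum] using h

theorem symSum_add' {M : Type*} [AddCommMonoid M] (f g : ℤ → M) (n : ℕ) :
    GK.symSum (fun j => f j + g j) n = GK.symSum f n + GK.symSum g n := by
  unfold GK.symSum
  exact Finset.sum_add_distrib

theorem symSum_sub' {M : Type*} [AddCommGroup M] (f g : ℤ → M) (n : ℕ) :
    GK.symSum (fun j => f j - g j) n = GK.symSum f n - GK.symSum g n := by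
  unfold GK.symSum
  exact Finset.sum_sub_distrib _ _

/-- the exponent `pq/2 - (p/q + q/p)/2` -/
def AT (p q : ℚ) : ℚ := p * q / 2 - (p / q + q / p) / 2

/-- the coloured Jones function of a torus knot as a Gaussian integral -/
theorem torus_gauss (p : ℕ) (q : ℤ) (hp : p ≠ 0) (hq : q ≠ 0) (N : ℕ) :
    (hexp 1 - hexp (-1)) * cableJ p q unknotJ N =
      hexp (AT p q - (N : ℚ) ^ 2 * (p * q) / 2) * Ev (p * q) (hexp N * gT p q) := by
  have hp' : (p : ℚ) ≠ 0 := by exact_mod_cast hp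
  have hq' : (q : ℚ) ≠ 0 := by exact_mod_cast hq
  set v : ℚ := p * q with hv
  have hU := Um.Ev v
  -- antisymmetry
  have h1 : Ev v (hexp (-N) * gT p q) = - Ev v (hexp N * gT p q) := by
    have e : rescale (-1 : ℚ) (hexp N * gT p q) = -1 * (hexp (-N) * gT p q) := by
      rw [map_mul, rescale_neg_hexp, gT_odd]
      ring
    have e2 := Ev_rescale_neg v (hexp N * gT p q)
    have e3 := hU.smul (-1) (hexp (-N) * gT p q)
    rw [map_neg, map_one] at e3
    rw [e, e3] at e2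
    linear_combination -e2
  have h2 : 2 * Ev v (hexp N * gT p q) = Ev v ((hexp N - hexp (-N)) * gT p q) := by
    rw [sub_mul, hU.sub_apply, h1]
    ring
  set f1 : ℤ → ℚ⟦X⟧ := fun j => hexp ((j + 1 / p + 1 / q) ^ 2 * v / 2) with hf1
  set f2 : ℤ → ℚ⟦X⟧ := fun j => hexp ((j + 1 / p - 1 / q) ^ 2 * v / 2) with hf2
  have h3 : Ev v ((hexp N - hexp (-N)) * gT p q) = 2 * symSum (fun j => f1 j - f2 j) N := by
    have e1 : (hexp N - hexp (-N)) * gT p q = symSum (fun j => hexp j *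
        ((hexp (1 / (p : ℚ)) - hexp (-(1 / (p : ℚ)))) *
          (hexp (1 / (q : ℚ)) - hexp (-(1 / (q : ℚ)))))) N := by
      have e2 := unknotJ_mul (N : ℤ)
      rw [unknotJ_natCast] at e2
      push_cast at e2
      rw [← e2, ← gT_mul]
      have e3 : symSum (fun j => hexp (j : ℚ) * (gT p q * (hexp 1 - hexp (-1)))) N =
          (gT p q * (hexp 1 - hexp (-1))) * symSum (fun j => hexp (j : ℚ)) N := by
        rw [mul_symSum]
        congr 1
        funext j
        ring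
      rw [e3]
      ring
    rw [e1, hU.symSum]
    have e4 : (fun j : ℤ => Ev v (hexp j * ((hexp (1 / (p : ℚ)) - hexp (-(1 / (p : ℚ)))) *
          (hexp (1 / (q : ℚ)) - hexp (-(1 / (q : ℚ))))))) =
        fun j => (f1 j - f2 j) + (f1 (-j) - f2 (-j)) := by
      funext j
      have e5 : hexp (j : ℚ) * ((hexp (1 / (p : ℚ)) - hexp (-(1 / (p : ℚ)))) *
          (hexp (1 / (q : ℚ)) - hexp (-(1 / (q : ℚ))))) =
          (hexp (j + 1 / p + 1 / q) - hexp (j + 1 / p + -(1 / q))) -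
          (hexp (j + -(1 / p) + 1 / q) - hexp (j + -(1 / p) + -(1 / q))) := by
        simp only [hexp_add]
        ring
      rw [e5, hU.sub_apply, hU.sub_apply, hU.sub_apply, Ev_hexp, Ev_hexp, Ev_hexp, Ev_hexp, hf1,
        hf2]
      simp only
      push_cast
      have a1 : ((j : ℚ) + 1 / p + -(1 / q)) ^ 2 = (j + 1 / p - 1 / q) ^ 2 := by ring
      have a2 : ((j : ℚ) + -(1 / p) + 1 / q) ^ 2 = (-j + 1 / p - 1 / q) ^ 2 := by ring
      have a3 : ((j : ℚ) + -(1 / p) + -(1 / q)) ^ 2 = (-j + 1 / p + 1 / q) ^ 2 := by ring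
      rw [a1, a2, a3]
      ring
    rw [e4, symSum_add' (fun j => f1 j - f2 j) (fun j => f1 (-j) - f2 (-j)),
      symSum_neg (fun j => f1 j - f2 j)]
    ring
  have h4 : Ev v (hexp N * gT p q) = symSum (fun j => f1 j - f2 j) N := by
    have h5 : (2 : ℚ⟦X⟧) * Ev v (hexp N * gT p q) = 2 * symSum (fun j => f1 j - f2 j) N := by
      rw [h2, h3]
    have h6 : (2 : ℚ⟦X⟧) ≠ 0 := by
      intro h0
      have h7 := congrArg constantCoeff h0
      rw [map_zero, map_ofNat] at h7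
      norm_num at h7
    exact mul_left_cancel₀ h6 h5
  rw [h4, cableJ_natCast, mul_left_comm, mul_symSum, mul_symSum, mul_symSum]
  congr 1
  funext j
  have e1 := unknotJ_mul (p * j + 1)
  have e2 : (hexp 1 - hexp (-1)) * (hexp (q * j * (p * j + 2) / 2) * unknotJ (p * j + 1)) =
      hexp (q * j * (p * j + 2) / 2) * (hexp (((p * j + 1 : ℤ) : ℚ)) -
        hexp (-((p * j + 1 : ℤ) : ℚ))) := by
    rw [← e1]
    ring
  rw [e2, ← mul_assoc, ← hexp_add]
  rw [hf1, hf2]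
  simp only
  apply hexp_congr
  · rw [AT, hv]
    push_cast
    field_simp
    ring
  · rw [AT, hv]
    push_cast
    field_simp
    ring

theorem torus_mmCoeff (p : ℕ) (q : ℤ) (hp : p ≠ 0) (hq : q ≠ 0) (l b : ℕ) :
    mmCoeff (cableJ p q unknotJ) l b = coeff b (Fl (AT p q) (p * q) (p * q) l (gT p q)) := by
  have h1 : ∀ m, mmPoly (cableJ p q unknotJ) m = ∑ l ∈ Finset.range (m + 1),
      Polynomial.C (coeff (m - l) (Fl (AT p q) (p * q) (p * q) l (gT p q))) *
        Polynomial.X ^ l := by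
    intro m
    apply mmPoly_eq
    · apply Polynomial.natDegree_sum_le_of_forall_le
      intro i hi
      rw [Finset.mem_range] at hi
      exact (Polynomial.natDegree_C_mul_X_pow_le _ _).trans (by omega)
    · intro i
      have h2 := torus_gauss p q hp hq i
      rw [← shift_eq] at h2
      rw [h2, coeff_mk, Polynomial.eval_finsetSum]
      apply Finset.sum_congr rfl
      intro l _
      rw [Polynomial.eval_mul, Polynomial.eval_C, Polynomial.eval_pow, Polynomial.eval_X]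
  rw [mmCoeff, h1, Polynomial.finsetSum_coeff, Finset.sum_eq_single l]
  · rw [Polynomial.coeff_C_mul, Polynomial.coeff_X_pow, if_pos rfl, mul_one,
      Nat.add_sub_cancel_left]
  · intro j _ hj
    rw [Polynomial.coeff_C_mul, Polynomial.coeff_X_pow, if_neg hj.symm, mul_zero]
  · intro h
    exact absurd (Finset.mem_range.mpr (by omega)) h

theorem Ev_quot (V : ℚ) (hV : V ≠ 0) (f : ℚ⟦X⟧) :
    Ev V (C (4 / V) * (X ^ 2 * expand 2 two_ne_zero f)) =
      C 4 * (X * PowerSeries.mk fun k => coeff k f * ((2 * k + 1)‼ : ℚ) * V ^ k) := by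
  ext i
  rw [Ev, coeff_mk, coeff_C_mul, coeff_C_mul]
  rcases i with _ | i
  · simp
  · rw [show 2 * (i + 1) = 2 * i + 2 by ring, coeff_X_pow_mul, coeff_expand_mul,
      mul_comm X, coeff_succ_mul_X, coeff_mk, show 2 * i + 2 - 1 = 2 * i + 1 by omega, pow_succ]
    field_simp

/-- the Ohtsuki series of the `1/n`-surgery on the torus knot `T(p, q)` -/
theorem torus_ohtsuki (p : ℕ) (q n c : ℤ) (hp : p ≠ 0) (hq : q ≠ 0) (hn : n ≠ 0)
    (hc : c = 1 - n * (p * q)) (hc0 : c ≠ 0) (a : Finset ℕ) (hcard : a.card = 3)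
    (ha : ∏ l ∈ a, rescale (1 / (l : ℚ) ^ 2) sh = rescale ((1 / (p : ℚ)) ^ 2) sh *
      rescale ((1 / (q : ℚ)) ^ 2) sh * rescale ((1 / (c : ℚ)) ^ 2) sh) :
    ohtsuki n (cableJ p q unknotJ) = seifertTau a (p * q * c)
      (n / 2 + AT p q - p * q / (2 * c)) := by
  have hp' : (p : ℚ) ≠ 0 := by exact_mod_cast hp
  have hq' : (q : ℚ) ≠ 0 := by exact_mod_cast hq
  have hn' : (n : ℚ) ≠ 0 := by exact_mod_cast hn
  have hc' : (c : ℚ) ≠ 0 := by exact_mod_cast hc0
  have hcq : (c : ℚ) = 1 - n * (p * q) := by rw [hc]; push_cast; ring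
  have h1 := gauss_eq (AT p q) (p * q) (p * q) n c n rfl hn' hc' (by rw [hcq]; ring) (gT p q)
  have h2 : gauss n (mmCoeff (cableJ p q unknotJ)) =
      gauss n (fun l b => coeff b (Fl (AT p q) (p * q) (p * q) l (gT p q))) := by
    congr 1
    funext l b
    exact torus_mmCoeff p q hp hq l b
  have h3 := D_mul_ohtsuki hn (cableJ p q unknotJ)
  rw [h2, h1] at h3
  set V : ℚ := p * q * c with hV
  have hV0 : V ≠ 0 := mul_ne_zero (mul_ne_zero hp' hq') hc'
  -- the integrand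
  have h4 : (hexp (-1 / (c : ℚ)) - hexp (1 / (c : ℚ))) * gT p q =
      C (-1) * (C (4 / V) * (X ^ 2 * expand 2 two_ne_zero (quot a))) := by
    have e1 : hexp (-1 / (c : ℚ)) - hexp (1 / (c : ℚ)) =
        -(hexp (1 / (c : ℚ)) - hexp (-(1 / (c : ℚ)))) := by
      rw [neg_div]
      ring
    have e2 : quot a = rescale ((1 / (p : ℚ)) ^ 2) sh * rescale ((1 / (q : ℚ)) ^ 2) sh *
        rescale ((1 / (c : ℚ)) ^ 2) sh * sh⁻¹ := by
      rw [quot, hcard, ha]
      norm_num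
    have e3 : (C (2 * (1 / (c : ℚ))) * C (2 / ((p : ℚ) * q)) : ℚ⟦X⟧) = C (4 / V) := by
      rw [← map_mul, hV]
      congr 1
      field_simp
      ring
    rw [e1, hexp_sub_neg, e2, gT, ← e3]
    simp only [map_mul, map_neg, map_one]
    ring
  have hU := Um.Ev V
  rw [h4, hU.smul, Ev_quot V hV0] at h3
  have h5 : PowerSeries.mk (fun k => coeff k (quot a) * ((2 * k + 1)‼ : ℚ) * V ^ k) =
      gaussSer a (p * q * c) := by
    rw [gaussSer, hV]
    push_cast
    rfl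
  rw [h5] at h3
  have h6 : hexp (n / 2 + AT p q - p * q / (2 * c)) = hexp ((n + 1 / n) / 2) *
      hexp (AT p q - 1 / (2 * (n : ℚ)) - p * q / (2 * (c : ℚ))) := by
    rw [← hexp_add]
    congr 1
    field_simp
    ring
  have h7 : (C (-1 / 2 : ℚ) * C (-1) * C 4 : ℚ⟦X⟧) = C 2 := by
    rw [← map_mul, ← map_mul]
    norm_num
  have h8 : shift (hexp 1 - hexp (-1)) = dd := rfl
  rw [seifertTau, h6, h8]
  rw [← X_mul_dd] at h3
  have h9 : dd * ohtsuki n (cableJ p q unknotJ) = C 2 * (hexp ((n + 1 / n) / 2) *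
      hexp (AT p q - 1 / (2 * (n : ℚ)) - p * q / (2 * (c : ℚ)))) * gaussSer a (p * q * c) := by
    apply mul_left_cancel₀ (PowerSeries.X_ne_zero (R := ℚ))
    linear_combination h3 + (X * (hexp ((n + 1 / n) / 2) *
      hexp (AT p q - 1 / (2 * (n : ℚ)) - p * q / (2 * (c : ℚ)))) * gaussSer a (p * q * c)) * h7
  have h10 := dd_inv
  linear_combination dd⁻¹ * h9 - ohtsuki n (cableJ p q unknotJ) * h10

end

end Pool.Agent.H765.CS
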