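import Mathlib
import Pool.Agent.H765.CS.Ind
import Pool.Agent.H765.CS.Seif
import Pool.Agent.H765.MM.Torus

/-! Connected sums of Seifert homology spheres. -/

namespace Pool.Agent.H765.CS

open PowerSeries GK MM Nat

noncomputable section

/-- An oriented Seifert fibred integral homology sphere with at least three exceptional fibres:
the multiplicities of the exceptional fibres are pairwise coprime integers `≥ 2` and determine the
manifold up to the orientation. -/
structure SeifertSphere where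
  fibres : Finset ℕ
  positive : Bool
  card : 3 ≤ fibres.card
  two : ∀ l ∈ fibres, 2 ≤ l
  coprime : ∀ l ∈ fibres, ∀ l' ∈ fibres, l ≠ l' → Nat.Coprime l l'

/-- the product of the multiplicities, with the sign of the orientation -/
def SeifertSphere.P (M : SeifertSphere) : ℤ :=
  (if M.positive then 1 else -1) * ∏ l ∈ M.fibres, (l : ℤ)

/-- the coefficients grow at most like `(2k+1)!! ρ^k` -/
def Gevrey (ρ : ℝ) (U : ℚ⟦X⟧) : Prop :=
  ∃ C : ℝ, ∀ k : ℕ, |((coeff k U : ℚ) : ℝ)| ≤ C * (((2 * k + 1)‼ : ℕ) * ρ ^ k)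

/-- the embedding in real power series -/
def mp : ℚ⟦X⟧ →+* ℝ⟦X⟧ := PowerSeries.map (algebraMap ℚ ℝ)

theorem coeff_mp (k : ℕ) (f : ℚ⟦X⟧) : coeff k (mp f) = ((coeff k f : ℚ) : ℝ) := by
  rw [mp, coeff_map]
  rfl

theorem mp_injective : Function.Injective mp := by
  intro f g h
  ext k
  have h1 := congrArg (coeff k) h
  rw [coeff_mp, coeff_mp] at h1
  exact_mod_cast h1

theorem mp_sh : mp sh = shR := by
  ext k
  rw [coeff_mp, sh, shR, coeff_mk, coeff_mk]
  push_cast
  rfl

theorem mp_rescale (x : ℚ) (f : ℚ⟦X⟧) : mp (rescale x f) = rescale (x : ℝ) (mp f) := by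
  ext k
  rw [coeff_mp, coeff_rescale, coeff_rescale, coeff_mp]
  push_cast
  rfl

theorem mp_sh_inv : mp sh⁻¹ = shR⁻¹ := by
  have h1 : mp sh⁻¹ * shR = 1 := by rw [← mp_sh, ← map_mul, sh_inv_mul, map_one]
  have h2 := PowerSeries.mul_inv_cancel shR shR_const
  calc mp sh⁻¹ = mp sh⁻¹ * (shR * shR⁻¹) := by rw [h2, mul_one]
    _ = _ := by rw [← mul_assoc, h1, one_mul]

theorem mp_quot (a : Finset ℕ) : mp (quot a) = GR a := by
  rw [quot, GR, Ea, map_mul, map_pow, map_prod, mp_sh_inv]
  congr 1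
  apply Finset.prod_congr rfl
  intro l _
  rw [mp_rescale, mp_sh]
  push_cast
  rfl

theorem mp_gaussSer (a : Finset ℕ) (P : ℤ) : mp (gaussSer a P) = sg a P := by
  ext k
  rw [coeff_mp, gaussSer, sg, coeff_mk, coeff_mk, ← mp_quot, coeff_mp]
  push_cast
  rfl

/-- the pair -/
def SeifertSphere.pair (M : SeifertSphere) : Finset ℕ × Bool := (M.fibres, M.positive)

theorem SeifertSphere.pair_injective : Function.Injective SeifertSphere.pair := by
  rintro ⟨a, b, _, _, _⟩ ⟨a', b', _, _, _⟩ h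
  simp only [pair, Prod.mk.injEq] at h
  obtain ⟨rfl, rfl⟩ := h
  rfl

theorem SeifertSphere.isFib (M : SeifertSphere) : IsFib M.pair.1 := ⟨M.card, M.two, M.coprime⟩

theorem mp_sphere (M : SeifertSphere) : mp (gaussSer M.fibres M.P) = ser M.pair := by
  rw [mp_gaussSer, ser, SeifertSphere.pair, SeifertSphere.P, sgn]
  congr 1
  push_cast
  split_ifs <;> simp

theorem multi {ρ : ℝ} (hρ : 0 < ρ) (L L' : Multiset (Finset ℕ × Bool)) (hL : ∀ x ∈ L + L', IsFib x.1)
    (hLρ : ∀ x ∈ L + L', ρ < ((∏ l ∈ x.1, l : ℕ) : ℝ) / Real.pi ^ 2) {U V : ℝ⟦X⟧} (hU : Gv ρ U)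
    (hV : Gv ρ V) (hU0 : U ≠ 0)
    (h : U * (L.map ser).prod = V * (L'.map ser).prod) : L = L' := by
  classical
  set s := (L + L').toFinset with hs
  have key : ∀ L'' : Multiset (Finset ℕ × Bool), L''.toFinset ⊆ s →
      (L''.map ser).prod = ∏ x ∈ s, ser x ^ L''.count x := by
    intro L'' hsub
    rw [Finset.prod_multiset_map_count]
    apply Finset.prod_subset hsub
    intro x _ hx
    rw [Multiset.mem_toFinset] at hx
    rw [Multiset.count_eq_zero_of_notMem hx, pow_zero]
  rw [key L (by rw [hs, Multiset.toFinset_add]; exact Finset.subset_union_left),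
    key L' (by rw [hs, Multiset.toFinset_add]; exact Finset.subset_union_right)] at h
  have h1 := indep hρ s.card s rfl (fun x hx => hL x (Multiset.mem_toFinset.mp hx))
    (fun x hx => hLρ x (Multiset.mem_toFinset.mp hx)) _ _ U V hU hV hU0 h
  ext x
  by_cases hx : x ∈ s
  · exact h1 x hx
  · rw [hs, Multiset.mem_toFinset, Multiset.mem_add, not_or] at hx
    rw [Multiset.count_eq_zero_of_notMem hx.1, Multiset.count_eq_zero_of_notMem hx.2]

theorem Gevrey.gv {ρ : ℝ} {U : ℚ⟦X⟧} (h : Gevrey ρ U) : Gv ρ (mp U) := by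
  obtain ⟨C, h⟩ := h
  refine ⟨C, fun k => ?_⟩
  rw [coeff_mp]
  exact h k

theorem Gevrey.one {ρ : ℝ} (hρ : 0 < ρ) : Gevrey ρ 1 := by
  obtain ⟨C, h⟩ := Gv.one hρ
  refine ⟨C, fun k => ?_⟩
  have := h k
  rw [← map_one mp, coeff_mp] at this
  exact this

theorem mp_ne {U : ℚ⟦X⟧} (h : U ≠ 0) : mp U ≠ 0 := by
  intro h0
  apply h
  apply mp_injective
  rw [h0, map_zero]

theorem Ent.exp (b : ℚ) : Ent (mp (hexp b)) := by
  intro ρ hρ
  have h1 := Real.summable_pow_div_factorial (|(b : ℝ)| * ρ)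
  refine h1.congr ?_
  intro n
  rw [coeff_mp, coeff_hexp]
  push_cast
  rw [abs_mul, abs_pow, mul_pow, abs_of_nonneg (by positivity : (0 : ℝ) ≤ 1 / (n ! : ℝ))]
  ring

theorem Ent.dd : Ent (mp MM.dd) := by
  apply Ent.of_X_mul
  have h1 : PowerSeries.X * mp MM.dd = mp (hexp 1) - mp (hexp (-1)) := by
    rw [← map_sub, ← X_mul_dd, map_mul]
    congr 1
    ext k
    rw [coeff_mp, coeff_X, coeff_X]
    split_ifs <;> simp
  rw [h1]
  exact (Ent.exp 1).sub (Ent.exp (-1))

theorem Ent.cv {f : ℝ⟦X⟧} (h : Ent f) : Cv f := by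
  obtain ⟨C, _, hC⟩ := (h 1 (by norm_num)).bdd (by norm_num)
  exact ⟨C, 1, by norm_num, fun k => by simpa using hC k⟩

theorem Ent.multiset {ι : Type*} (L : Multiset ι) (f : ι → ℝ⟦X⟧) (h : ∀ x, Ent (f x)) :
    Ent (L.map f).prod := by
  induction L using Multiset.induction_on with
  | empty => simpa using Ent.one
  | cons a L ih =>
    rw [Multiset.map_cons, Multiset.prod_cons]
    exact (h a).mul ih

theorem key_prod (r : SeifertSphere → ℚ) (L : Multiset SeifertSphere) : mp MM.dd ^ L.card *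
    mp (L.map fun M => seifertTau M.fibres M.P (r M)).prod =
    (L.map fun M => mp (hexp (r M)) * C 2).prod *
    ((L.map SeifertSphere.pair).map ser).prod := by
  have hd : shift (hexp 1 - hexp (-1)) = MM.dd := rfl
  have hdd : mp MM.dd * mp MM.dd⁻¹ = 1 := by
    rw [← map_mul, mul_comm, dd_inv, map_one]
  induction L using Multiset.induction_on with
  | empty => simp
  | cons M L ih =>
    rw [Multiset.map_cons, Multiset.map_cons, Multiset.map_cons, Multiset.map_cons,
      Multiset.prod_cons, Multiset.prod_cons, Multiset.prod_cons, Multiset.card_cons, pow_succ,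
      map_mul, seifertTau, map_mul, map_mul, map_mul, mp_sphere, hd]
    have h2 : mp (C 2) = C 2 := by
      rw [map_ofNat, map_ofNat, map_ofNat]
    rw [h2]
    linear_combination (mp (hexp (r M)) * C 2 * ser M.pair) * ih +
      (mp MM.dd ^ L.card * mp (L.map fun M => seifertTau M.fibres M.P (r M)).prod *
        mp (hexp (r M)) * C 2 * ser M.pair) * hdd

theorem Gv.mul_ent {ρ : ℝ} (hρ : 0 < ρ) {U V : ℝ⟦X⟧} (hU : Gv ρ U) (hV : Ent V) :
    Gv ρ (U * V) := hU.mul_cv hρ hV.cv

theorem abs_P (M : SeifertSphere) : |(M.P : ℝ)| = ((∏ l ∈ M.fibres, l : ℕ) : ℝ) := by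
  rw [SeifertSphere.P]
  push_cast
  have h1 : (0 : ℝ) ≤ ∏ l ∈ M.fibres, (l : ℝ) := Finset.prod_nonneg fun l _ => Nat.cast_nonneg l
  split_ifs
  · rw [one_mul, abs_of_nonneg h1]
  · rw [neg_one_mul, abs_neg, abs_of_nonneg h1]

theorem seifertTau_ne (a : Finset ℕ) (P : ℤ) (r : ℚ) : seifertTau a P r ≠ 0 := by
  intro h0
  have h1 := congrArg constantCoeff h0
  have hs : constantCoeff (shift (hexp 1 - hexp (-1))) = (2 : ℚ) := dd_const
  have hq : constantCoeff (gaussSer a P) = 1 := by
    rw [← coeff_zero_eq_constantCoeff_apply, gaussSer, coeff_mk,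
      coeff_zero_eq_constantCoeff_apply, quot, map_mul, map_prod, map_pow, constantCoeff_inv,
      sh_const]
    have h2 : ∏ l ∈ a, constantCoeff (rescale (1 / (l : ℚ) ^ 2) sh) = 1 := by
      apply Finset.prod_eq_one
      intro l _
      rw [← coeff_zero_eq_constantCoeff_apply, coeff_rescale, pow_zero, one_mul,
        coeff_zero_eq_constantCoeff_apply, sh_const]
    rw [h2]
    norm_num
  rw [seifertTau, map_mul, map_mul, map_mul, constantCoeff_C, constantCoeff_inv, hs, hq,
    map_zero, ← coeff_zero_eq_constantCoeff_apply, coeff_hexp] at h1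
  norm_num at h1

/-- the Ohtsuki series of connected sums with Seifert spheres -/
theorem sphere_gevrey (r : SeifertSphere → ℚ) {ρ : ℝ} (hρ : 0 < ρ) (L L' : Multiset SeifertSphere)
    (hL : ∀ M ∈ L + L', Real.pi ^ 2 * ρ < |(M.P : ℝ)|) (U V : ℚ⟦X⟧) (hU : Gevrey ρ U)
    (hV : Gevrey ρ V) (hU0 : U ≠ 0)
    (h : U * (L.map fun M => seifertTau M.fibres M.P (r M)).prod =
      V * (L'.map fun M => seifertTau M.fibres M.P (r M)).prod) : L = L' ∧ U = V := by
  have hLL : L = L' := by
    apply Multiset.map_injective SeifertSphere.pair_injective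
    have hdd : mp MM.dd * mp MM.dd⁻¹ = 1 := by
      rw [← map_mul, mul_comm, dd_inv, map_one]
    have e1 : ∀ M : SeifertSphere, Ent (mp (hexp (r M)) * C 2) := fun M =>
      (Ent.exp _).mul (Ent.C 2)
    have e2 := Ent.multiset L _ e1
    have e3 := Ent.multiset L' _ e1
    have e4 : ∀ n : ℕ, Ent (mp MM.dd ^ n) := fun n => Ent.dd.pow n
    refine multi hρ (L.map SeifertSphere.pair) (L'.map SeifertSphere.pair)
      (U := mp U * (mp MM.dd ^ L'.card * (L.map fun M => mp (hexp (r M)) * C 2).prod))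
      (V := mp V * (mp MM.dd ^ L.card * (L'.map fun M => mp (hexp (r M)) * C 2).prod)) ?_ ?_
      (hU.gv.mul_ent hρ ((e4 _).mul e2)) (hV.gv.mul_ent hρ ((e4 _).mul e3)) ?_ ?_
    · intro x hx
      rw [← Multiset.map_add] at hx
      obtain ⟨M, _, rfl⟩ := Multiset.mem_map.mp hx
      exact M.isFib
    · intro x hx
      rw [← Multiset.map_add] at hx
      obtain ⟨M, hM, rfl⟩ := Multiset.mem_map.mp hx
      have h1 := hL M hM
      rw [abs_P] at h1
      rw [lt_div_iff₀ (by positivity), mul_comm]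
      exact h1
    · apply mul_ne_zero (mp_ne hU0)
      apply mul_ne_zero
      · apply pow_ne_zero
        intro h0
        rw [h0, zero_mul] at hdd
        exact zero_ne_one hdd
      · apply Multiset.prod_ne_zero
        intro h0
        obtain ⟨M, _, h1⟩ := Multiset.mem_map.mp h0
        have h2 := congrArg constantCoeff h1
        rw [map_mul, constantCoeff_C, map_zero, ← coeff_zero_eq_constantCoeff_apply, coeff_mp,
          coeff_hexp] at h2
        norm_num at h2
    · have h1 := congrArg mp h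
      rw [map_mul, map_mul] at h1
      have k1 := key_prod r L
      have k2 := key_prod r L'
      linear_combination (-(mp U * mp MM.dd ^ L'.card)) * k1 +
        (mp V * mp MM.dd ^ L.card) * k2 + (mp MM.dd ^ L.card * mp MM.dd ^ L'.card) * h1
  refine ⟨hLL, ?_⟩
  rw [← hLL] at h
  have h1 : (L.map fun M => seifertTau M.fibres M.P (r M)).prod ≠ 0 := by
    apply Multiset.prod_ne_zero
    intro h0
    obtain ⟨M, _, h1⟩ := Multiset.mem_map.mp h0
    exact seifertTau_ne _ _ _ h1
  exact mul_right_cancel₀ h1 h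

/-- the Ohtsuki series of connected sums of Seifert spheres -/
theorem sphere_injective (r : SeifertSphere → ℚ) : Function.Injective
    (fun L : Multiset SeifertSphere => (L.map fun M => seifertTau M.fibres M.P (r M)).prod) := by
  intro L L' h
  simp only at h
  have hpi := Real.pi_pos
  have hρ : 0 < 1 / Real.pi ^ 2 := by positivity
  refine (sphere_gevrey r hρ L L' ?_ 1 1 (Gevrey.one hρ) (Gevrey.one hρ) one_ne_zero
    (by rw [one_mul, one_mul]; exact h)).1
  intro M _
  rw [mul_one_div_cancel (by positivity), abs_P]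
  have h1 : 1 < ∏ l ∈ M.fibres, l := by
    obtain ⟨l, hl⟩ := Finset.card_pos.mp (lt_of_lt_of_le (by norm_num) M.card)
    have h2 : l ∣ ∏ l ∈ M.fibres, l := Finset.dvd_prod_of_mem _ hl
    have h3 : l ≤ ∏ l ∈ M.fibres, l := Nat.le_of_dvd (prod_pos_fib M.isFib) h2
    have h4 := M.two l hl
    omega
  exact_mod_cast h1

end

end Pool.Agent.H765.CS
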