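import Mathlib
import Pool.Agent.H765.CS.Main

/-! Connected sums of surgeries on torus knots. -/

namespace Pool.Agent.H765.CS

open PowerSeries GK MM Nat

noncomputable section

/-- The `1/n`-surgery on a non-trivial torus knot `T(p, q)`, `2 ≤ p < |q|` (left-handed or
right-handed), `n ≠ 0`. -/
structure TorusSurgery where
  p : ℕ
  q : ℤ
  n : ℤ
  hp : 2 ≤ p
  hpq : (p : ℤ) < |q|
  hq : IsCoprime (p : ℤ) q
  hn : n ≠ 0

/-- the third multiplicity -/
def TorusSurgery.c (x : TorusSurgery) : ℤ := 1 - x.n * (x.p * x.q)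

/-- the Ohtsuki series, from the coloured Jones polynomials of the torus knot -/
def TorusSurgery.tau (x : TorusSurgery) : ℚ⟦X⟧ :=
  ohtsuki x.n (colouredJones (torus x.p x.q x.hp x.hq))

theorem TorusSurgery.q_ne (x : TorusSurgery) : x.q ≠ 0 := by
  intro h
  have h1 := x.hpq
  rw [h, abs_zero] at h1
  have h2 := x.hp
  omega

theorem TorusSurgery.lt_c (x : TorusSurgery) : x.q.natAbs < x.c.natAbs := by
  have h1 := x.hpq
  have h2 : (2 : ℤ) ≤ x.p := by exact_mod_cast x.hp
  have h3 : 1 ≤ |x.n| := Int.one_le_abs x.hn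
  have h4 : |x.n * (x.p * x.q)| ≤ |x.c| + 1 := by
    have : x.n * (x.p * x.q) = 1 - x.c := by rw [TorusSurgery.c]; ring
    rw [this]
    calc |1 - x.c| ≤ |(1 : ℤ)| + |x.c| := abs_sub _ _
      _ = |x.c| + 1 := by rw [abs_one]; ring
  rw [abs_mul, abs_mul, abs_of_nonneg (by omega : (0 : ℤ) ≤ x.p)] at h4
  have h5 : 2 * |x.q| ≤ |x.n| * (x.p * |x.q|) := by
    have h6 : 0 ≤ |x.q| := abs_nonneg _
    have h7 : (x.p : ℤ) * |x.q| ≤ |x.n| * (x.p * |x.q|) := by nlinarith [mul_nonneg (by omega : (0 : ℤ) ≤ x.p) h6]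
    nlinarith
  have h8 : |x.q| < |x.c| := by omega
  rw [Int.abs_eq_natAbs, Int.abs_eq_natAbs] at h8
  exact_mod_cast h8

theorem TorusSurgery.lt_q (x : TorusSurgery) : x.p < x.q.natAbs := by
  have h1 := x.hpq
  rw [Int.abs_eq_natAbs] at h1
  exact_mod_cast h1

theorem TorusSurgery.cop_pq (x : TorusSurgery) : Nat.Coprime x.p x.q.natAbs := by
  have h := Int.isCoprime_iff_gcd_eq_one.mp x.hq
  rwa [Int.gcd, Int.natAbs_natCast] at h

theorem TorusSurgery.cop_pc (x : TorusSurgery) : Nat.Coprime x.p x.c.natAbs := by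
  have h : IsCoprime (x.p : ℤ) x.c := ⟨x.n * x.q, 1, by rw [TorusSurgery.c]; ring⟩
  have h := Int.isCoprime_iff_gcd_eq_one.mp h
  rwa [Int.gcd, Int.natAbs_natCast] at h

theorem TorusSurgery.cop_qc (x : TorusSurgery) : Nat.Coprime x.q.natAbs x.c.natAbs := by
  have h : IsCoprime x.q x.c := ⟨x.n * x.p, 1, by rw [TorusSurgery.c]; ring⟩
  exact Int.isCoprime_iff_gcd_eq_one.mp h

/-- the set of the multiplicities -/
def TorusSurgery.fib (x : TorusSurgery) : Finset ℕ := {x.p, x.q.natAbs, x.c.natAbs}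

theorem TorusSurgery.prod_fib {M : Type*} [CommMonoid M] (x : TorusSurgery) (f : ℕ → M) :
    ∏ l ∈ x.fib, f l = f x.p * (f x.q.natAbs * f x.c.natAbs) := by
  have h1 := x.lt_q
  have h2 := x.lt_c
  rw [fib, Finset.prod_insert, Finset.prod_insert, Finset.prod_singleton]
  · rw [Finset.mem_singleton]; omega
  · rw [Finset.mem_insert, Finset.mem_singleton]; omega

theorem TorusSurgery.card_fib (x : TorusSurgery) : x.fib.card = 3 := by
  have h1 := x.lt_q
  have h2 := x.lt_c
  rw [fib, Finset.card_insert_of_notMem, Finset.card_insert_of_notMem, Finset.card_singleton]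
  · rw [Finset.mem_singleton]; omega
  · rw [Finset.mem_insert, Finset.mem_singleton]; omega

/-- the surgery as a Seifert homology sphere `± Σ(p, |q|, |1 - n p q|)` -/
def TorusSurgery.sphere (x : TorusSurgery) : SeifertSphere where
  fibres := {x.p, x.q.natAbs, (1 - x.n * (x.p * x.q)).natAbs}
  positive := decide (0 < x.p * x.q * (1 - x.n * (x.p * x.q)))
  card := x.card_fib.ge
  two := by
    intro l hl
    change l ∈ x.fib at hl
    have h1 := x.lt_q
    have h2 := x.lt_c
    have h3 := x.hp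
    rw [fib, Finset.mem_insert, Finset.mem_insert, Finset.mem_singleton] at hl
    omega
  coprime := by
    intro l hl l' hl' hne
    change l ∈ x.fib at hl
    change l' ∈ x.fib at hl'
    rw [fib, Finset.mem_insert, Finset.mem_insert, Finset.mem_singleton] at hl hl'
    rcases hl with rfl | rfl | rfl <;> rcases hl' with rfl | rfl | rfl
    · exact absurd rfl hne
    · exact x.cop_pq
    · exact x.cop_pc
    · exact x.cop_pq.symm
    · exact absurd rfl hne
    · exact x.cop_qc
    · exact x.cop_pc.symm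
    · exact x.cop_qc.symm
    · exact absurd rfl hne

theorem TorusSurgery.c_ne (x : TorusSurgery) : x.c ≠ 0 := by
  intro h
  have h1 := x.lt_c
  rw [h] at h1
  simp at h1

theorem TorusSurgery.P_eq (x : TorusSurgery) : x.sphere.P = x.p * x.q * x.c := by
  have h1 : ∏ l ∈ x.fib, (l : ℤ) = |x.p * x.q * x.c| := by
    rw [x.prod_fib (fun l => (l : ℤ)), Int.natCast_natAbs, Int.natCast_natAbs, abs_mul, abs_mul,
      Nat.abs_cast]
    ring
  have h2 : x.sphere.P = (if decide (0 < x.p * x.q * x.c) = true then 1 else -1) *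
      ∏ l ∈ x.fib, (l : ℤ) := rfl
  have hp0 : (x.p : ℤ) ≠ 0 := by
    have := x.hp
    omega
  have h3 : x.p * x.q * x.c ≠ 0 := mul_ne_zero (mul_ne_zero hp0 x.q_ne) x.c_ne
  rw [h2, h1]
  by_cases h4 : 0 < x.p * x.q * x.c
  · rw [if_pos (by simpa using h4), abs_of_pos h4, one_mul]
  · rw [if_neg (by simpa using h4), abs_of_neg (lt_of_le_of_ne (not_lt.mp h4) h3)]
    ring

/-- the exponent of the prefactor -/
def TorusSurgery.r (x : TorusSurgery) : ℚ :=
  x.n / 2 + (x.p * x.q / 2 - (x.p / x.q + x.q / x.p) / 2) -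
    x.p * x.q / (2 * (1 - x.n * (x.p * x.q)))

/-- the Ohtsuki series of the surgery is that of the Seifert homology sphere -/
theorem TorusSurgery.tau_eq (x : TorusSurgery) :
    x.tau = seifertTau x.sphere.fibres x.sphere.P x.r := by
  have hp0 : x.p ≠ 0 := by
    have := x.hp
    omega
  have ha : ∏ l ∈ x.fib, rescale (1 / (l : ℚ) ^ 2) sh = rescale ((1 / (x.p : ℚ)) ^ 2) sh *
      rescale ((1 / (x.q : ℚ)) ^ 2) sh * rescale ((1 / (x.c : ℚ)) ^ 2) sh := by
    rw [x.prod_fib (fun l => rescale (1 / (l : ℚ) ^ 2) sh), mul_assoc]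
    have e : ∀ z : ℤ, (1 : ℚ) / ((z.natAbs : ℕ) : ℚ) ^ 2 = (1 / (z : ℚ)) ^ 2 := by
      intro z
      rw [one_div_pow]
      congr 1
      rw [Nat.cast_natAbs, Int.cast_abs, sq_abs]
    rw [e, e, one_div_pow (x.p : ℚ)]
  have h := torus_ohtsuki x.p x.q x.n x.c hp0 x.q_ne x.hn rfl x.c_ne x.fib x.card_fib ha
  have h2 : x.tau = ohtsuki x.n (cableJ x.p x.q unknotJ) := rfl
  rw [h2, h, x.P_eq]
  have h3 : x.sphere.fibres = x.fib := rfl
  rw [h3]
  congr 1
  rw [r, AT, TorusSurgery.c]
  push_cast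
  ring

theorem TorusSurgery.sphere_injective : Function.Injective TorusSurgery.sphere := by
  intro x y h
  have hf : x.fib = y.fib := congrArg SeifertSphere.fibres h
  have hpos : x.sphere.P = y.sphere.P := by rw [h]
  rw [x.P_eq, y.P_eq] at hpos
  have a1 := x.lt_q
  have a2 := x.lt_c
  have b1 := y.lt_q
  have b2 := y.lt_c
  have mem : ∀ l, (l = x.p ∨ l = x.q.natAbs ∨ l = x.c.natAbs) ↔
      (l = y.p ∨ l = y.q.natAbs ∨ l = y.c.natAbs) := by
    intro l
    have h1 : l ∈ x.fib ↔ l ∈ y.fib := by rw [hf]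
    rwa [fib, fib, Finset.mem_insert, Finset.mem_insert, Finset.mem_singleton, Finset.mem_insert,
      Finset.mem_insert, Finset.mem_singleton] at h1
  have m1 := mem x.p
  have m2 := mem x.q.natAbs
  have m3 := mem x.c.natAbs
  have m4 := mem y.p
  have m5 := mem y.q.natAbs
  have m6 := mem y.c.natAbs
  have ep : x.p = y.p := by omega
  have eq : x.q.natAbs = y.q.natAbs := by omega
  have ec : x.c.natAbs = y.c.natAbs := by omega
  have hp0 : (x.p : ℤ) ≠ 0 := by
    have := x.hp
    omega
  have hqc : x.q * x.c = y.q * y.c := by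
    rw [← ep, mul_assoc, mul_assoc] at hpos
    exact mul_left_cancel₀ hp0 hpos
  rcases Int.natAbs_eq_natAbs_iff.mp eq with e1 | e1
  · have e2 : x.c = y.c := by
      rw [← e1] at hqc
      exact mul_left_cancel₀ x.q_ne hqc
    have e3 : x.n = y.n := by
      rw [TorusSurgery.c, TorusSurgery.c, ← e1, ← ep] at e2
      have e4 : x.n * (x.p * x.q) = y.n * (x.p * x.q) := by linarith
      exact mul_right_cancel₀ (mul_ne_zero hp0 x.q_ne) e4
    obtain ⟨p, q, n, _, _, _, _⟩ := x
    obtain ⟨p', q', n', _, _, _, _⟩ := y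
    simp only at ep e1 e3
    subst ep e1 e3
    rfl
  · exfalso
    have e2 : x.c = -y.c := by
      rw [e1] at hqc
      have hq' : y.q ≠ 0 := y.q_ne
      have : y.q * (-x.c) = y.q * y.c := by linarith
      have := mul_left_cancel₀ hq' this
      linarith
    rw [TorusSurgery.c, TorusSurgery.c, e1, ← ep] at e2
    -- p q' (n + n') = ±2
    have e3 : (x.p * y.q) * (x.n + y.n * (-1) * (-1)) = (x.p * y.q) * (x.n + y.n) := by ring
    have e4 : (x.p : ℤ) * y.q ∣ 2 := ⟨-(x.n - y.n), by linarith⟩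
    have e5 := Int.le_of_dvd (by norm_num) ((abs_dvd _ _).mpr e4)
    rw [abs_mul, Nat.abs_cast] at e5
    have e6 := y.hpq
    rw [← ep] at e6
    have e7 : (2 : ℤ) ≤ x.p := by exact_mod_cast x.hp
    nlinarith

/-- the Ohtsuki series separates the connected sums of surgeries on torus knots -/
theorem torus_injective : Function.Injective
    (fun L : Multiset TorusSurgery => (L.map TorusSurgery.tau).prod) := by
  intro L L' h
  simp only at h
  apply Multiset.map_injective TorusSurgery.sphere_injective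
  set r : SeifertSphere → ℚ := Function.extend TorusSurgery.sphere TorusSurgery.r 0 with hr
  apply sphere_injective r
  simp only
  have key : ∀ L : Multiset TorusSurgery,
      ((L.map TorusSurgery.sphere).map fun M => seifertTau M.fibres M.P (r M)) =
      L.map TorusSurgery.tau := by
    intro L
    rw [Multiset.map_map]
    apply Multiset.map_congr rfl
    intro x _
    rw [Function.comp_apply, hr, TorusSurgery.sphere_injective.extend_apply, x.tau_eq]
  rw [key, key, h]

end

end Pool.Agent.H765.CS
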